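import Pool.Agent.H3.FF.Cnt

/-!
# MP_4c8b8e_co: the fibres of the graph over the lattice
-/

set_option autoImplicit false
set_option linter.unusedSectionVars false
set_option linter.unusedVariables false

open scoped BigOperators

namespace Pool.Agent.H3.FF

open CV TV Tz Pool.Agent.H58.FF Pool.Agent.H41.Fire Classical

section

variable {K H L : ℕ} [NeZero K]

/-- the base point of a vertex of the graph -/
def bp : GV K H L → TV K H
  | Sum.inl x => hp x
  | Sum.inr e => hp e.1.1

theorem base_bp (w : GV K H L) : Base w (bp w) := by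
  rcases w with x | e
  · exact Or.inl ⟨x, rfl, rfl⟩
  · exact Or.inr ⟨e, rfl, rfl⟩

/-- a point of nonzero class has at least two nonzero coordinates -/
theorem two_coord (g : Par K H L) {f : TV K H} (hf : cls f ≠ 0) {b : Bool} {i : ZMod K}
    (hs : Sp b i f.1) : ∃ k, fc b i k ∧ ∀ e, fc b i e → e ≠ k → 1 ≤ f.1 e := by
  obtain ⟨k, hk, hmin⟩ := min_coord f.1 b i
  refine ⟨k, hk, fun e he hek => ?_⟩
  by_contra h0
  apply hf
  have hmin0 := hmin e he
  obtain ⟨d, hd, hed, hkd⟩ := fc_third g.hK he hk hek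
  have h1 := sum_H g f hs he hk hd hek hed hkd
  have h2 : f.1 e = 0 := by omega
  have h3 : f.1 k = 0 := by omega
  have h4 : f.1 d = H := by omega
  rw [cls_fc g f hs he hk hd hek hed hkd, h2, h3, h4]
  have h5 : ((H : ℕ) : ZMod 3) = 0 := (ZMod.natCast_eq_zero_iff _ _).2 (g.l3.trans g.lh)
  rw [h5]
  simp

/-- at most six neighbours -/
theorem card_nb (g : Par K H L) {f : TV K H} (hf : cls f ≠ 0) : {f' | Ad f f'}.ncard ≤ 6 := by
  obtain ⟨b, i, hs⟩ := f.2.2
  obtain ⟨k, hk, h1⟩ := two_coord g hf hs
  obtain ⟨p0, C, hC⟩ := chart_ex' g f 1 hs hk h1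
  have hsub : {f' | Ad f f'} ⊆ C.φ '' (nbs p0 : Set Pt) := by
    intro f' hf'
    obtain ⟨q, hq, h2⟩ := C.lift p0 (by have := dst_self p0; push_cast; omega) f' (by rw [hC]; exact hf')
    exact ⟨q, hq, h2⟩
  refine (Set.ncard_le_ncard hsub (Set.toFinite _)).trans
    ((Set.ncard_image_le (Set.toFinite _)).trans ?_)
  rw [Set.ncard_coe_finset, card_nbs]

theorem ncard_bUnion_le {α β : Type} [Finite β] (s : Finset α) (A : α → Set β) (n : ℕ)
    (h : ∀ a ∈ s, (A a).ncard ≤ n) : {x | ∃ a ∈ s, x ∈ A a}.ncard ≤ s.card * n := by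
  induction s using Finset.induction_on with
  | empty => simp
  | insert a s ha ih =>
    have h1 : {x | ∃ a' ∈ insert a s, x ∈ A a'} = A a ∪ {x | ∃ a ∈ s, x ∈ A a} := by
      ext x
      simp
    rw [h1, Finset.card_insert_of_notMem ha]
    refine (Set.ncard_union_le _ _).trans ?_
    have h2 := h a (Finset.mem_insert_self _ _)
    have h3 := ih fun a' ha' => h a' (Finset.mem_insert_of_mem ha')
    nlinarith

/-- the rim of a half hexagon has at most five points -/
theorem card_rim (g : Par K H L) (τ : Tz K H L) :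
    {f | Rim (Sum.inr τ : DV K H L) f}.ncard ≤ 5 := by
  obtain ⟨t1, t2, t3, t4, t5⟩ := τ.2
  obtain ⟨c, d, hc, hd, hcd, hck, hdk⟩ := fc_others g.hK t2
  set k := τ.1.2.2.1
  let Q : Finset (CV K × CV K) := {(c, d), (d, c), if τ.1.2.2.2 = true then (c, k) else (k, c),
    if τ.1.2.2.2 = true then (d, k) else (k, d)}
  have hsub : {f | Rim (Sum.inr τ : DV K H L) f} ⊆
      {τ.1.1} ∪ {f | ∃ q ∈ Q, f ∈ {f' | Stp τ.1.1 f' q.1 q.2}} := by
    rintro f ⟨h1, h2, h3⟩
    rcases h2 with h2 | ⟨k', h2⟩
    · exact Or.inl h2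
    · right
      obtain ⟨-, -, -, x, y, hx, hy, -, -, s⟩ := h2
      have hxy := TV.Stp.ne s
      have hsx : f.1 x + 1 = τ.1.1.1 x := s.1.symm
      have hsy : f.1 y = τ.1.1.1 y + 1 := s.2.1
      have hf3 : f.1 k = τ.1.1.1 k ∨ (τ.1.2.2.2 = true ∧ f.1 k = τ.1.1.1 k + 1) ∨
        (τ.1.2.2.2 = false ∧ τ.1.1.1 k = f.1 k + 1) := h3
      refine ⟨(x, y), ?_, s⟩
      rcases fc_three hc hd t2 hcd hck hdk hx with hx' | hx' | hx' <;>
        rcases fc_three hc hd t2 hcd hck hdk hy with hy' | hy' | hy'
      · exact absurd (hx'.trans hy'.symm) hxy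
      · rw [hx', hy']; simp [Q]
      · have hs : τ.1.2.2.2 = true := by
          rw [hy'] at hsy
          rcases hf3 with h | h | h
          · omega
          · exact h.1
          · omega
        rw [hx', hy']; simp [Q, hs, k]
      · rw [hx', hy']; simp [Q]
      · exact absurd (hx'.trans hy'.symm) hxy
      · have hs : τ.1.2.2.2 = true := by
          rw [hy'] at hsy
          rcases hf3 with h | h | h
          · omega
          · exact h.1
          · omega
        rw [hx', hy']; simp [Q, hs, k]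
      · have hs : τ.1.2.2.2 = false := by
          rw [hx'] at hsx
          rcases hf3 with h | h | h
          · omega
          · omega
          · exact h.1
        rw [hx', hy']; simp [Q, hs, k]
      · have hs : τ.1.2.2.2 = false := by
          rw [hx'] at hsx
          rcases hf3 with h | h | h
          · omega
          · omega
          · exact h.1
        rw [hx', hy']; simp [Q, hs, k]
      · exact absurd (hx'.trans hy'.symm) hxy
  have hQ : Q.card ≤ 4 := Finset.card_le_four
  refine (Set.ncard_le_ncard hsub (Set.toFinite _)).trans ((Set.ncard_union_le _ _).trans ?_)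
  have h1 := ncard_bUnion_le Q (fun q => {f' | Stp τ.1.1 f' q.1 q.2}) 1 (by
    intro q _
    rw [Set.ncard_le_one_iff (Set.toFinite _)]
    intro a b ha hb
    exact Rh.stp_eq H ha hb)
  rw [Set.ncard_singleton]
  omega

/-- at most two half hexagons at a point -/
theorem card_tz (g : Par K H L) (f : TV K H) : {τ : Tz K H L | τ.f = f}.ncard ≤ 2 := by
  by_cases hemp : {τ : Tz K H L | τ.f = f} = ∅
  · rw [hemp, Set.ncard_empty]
    omega
  obtain ⟨τ0, h0⟩ := Set.nonempty_iff_ne_empty.2 hemp
  obtain ⟨t1, t2, t3, t4, t5⟩ := τ0.2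
  have h0' : τ0.1.1 = f := h0
  rw [h0'] at t1 t3 t4 t5
  have hf0 : cls f ≠ 0 := by rw [t4]; decide
  obtain ⟨r, hrb, hri, hrk⟩ := rh_ex g.hK g.ev t2
  rw [← hrb, ← hri] at t1
  rw [← hrk] at t3 t5
  have nu : ¬ L ∣ f.1 r.u := fun h => r.uk (uniq_street g t1 hf0 r.hu r.hk h t3)
  have nv : ¬ L ∣ f.1 r.v := fun h => r.vk (uniq_street g t1 hf0 r.hv r.hk h t3)
  have hu0 : f.1 r.u ≠ 0 := fun h => nu (by rw [h]; exact dvd_zero L)
  have hv0 : f.1 r.v ≠ 0 := fun h => nv (by rw [h]; exact dvd_zero L)
  -- the half hexagons at `f`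
  have hall : ∀ τ : Tz K H L, τ.f = f →
      (τ.1.2.1 = (r.b, r.i) ∧ τ.1.2.2.1 = r.k) ∨
      (τ.1.2.1 = (r.b', r.i') ∧ τ.1.2.2.1 = r.k' ∧ f.1 r.k = 0) := by
    intro τ hτ
    obtain ⟨s1, s2, s3, s4, s5⟩ := τ.2
    have hτ' : τ.1.1 = f := hτ
    rw [hτ'] at s1 s3 s4 s5
    rcases r.comp _ _ (supp_fc s1 hu0) (supp_fc s1 hv0) with ⟨hb, hi⟩ | ⟨hb, hi⟩
    · left
      refine ⟨Prod.ext hb hi, ?_⟩
      rw [hb, hi] at s2
      exact uniq_street g t1 hf0 s2 r.hk s3 t3
    · right
      have hk : τ.1.2.2.1 = r.k' := by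
        rw [hb, hi] at s1 s2
        have h3 : L ∣ f.1 r.k' := by
          have h4 : f.1 r.k' = 0 := by
            apply t1
            intro h5
            rcases fc_three r.hu r.hv r.hk r.uv r.uk r.vk h5 with h | h | h
            · exact r.uk' h.symm
            · exact r.vk' h.symm
            · exact r.kk' h.symm
          rw [h4]
          exact dvd_zero L
        exact uniq_street g s1 hf0 s2 r.hk' s3 h3
      refine ⟨Prod.ext hb hi, hk, ?_⟩
      rw [hb, hi] at s1
      apply s1
      intro h5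
      rcases fc_three r.hu' r.hv' r.hk' r.uv r.uk' r.vk' h5 with h | h | h
      · exact r.uk h.symm
      · exact r.vk h.symm
      · exact r.kk' h
  have hk'0 : f.1 r.k' = 0 := by
    apply t1
    intro h5
    rcases fc_three r.hu r.hv r.hk r.uv r.uk r.vk h5 with h | h | h
    · exact r.uk' h.symm
    · exact r.vk' h.symm
    · exact r.kk' h.symm
  have hs' : ∀ τ : Tz K H L, τ.f = f → f.1 τ.1.2.2.1 = 0 → τ.1.2.2.2 = true := by
    intro τ hτ h1
    obtain ⟨s1, s2, s3, s4, s5⟩ := τ.2
    have hτ' : τ.1.1 = f := hτ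
    rw [hτ'] at s5
    by_contra h2
    have h3 : τ.1.2.2.2 = false := by simpa using h2
    have := s5 h3
    omega
  have hcard : (Set.univ : Set Bool).ncard = 2 := by
    rw [Set.ncard_univ, Nat.card_eq_fintype_card, Fintype.card_bool]
  rw [← hcard]
  by_cases hk0 : f.1 r.k = 0
  · refine Set.ncard_le_ncard_of_injOn (fun τ => decide (τ.1.2.1 = (r.b, r.i)))
      (fun _ _ => Set.mem_univ _) ?_ (Set.toFinite _)
    intro τ hτ τ' hτ' he
    have hτ1 : τ.f = f := hτ
    have hτ1' : τ'.f = f := hτ'
    have hne : (r.b', r.i') ≠ (r.b, r.i) := by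
      intro h
      have h1 : r.b' = r.b := congrArg Prod.fst h
      have h2 : r.i' = r.i := congrArg Prod.snd h
      have h3 := r.hk'
      rw [h1, h2] at h3
      rcases fc_three r.hu r.hv r.hk r.uv r.uk r.vk h3 with h | h | h
      · exact r.uk' h.symm
      · exact r.vk' h.symm
      · exact r.kk' h.symm
    have a1 : τ.1.2.2.2 = true := hs' τ hτ1 (by
      rcases hall τ hτ1 with h | h
      · rw [h.2]; exact hk0
      · rw [h.2.1]; exact hk'0)
    have a2 : τ'.1.2.2.2 = true := hs' τ' hτ1' (by
      rcases hall τ' hτ1' with h | h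
      · rw [h.2]; exact hk0
      · rw [h.2.1]; exact hk'0)
    have he' : (τ.1.2.1 = (r.b, r.i)) ↔ (τ'.1.2.1 = (r.b, r.i)) := by
      simpa using he
    apply Subtype.ext
    have e1 : τ.1.1 = τ'.1.1 := (show τ.1.1 = f from hτ).trans (show τ'.1.1 = f from hτ').symm
    rcases hall τ hτ1 with h | h <;> rcases hall τ' hτ1' with h' | h'
    · exact Prod.ext e1 (Prod.ext (h.1.trans h'.1.symm)
        (Prod.ext (h.2.trans h'.2.symm) (a1.trans a2.symm)))
    · exact absurd (h'.1.symm.trans (he'.1 h.1)) hne
    · exact absurd (h.1.symm.trans (he'.2 h'.1)) hne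
    · exact Prod.ext e1 (Prod.ext (h.1.trans h'.1.symm)
        (Prod.ext (h.2.1.trans h'.2.1.symm) (a1.trans a2.symm)))
  · refine Set.ncard_le_ncard_of_injOn (fun τ => τ.1.2.2.2)
      (fun _ _ => Set.mem_univ _) ?_ (Set.toFinite _)
    intro τ hτ τ' hτ' he
    have hτ1 : τ.f = f := hτ
    have hτ1' : τ'.f = f := hτ'
    have he' : τ.1.2.2.2 = τ'.1.2.2.2 := he
    have e1 : τ.1.1 = τ'.1.1 := (show τ.1.1 = f from hτ).trans (show τ'.1.1 = f from hτ').symm
    apply Subtype.ext
    rcases hall τ hτ1 with h | h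
    · rcases hall τ' hτ1' with h' | h'
      · exact Prod.ext e1 (Prod.ext (h.1.trans h'.1.symm) (Prod.ext (h.2.trans h'.2.symm) he'))
      · exact absurd h'.2.2 hk0
    · exact absurd h.2.2 hk0

/-- spokes of a hub -/
theorem card_spk (x : DV K H L) : {w : GV K H L | ∃ e : Spk K H L, w = Sum.inr e ∧ e.1.1 = x}.ncard
    ≤ {f | Rim x f}.ncard := by
  refine Set.ncard_le_ncard_of_injOn
    (fun w => match w with
      | Sum.inl x => hp x
      | Sum.inr e => e.1.2) ?_ ?_ (Set.toFinite _)
  · rintro w ⟨e, rfl, rfl⟩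
    exact e.2
  · rintro w ⟨e, rfl, he⟩ w' ⟨e', rfl, he'⟩ h
    have h1 : e.1.2 = e'.1.2 := h
    exact congrArg Sum.inr (Subtype.ext (Prod.ext (he.trans he'.symm) h1))

/-- the fibres have at most `13` points -/
theorem card_fib (g : Par K H L) (f : TV K H) : {w : GV K H L | bp w = f}.ncard ≤ 13 := by
  by_cases hf : cls f = 2
  · have hf0 : cls f ≠ 0 := by rw [hf]; decide
    by_cases hs : OnS L f
    · have hsub : {w : GV K H L | bp w = f} ⊆ {Sum.inl (Sum.inl f)} ∪
          ((fun τ : Tz K H L => (Sum.inl (Sum.inr τ) : GV K H L)) '' {τ | τ.f = f}) ∪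
          {w | ∃ τ ∈ (Set.toFinite {τ : Tz K H L | τ.f = f}).toFinset,
            w ∈ {w : GV K H L | ∃ e : Spk K H L, w = Sum.inr e ∧ e.1.1 = Sum.inr τ}} := by
        intro w hw
        have hw' : bp w = f := hw
        rcases w with (x | τ) | e
        · left; left
          have : x = f := hw'
          rw [this]
          rfl
        · left; right
          exact ⟨τ, hw', rfl⟩
        · right
          have he := e.2
          rcases hx : e.1.1 with x | τ
          · exfalso
            rw [hx] at he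
            have h1 : x = f := by
              have h2 : hp e.1.1 = f := hw'
              rw [hx] at h2
              exact h2
            rw [h1] at he
            exact he.2.1 hs
          · refine ⟨τ, ?_, e, rfl, hx⟩
            rw [Set.Finite.mem_toFinset]
            have h2 : hp e.1.1 = f := hw'
            rw [hx] at h2
            exact h2
      refine (Set.ncard_le_ncard hsub (Set.toFinite _)).trans ((Set.ncard_union_le _ _).trans ?_)
      have h1 := Set.ncard_union_le ({Sum.inl (Sum.inl f)} : Set (GV K H L))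
        ((fun τ : Tz K H L => (Sum.inl (Sum.inr τ) : GV K H L)) '' {τ | τ.f = f})
      have h2 := Set.ncard_image_le (f := fun τ : Tz K H L => (Sum.inl (Sum.inr τ) : GV K H L))
        (Set.toFinite {τ : Tz K H L | τ.f = f})
      have h3 := card_tz g f
      have h4 := ncard_bUnion_le (Set.toFinite {τ : Tz K H L | τ.f = f}).toFinset
        (fun τ => {w : GV K H L | ∃ e : Spk K H L, w = Sum.inr e ∧ e.1.1 = Sum.inr τ}) 5
        (fun τ _ => (card_spk (Sum.inr τ)).trans (card_rim g τ))
      rw [← Set.ncard_eq_toFinset_card _ (Set.toFinite {τ : Tz K H L | τ.f = f})] at h4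
      rw [Set.ncard_singleton] at h1
      omega
    · have hsub : {w : GV K H L | bp w = f} ⊆ {Sum.inl (Sum.inl f)} ∪
          {w : GV K H L | ∃ e : Spk K H L, w = Sum.inr e ∧ e.1.1 = Sum.inl f} := by
        intro w hw
        have hw' : bp w = f := hw
        have hτ : ∀ τ : Tz K H L, hp (Sum.inr τ : DV K H L) ≠ f := by
          intro τ h
          apply hs
          rw [← h]
          exact ⟨_, _, _, τ.2.1, τ.2.2.1, τ.2.2.2.1⟩
        rcases w with (x | τ) | e
        · left
          have : x = f := hw'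
          rw [this]
          rfl
        · exact absurd hw' (hτ τ)
        · right
          refine ⟨e, rfl, ?_⟩
          have h2 : hp e.1.1 = f := hw'
          rcases hx : e.1.1 with x | τ
          · rw [hx] at h2
            have : x = f := h2
            rw [this]
          · rw [hx] at h2
            exact absurd h2 (hτ τ)
      refine (Set.ncard_le_ncard hsub (Set.toFinite _)).trans ((Set.ncard_union_le _ _).trans ?_)
      have h1 := card_spk (Sum.inl f : DV K H L)
      have h2 : {f' | Rim (Sum.inl f : DV K H L) f'}.ncard ≤ {f' | Ad f f'}.ncard :=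
        Set.ncard_le_ncard (fun f' h => h.2.2) (Set.toFinite _)
      have h3 := card_nb g hf0
      rw [Set.ncard_singleton]
      omega
  · have hsub : {w : GV K H L | bp w = f} ⊆ {Sum.inl (Sum.inl f)} := by
      intro w hw
      have hw' : bp w = f := hw
      rcases w with (x | τ) | e
      · have : x = f := hw'
        rw [this]
        rfl
      · exfalso
        apply hf
        rw [← hw']
        exact τ.2.2.2.2.1
      · exfalso
        apply hf
        rw [← hw']
        exact hp_cls e.2
    refine (Set.ncard_le_ncard hsub (Set.toFinite _)).trans ?_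
    rw [Set.ncard_singleton]
    omega

/-- sets of the graph over sets of the lattice -/
theorem card_over (g : Par K H L) (B : Set (TV K H)) :
    {w : GV K H L | bp w ∈ B}.ncard ≤ 13 * B.ncard := by
  have h1 : {w : GV K H L | bp w ∈ B} =
      {w | ∃ f ∈ (Set.toFinite B).toFinset, w ∈ {w : GV K H L | bp w = f}} := by
    ext w
    constructor
    · intro h
      exact ⟨bp w, (Set.Finite.mem_toFinset _).2 h, rfl⟩
    · rintro ⟨f, hf, hw⟩
      have h2 : bp w = f := hw
      show bp w ∈ B
      rw [h2]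
      exact (Set.Finite.mem_toFinset _).1 hf
  rw [h1]
  have h2 := ncard_bUnion_le (Set.toFinite B).toFinset (fun f => {w : GV K H L | bp w = f}) 13
    (fun f _ => card_fib g f)
  rw [← Set.ncard_eq_toFinset_card _ (Set.toFinite B)] at h2
  omega

/-- the number of vertices of the graph -/
theorem card_GV (g : Par K H L) :
    Nat.card (TV K H) ≤ Nat.card (GV K H L) ∧ Nat.card (GV K H L) ≤ 13 * Nat.card (TV K H) := by
  constructor
  · exact Nat.card_le_card_of_injective (fun f : TV K H => (Sum.inl (Sum.inl f) : GV K H L))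
      (fun f f' h => by
        have h1 : (Sum.inl f : DV K H L) = Sum.inl f' := Sum.inl_injective h
        exact Sum.inl_injective h1)
  · have h1 := card_over (L := L) g (Set.univ : Set (TV K H))
    rw [Set.ncard_univ] at h1
    have h2 : {w : GV K H L | bp w ∈ (Set.univ : Set (TV K H))} = Set.univ :=
      Set.eq_univ_of_forall fun w => Set.mem_univ (bp w)
    rw [h2, Set.ncard_univ] at h1
    exact h1

/-- starts whose base point is not typical -/
theorem card_bad_starts (g : Par K H L) (D0 R : ℕ) :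
    {w : GV K H L | ¬ Typ L D0 R (bp w)}.ncard ≤
      13 * (24 * K * R ^ 2 + 6 * K * ((H / L + 1) * (2 * D0 + 1) * (H + 1))) :=
  (card_over g {f | ¬ Typ L D0 R f}).trans (Nat.mul_le_mul_left _ (card_bad g D0 R))

end

end Pool.Agent.H3.FF
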