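import Pool.Agent.H3.FF.Rhomb

/-!
# MP_4c8b8e_co: typical starts and the area theorem for all strategies
-/

set_option autoImplicit false
set_option linter.unusedSectionVars false
set_option linter.unusedVariables false

open scoped BigOperators

namespace Pool.Agent.H3.FF

open CV TV Tz Pool.Agent.H58.FF Pool.Agent.H41.Fire Classical

section

variable {K H L : ℕ} [NeZero K]

/-- points far from the coarse vertices and from the streets -/
def Typ (L D0 R : ℕ) (f : TV K H) : Prop :=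
  (∀ u, f.1 u + 2 * R ≤ H) ∧ ∀ b i, Sp b i f.1 → ∀ e, fc b i e →
    D0 < f.1 e % L ∧ f.1 e % L + D0 < L

/-- a shorter distance by one step -/
theorem dst_pred {p p0 : Pt} {d : ℕ} (h : dst p p0 ≤ (d : ℤ) + 1) (h0 : p ≠ p0) :
    ∃ q, p ∈ nbs q ∧ dst q p0 ≤ d := by
  obtain ⟨a, b⟩ := p
  obtain ⟨a0, b0⟩ := p0
  have h1 := (ar_dst (a, b) (a0, b0) ((d : ℤ) + 1)).1 h
  dsimp only at h1
  have h0' : ¬ (a = a0 ∧ b = b0) := fun h => h0 (by rw [h.1, h.2])
  have key : ∀ q : Pt, (q = (a - 1, b) ∨ q = (a, b - 1) ∨ q = (a + 1, b - 1) ∨ q = (a + 1, b) ∨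
      q = (a, b + 1) ∨ q = (a - 1, b + 1)) → ((a, b) : Pt) ∈ nbs q := by
    rintro q (rfl | rfl | rfl | rfl | rfl | rfl) <;> simp [nbs]
  by_cases c1 : 0 < a - a0 ∧ 0 ≤ b - b0
  · exact ⟨(a - 1, b), key _ (by simp), by rw [ar_dst]; dsimp only; omega⟩
  by_cases c2 : 0 = a - a0 ∧ 0 < b - b0
  · exact ⟨(a, b - 1), key _ (by simp), by rw [ar_dst]; dsimp only; omega⟩
  by_cases c3 : a - a0 < 0 ∧ 0 < b - b0
  · exact ⟨(a + 1, b - 1), key _ (by simp), by rw [ar_dst]; dsimp only; omega⟩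
  by_cases c4 : a - a0 < 0 ∧ b - b0 ≤ 0
  · exact ⟨(a + 1, b), key _ (by simp), by rw [ar_dst]; dsimp only; omega⟩
  by_cases c5 : 0 = a - a0 ∧ b - b0 < 0
  · exact ⟨(a, b + 1), key _ (by simp), by rw [ar_dst]; dsimp only; omega⟩
  exact ⟨(a - 1, b + 1), key _ (by simp), by rw [ar_dst]; dsimp only; omega⟩

/-- no streets near a typical point -/
theorem far_street (g : Par K H L) {D0 R : ℕ} {f : TV K H} (hf : Typ L D0 R f) {p0 : Pt}
    {R' : ℕ} (C : Chart K H p0 R') (hC : C.φ p0 = f) (hD : D0 < R') {c : Pt}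
    (hc : dst c p0 ≤ D0) : ¬ OnS L (C.φ c) := by
  obtain ⟨b, i, hs⟩ := f.2.2
  have hres := hf.2 b i hs
  -- all coordinates stay close and the face does not change
  have key : ∀ d : ℕ, d ≤ D0 → ∀ c, dst c p0 ≤ d → Sp b i (C.φ c).1 ∧
      ∀ e, |((C.φ c).1 e : ℤ) - f.1 e| ≤ d := by
    intro d
    induction d with
    | zero =>
      intro _ c hc
      have : c = p0 := by
        rw [ar_dst] at hc
        apply Prod.ext <;> push_cast at hc <;> omega
      rw [this, hC]
      exact ⟨hs, fun e => by simp⟩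
    | succ d ih =>
      intro hd c hc
      by_cases h0 : c = p0
      · rw [h0, hC]
        exact ⟨hs, fun e => by simp; positivity⟩
      · obtain ⟨q, hq, hq1⟩ := dst_pred (by push_cast at hc; exact hc) h0
        obtain ⟨h1, h2⟩ := ih (by omega) q hq1
        have hd' : ((d + 1 : ℕ) : ℤ) ≤ D0 := by exact_mod_cast hd
        have hR : (D0 : ℤ) < R' := by exact_mod_cast hD
        have ha := C.adj q c (by push_cast at hd'; omega) (by omega) hq
        have hfull : ∀ e, fc b i e → (C.φ q).1 e ≠ 0 := by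
          intro e he h0
          have h3 := h2 e
          have h4 := (hres e he).1
          have h5 : f.1 e % L ≤ f.1 e := Nat.mod_le _ _
          rw [h0, abs_le] at h3
          push_cast at hd' h3
          omega
        obtain ⟨b', i', k', s1, s2, -, -⟩ := ha
        obtain ⟨rfl, rfl⟩ := fc_inj g.hK (b := b) (i := i) (b' := b') (i' := i')
          (fun e he => supp_fc s1 (hfull e he))
        refine ⟨s2, fun e => ?_⟩
        obtain ⟨x, y, s⟩ := (C.adj q c (by push_cast at hd'; omega) (by omega) hq).stp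
        have h3 := stp_fun s e
        have h4 := h2 e
        have a1 := dl_nonneg x e
        have a2 := dl_le x e
        have a3 := dl_nonneg y e
        have a4 := dl_le y e
        rw [abs_le] at h4 ⊢
        push_cast
        omega
  obtain ⟨h1, h2⟩ := key D0 le_rfl c hc
  rintro ⟨b', i', k, s1, s2, s3⟩
  obtain ⟨rfl, rfl⟩ := fc_inj g.hK (b := b) (i := i) (b' := b') (i' := i')
    (fun e he => supp_fc s1 (by
      intro h0
      have h3 := h2 e
      have h4 := (hres e he).1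
      have h5 : f.1 e % L ≤ f.1 e := Nat.mod_le _ _
      rw [h0, abs_le] at h3
      push_cast at h3
      omega))
  have h3 := h2 k
  obtain ⟨h4, h5⟩ := hres k s2
  rw [abs_le] at h3
  obtain ⟨m, hm⟩ := s3
  have hdm := Nat.div_add_mod (f.1 k) L
  have hL : 0 < L := by omega
  -- `f k = L q + r` with `D0 < r < L - D0`, and `L m` is at distance at most `D0`
  have hm' : ((C.φ c).1 k : ℤ) = L * m := by exact_mod_cast hm
  have hdm' : (f.1 k : ℤ) = L * ((f.1 k / L : ℕ) : ℤ) + ((f.1 k % L : ℕ) : ℤ) := by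
    exact_mod_cast hdm.symm
  rw [hm', hdm'] at h3
  have h4' : (D0 : ℤ) < ((f.1 k % L : ℕ) : ℤ) := by exact_mod_cast h4
  have h5' : ((f.1 k % L : ℕ) : ℤ) + D0 < L := by exact_mod_cast h5
  rcases lt_trichotomy (m : ℤ) ((f.1 k / L : ℕ) : ℤ) with h | h | h
  · nlinarith
  · rw [h] at h3
    linarith [h3.1, h3.2]
  · nlinarith

theorem area_hall (hA : SArea) : ∃ D0 t1 : ℕ, ∀ (K H L : ℕ) [NeZero K] (g : Par K H L)
    (w0 : GV K H L) (U : Set (GV K H L)), Hall (G K H L) w0 U →
    ∀ (f : TV K H) (R : ℕ), Base w0 f → Typ L D0 R f → ∀ t, t1 ≤ t → t < R →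
    48 * t ^ 2 ≤ 100 * {f : TV K H | Sum.inl (Sum.inl f) ∈ bu (G K H L) w0 U t}.ncard := by
  obtain ⟨D0, t1, h⟩ := area_chart hA
  refine ⟨D0, max t1 D0, ?_⟩
  intro K H L _ g w0 U hU f R hw hf t ht htR
  -- remove the guards on spokes
  obtain ⟨U', hU', hsub, hdis⟩ := rem_all (spokes K H L) (by
    rintro x ⟨e, rfl⟩
    refine ⟨Sum.inl e.1.1, Sum.inl (Sum.inl e.1.2), ?_, ?_, adj_spoke e, adj_spoke' e,
      fun w hw => spoke_nbr e hw⟩
    · rintro ⟨e', he'⟩
      exact absurd he' (by simp)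
    · rintro ⟨e', he'⟩
      exact absurd he' (by simp)) hU
  obtain ⟨p0, C, hC⟩ := chart_ex g f R hf.1
  have h1 := h K H L g w0 U' hU' hdis p0 R C (by rw [hC]; exact hw)
    (fun c hc => far_street g hf C hC (by omega) hc) t (by omega) htR
  refine h1.trans (Nat.mul_le_mul_left _ (Set.ncard_le_ncard ?_ (Set.toFinite _)))
  intro f' hf'
  rcases hsub t hf' with h2 | ⟨e, he⟩
  · exact h2
  · exact absurd he (by simp)

end

end Pool.Agent.H3.FF
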