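import Pool.Agent.H3.FF.Fib

/-!
# MP_4c8b8e_co: the final statement and its reduction
-/

set_option autoImplicit false
set_option linter.unusedSectionVars false
set_option linter.unusedVariables false

open scoped BigOperators

namespace Pool.Agent.H3.FF

open CV TV Tz Pool.Agent.H41.Fire Classical

/-- there are planar graphs of girth at least five with arbitrarily small surviving rate -/
def FinalG5 : Prop := ∀ ε : ℝ, 0 < ε → ∃ (V : Type) (_ : Fintype V) (G : SimpleGraph V),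
  2 ≤ Fintype.card V ∧ Planar G ∧ 5 ≤ G.egirth ∧ rho G < ε

section

variable {V : Type} [Fintype V]

/-- bounds for the number of vertices saved -/
theorem sn_le_of (G : SimpleGraph V) (v : V) (M : ℝ) (hM : 0 ≤ M)
    (h : ∀ U : Set V, Hall G v U → ({w | ∀ t, w ∉ bu G v U t}.ncard : ℝ) ≤ M) :
    (sn G v : ℝ) ≤ M := by
  have h1 : ∀ k ∈ {k : ℕ | ∃ p : ℕ → Option V, Legal G v p ∧
      k = Nat.card {w : V // ∀ t, w ∉ burn G v p t}}, k ≤ ⌊M⌋₊ := by
    rintro k ⟨p, hp, rfl⟩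
    obtain ⟨h2, h3⟩ := hall_of_legal hp
    have h4 := h _ h2
    refine Nat.le_floor (le_trans (le_of_eq ?_) h4)
    have h5 : {w : V | ∀ t, w ∉ burn G v p t} =
        {w | ∀ t, w ∉ bu G v {w | ∃ s, p s = some w} t} := by
      ext w
      constructor
      · intro hw t
        rw [← h3 t]
        exact hw t
      · intro hw t
        rw [h3 t]
        exact hw t
    rw [← h5]
    rfl
  have hne : {k : ℕ | ∃ p : ℕ → Option V, Legal G v p ∧
      k = Nat.card {w : V // ∀ t, w ∉ burn G v p t}}.Nonempty :=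
    ⟨_, fun _ => none, fun t w h => absurd h (by simp), rfl⟩
  have h6 : sn G v ≤ ⌊M⌋₊ := csSup_le hne h1
  exact le_trans (by exact_mod_cast h6) (Nat.floor_le hM)

theorem sn_le_card (G : SimpleGraph V) (v : V) : (sn G v : ℝ) ≤ Fintype.card V := by
  refine sn_le_of G v _ (Nat.cast_nonneg _) fun U _ => ?_
  have h := Set.ncard_le_card {w | ∀ t, w ∉ bu G v U t}
  rw [Nat.card_eq_fintype_card] at h
  exact_mod_cast h

/-- the surviving rate from typical starts -/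
theorem rho_le (G : SimpleGraph V) (a b : ℝ) (ha : 0 ≤ a) (hb : 0 ≤ b) (B : Set V)
    (hB : (B.ncard : ℝ) ≤ b * Fintype.card V)
    (h : ∀ v, v ∉ B → ∀ U : Set V, Hall G v U →
      ({w | ∀ t, w ∉ bu G v U t}.ncard : ℝ) ≤ a * Fintype.card V) :
    rho G ≤ a + b := by
  have hn : (0 : ℝ) ≤ Fintype.card V := Nat.cast_nonneg _
  have h1 : ∀ v : V, (sn G v : ℝ) ≤ a * Fintype.card V +
      (if v ∈ B then (Fintype.card V : ℝ) else 0) := by
    intro v
    by_cases hv : v ∈ B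
    · rw [if_pos hv]
      have := sn_le_card G v
      nlinarith
    · rw [if_neg hv, add_zero]
      exact sn_le_of G v _ (mul_nonneg ha hn) (h v hv)
  have h2 : ∑ v : V, (sn G v : ℝ) ≤ (a + b) * (Fintype.card V : ℝ) ^ 2 := by
    calc ∑ v : V, (sn G v : ℝ) ≤ ∑ v : V, (a * Fintype.card V +
          (if v ∈ B then (Fintype.card V : ℝ) else 0)) := Finset.sum_le_sum fun v _ => h1 v
      _ = Fintype.card V * (a * Fintype.card V) + B.ncard * Fintype.card V := by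
          rw [Finset.sum_add_distrib, Finset.sum_const, Finset.card_univ, nsmul_eq_mul,
            ← Finset.sum_filter, Finset.sum_const, nsmul_eq_mul]
          congr 2
          rw [← Set.ncard_coe_finset]
          congr 2
          ext v
          simp
      _ ≤ _ := by nlinarith
  unfold rho
  rcases hn.eq_or_lt with h0 | hpos
  · rw [← h0]
    simp only [ne_eq, OfNat.ofNat_ne_zero, not_false_eq_true, zero_pow, div_zero]
    exact add_nonneg ha hb
  · rw [div_le_iff₀ (by positivity)]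
    exact h2

end

/-- macro part, the form needed at the end: for all `ε`, `D0`, `t1` there are `K`, `c1` and `L0`
such that for all `L ≥ L0` and all large `H` every strategy saves few vertices from typical
starts -/
def SMain (D0 t1 : ℕ) : Prop := ∀ ε : ℝ, 0 < ε → ∃ (K : ℕ) (_ : NeZero K) (c1 η : ℝ) (L0 : ℕ),
  4 ≤ K ∧ 2 ∣ K ∧ 0 < c1 ∧ c1 ^ 2 ≤ ε ∧ 0 < η ∧ η ≤ ε ∧
  ∀ L, L0 ≤ L → 3 ∣ L → ∃ H0 : ℕ, ∀ H, H0 ≤ H →
    ∀ g : Par K H L, ∀ w0 : GV K H L, Typ L D0 (⌈c1 * H⌉₊ + 1) (bp w0) →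
      (∀ b i, Sp b i (bp w0).1 → ∀ e, fc b i e → η * H ≤ ((bp w0).1 e : ℝ)) →
      ∀ U, Hall (G K H L) w0 U →
      (∀ t, t1 ≤ t → (t : ℝ) ≤ c1 * H →
        48 * t ^ 2 ≤ 100 * {f : TV K H | Sum.inl (Sum.inl f) ∈ bu (G K H L) w0 U t}.ncard) →
      ({w | ∀ t, w ∉ bu (G K H L) w0 U t}.ncard : ℝ) ≤ ε * Nat.card (GV K H L)

/-- the number of points close to the coarse edges -/
theorem card_edge {K H L : ℕ} [NeZero K] (g : Par K H L) (m : ℕ) :
    {f : TV K H | ¬ ∀ b i, Sp b i f.1 → ∀ e, fc b i e → m ≤ f.1 e}.ncard ≤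
      6 * K * (m * (H + 1)) := by
  have h := card_code g (Finset.range m) (Finset.range (H + 1))
  rw [Finset.card_range, Finset.card_range] at h
  refine le_trans (Set.ncard_le_ncard ?_ (Set.toFinite _)) h
  intro f hf
  have hf' : ¬ ∀ b i, Sp b i f.1 → ∀ e, fc b i e → m ≤ f.1 e := hf
  push Not at hf'
  obtain ⟨b, i, hs, e, he, h3⟩ := hf'
  obtain ⟨j, hj⟩ := vx_ex he 0
  have hle : ∀ e, f.1 e < H + 1 := by
    intro e
    have h1 : f.1 e ≤ ∑ c, f.1 c := Finset.single_le_sum (fun _ _ => Nat.zero_le _)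
      (Finset.mem_univ e)
    have h2 := f.2.1
    omega
  refine ⟨(b, i, j), hs, Finset.mem_range.2 ?_, Finset.mem_range.2 (hle _)⟩
  have h4 : vx (b, i, j) j = e := hj
  show f.1 (vx (b, i, j) j) < m
  rw [h4]
  exact h3

/-- the numerical part: the fraction of starts that are not typical -/
theorem bad_num {K H L D0 R N m : ℕ} {c1 ε η : ℝ} (hK : 0 < K) (hL : 0 < L) (hε : 0 < ε)
    (hη : η ≤ ε) (hη0 : 0 < η) (hm : (m : ℝ) ≤ η * H + 1)
    (hc : 0 < c1) (hc1 : c1 ^ 2 ≤ ε) (hLD : (2 * D0 + 1 : ℝ) ≤ ε * L) (hH : (4 : ℝ) ≤ ε * H)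
    (hHL : L ≤ H) (hR : (R : ℝ) ≤ c1 * H + 2) (hN : K * H ^ 2 ≤ N) :
    ((13 * (24 * K * R ^ 2 + 6 * K * ((H / L + 1) * (2 * D0 + 1) * (H + 1))) +
      13 * (6 * K * (m * (H + 1))) : ℕ) : ℝ) ≤ 2000 * ε * N := by
  have hH1 : (1 : ℝ) ≤ H := by exact_mod_cast (show 1 ≤ H by omega)
  have hL1 : (1 : ℝ) ≤ L := by exact_mod_cast hL
  have hLH : (L : ℝ) ≤ H := by exact_mod_cast hHL
  have hK0 : (0 : ℝ) < K := by exact_mod_cast hK
  have hN' : (K : ℝ) * H ^ 2 ≤ N := by exact_mod_cast hN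
  have h1 : (R : ℝ) ^ 2 ≤ 4 * ε * H ^ 2 := by
    have h2 : (R : ℝ) ^ 2 ≤ (c1 * H + 2) ^ 2 := by
      have : (0 : ℝ) ≤ R := Nat.cast_nonneg _
      nlinarith
    have h3 : (c1 * H + 2) ^ 2 ≤ 2 * (c1 ^ 2 * H ^ 2) + 8 := by nlinarith [sq_nonneg (c1 * H - 2)]
    have h4 : c1 ^ 2 * (H : ℝ) ^ 2 ≤ ε * H ^ 2 := by
      have : (0 : ℝ) ≤ (H : ℝ) ^ 2 := by positivity
      nlinarith
    have h5 : (4 : ℝ) ≤ ε * H ^ 2 := by nlinarith
    nlinarith
  have h2 : ((H / L : ℕ) : ℝ) ≤ H / L := Nat.cast_div_le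
  have h3 : ((H / L : ℕ) : ℝ) + 1 ≤ 2 * (H / L) := by
    have : (1 : ℝ) ≤ H / L := by rw [le_div_iff₀ (by linarith)]; linarith
    linarith
  have h4 : (((H / L : ℕ) : ℝ) + 1) * (2 * D0 + 1) ≤ 2 * ε * H := by
    have h5 : (2 * D0 + 1 : ℝ) ≥ 0 := by positivity
    calc (((H / L : ℕ) : ℝ) + 1) * (2 * D0 + 1) ≤ 2 * (H / L) * (2 * D0 + 1) :=
          mul_le_mul_of_nonneg_right h3 h5
      _ ≤ 2 * (H / L) * (ε * L) := by
          refine mul_le_mul_of_nonneg_left hLD (by positivity)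
      _ = 2 * ε * H := by field_simp
  have h5 : (((H / L : ℕ) : ℝ) + 1) * (2 * D0 + 1) * (H + 1) ≤ 4 * ε * H ^ 2 := by
    have h6 : (0 : ℝ) ≤ 2 * ε * H := by positivity
    calc _ ≤ 2 * ε * H * (H + 1) := mul_le_mul_of_nonneg_right h4 (by linarith)
      _ ≤ 2 * ε * H * (2 * H) := mul_le_mul_of_nonneg_left (by linarith) h6
      _ = _ := by ring
  have h10 : (m : ℝ) * (H + 1) ≤ 4 * ε * H ^ 2 := by
    have h11 : (m : ℝ) ≤ 2 * ε * H := by
      have : η * H ≤ ε * H := mul_le_mul_of_nonneg_right hη (by linarith)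
      linarith
    calc (m : ℝ) * (H + 1) ≤ 2 * ε * H * (H + 1) := mul_le_mul_of_nonneg_right h11 (by linarith)
      _ ≤ 2 * ε * H * (2 * H) := mul_le_mul_of_nonneg_left (by linarith) (by positivity)
      _ = _ := by ring
  push_cast
  calc (13 * (24 * K * (R : ℝ) ^ 2 + 6 * K * ((((H / L : ℕ) : ℝ) + 1) * (2 * D0 + 1) * (H + 1))))
        + 13 * (6 * K * (m * (H + 1)))
      ≤ 13 * (24 * K * (4 * ε * H ^ 2) + 6 * K * (4 * ε * H ^ 2)) +
        13 * (6 * K * (4 * ε * H ^ 2)) := by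
        have h6 : (0 : ℝ) ≤ 24 * K := by positivity
        have h7 : (0 : ℝ) ≤ 6 * K := by positivity
        have h8 := mul_le_mul_of_nonneg_left h1 h6
        have h9 := mul_le_mul_of_nonneg_left h5 h7
        have h12 := mul_le_mul_of_nonneg_left h10 h7
        linarith
    _ = 1872 * ε * (K * H ^ 2) := by ring
    _ ≤ 1872 * ε * N := mul_le_mul_of_nonneg_left hN' (by positivity)
    _ ≤ 2000 * ε * N := by
        have : (0 : ℝ) ≤ N := Nat.cast_nonneg _
        have : 0 ≤ ε * N := by positivity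
        nlinarith

/-- the reduction of the final statement to the macro part -/
theorem final_of (hA : Pool.Agent.H58.FF.SArea) (hM : ∀ D0 t1, SMain D0 t1) : FinalG5 := by
  intro ε hε
  obtain ⟨D0, t1, harea⟩ := area_hall hA
  have hε' : 0 < ε / 4000 := by positivity
  obtain ⟨K, hKi, c1, η, L0, hK, hK2, hc, hc1, hη0, hη, hM⟩ := hM D0 t1 (ε / 4000) hε'
  -- choice of `L`
  obtain ⟨n, hn⟩ := exists_nat_gt ((2 * D0 + 1 : ℝ) / (ε / 4000))
  set L := 3 * (L0 + n + 1) with hLdef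
  have hL0 : L0 ≤ L := by omega
  have hLpos : 0 < L := by omega
  have hLD : (2 * D0 + 1 : ℝ) ≤ ε / 4000 * L := by
    rw [div_lt_iff₀ hε'] at hn
    have : (n : ℝ) ≤ L := by exact_mod_cast (show n ≤ L by omega)
    nlinarith
  obtain ⟨H0, hM⟩ := hM L hL0 ⟨_, rfl⟩
  -- choice of `H`
  obtain ⟨m, hm⟩ := exists_nat_gt (4 / (ε / 4000))
  set H := L * (H0 + m + 1) with hHdef
  have hHL : L ≤ H := by
    rw [hHdef]
    exact Nat.le_mul_of_pos_right _ (by omega)
  have hHH : H0 + m + 1 ≤ H := by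
    rw [hHdef]
    exact Nat.le_mul_of_pos_left _ hLpos
  have hH4 : (4 : ℝ) ≤ ε / 4000 * H := by
    rw [div_lt_iff₀ hε'] at hm
    have h1 : (m : ℝ) ≤ H := by exact_mod_cast (show m ≤ H by omega)
    nlinarith
  have g : Par K H L := ⟨hK, hK2, ⟨_, rfl⟩, ⟨_, rfl⟩, by omega⟩
  haveI : Fintype (GV K H L) := Fintype.ofFinite _
  have hcardN : Nat.card (GV K H L) = Fintype.card (GV K H L) := Nat.card_eq_fintype_card
  have hcard : K * H ^ 2 ≤ Fintype.card (GV K H L) := by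
    rw [← hcardN]
    exact (card_TV g).trans (card_GV g).1
  refine ⟨GV K H L, inferInstance, G K H L, ?_, planar g, girth g, ?_⟩
  · have h1 : 1 ≤ H ^ 2 := Nat.one_le_pow _ _ g.pos
    nlinarith
  · have h := rho_le (G K H L) (ε / 4000) (2000 * (ε / 4000)) hε'.le (by positivity)
      ({w : GV K H L | ¬ Typ L D0 (⌈c1 * H⌉₊ + 1) (bp w)} ∪
        {w : GV K H L | bp w ∈ {f : TV K H | ¬ ∀ b i, Sp b i f.1 → ∀ e, fc b i e →
          ⌈η * H⌉₊ ≤ f.1 e}}) ?_ ?_
    · refine lt_of_le_of_lt h ?_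
      linarith
    · have h1 := card_bad_starts (L := L) g D0 (⌈c1 * H⌉₊ + 1)
      have h2 := (card_over (L := L) g {f : TV K H | ¬ ∀ b i, Sp b i f.1 → ∀ e, fc b i e →
          ⌈η * H⌉₊ ≤ f.1 e}).trans (Nat.mul_le_mul_left _ (card_edge g ⌈η * H⌉₊))
      have h3 := (Set.ncard_union_le _ _).trans (add_le_add h1 h2)
      refine le_trans (by exact_mod_cast h3) (bad_num (by omega) hLpos hε' hη hη0
        (Nat.ceil_lt_add_one (show 0 ≤ η * (H : ℝ) by positivity)).le hc hc1 hLD hH4 hHL ?_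
        hcard)
      push_cast
      have := (Nat.ceil_lt_add_one (show 0 ≤ c1 * (H : ℝ) by positivity)).le
      linarith
    · intro w hw U hU
      have hw' : Typ L D0 (⌈c1 * H⌉₊ + 1) (bp w) := by
        by_contra h1
        exact hw (Or.inl h1)
      have hw2 : ∀ b i, Sp b i (bp w).1 → ∀ e, fc b i e → η * H ≤ ((bp w).1 e : ℝ) := by
        have h2 : ∀ b i, Sp b i (bp w).1 → ∀ e, fc b i e → ⌈η * H⌉₊ ≤ (bp w).1 e := by
          by_contra h1
          exact hw (Or.inr h1)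
        intro b i hs e he
        exact (Nat.le_ceil _).trans (by exact_mod_cast h2 b i hs e he)
      rw [← hcardN]
      refine hM H (by omega) g w hw' hw2 U hU fun t ht ht1 => ?_
      refine harea K H L g w U hU (bp w) _ (base_bp w) hw' t ht ?_
      have h2 : (t : ℝ) ≤ ⌈c1 * (H : ℝ)⌉₊ := ht1.trans (Nat.le_ceil _)
      have h3 : t ≤ ⌈c1 * (H : ℝ)⌉₊ := by exact_mod_cast h2
      omega

end Pool.Agent.H3.FF
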