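import Pool.Agent.H3.FF.Plan

/-!
# MP_4c8b8e_co: positions of the vertices of the triangulation
-/

set_option autoImplicit false
set_option linter.unusedSectionVars false
set_option linter.unusedVariables false

open scoped BigOperators

namespace Pool.Agent.H3.FF

open CV TV

/-- the conditions on the parameters -/
structure Par (K H L : ℕ) : Prop where
  hK : 4 ≤ K
  ev : 2 ∣ K
  l3 : 3 ∣ L
  lh : L ∣ H
  pos : 0 < H

section

variable {K : ℕ} [NeZero K]

/-- the weight of a coarse vertex in the class -/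
def kap : CV K → ZMod 3
  | N => 0
  | S => 0
  | A i => if i.val % 2 = 0 then 1 else -1

omit [NeZero K] in
theorem kap_P (b : Bool) : kap (P b : CV K) = 0 := by cases b <;> rfl

theorem kap_A (hK : 4 ≤ K) (he : 2 ∣ K) (i : ZMod K) :
    (kap (A i : CV K) = 1 ∧ kap (A (i + 1) : CV K) = -1) ∨
      (kap (A i : CV K) = -1 ∧ kap (A (i + 1) : CV K) = 1) := by
  have hA : ∀ j : ZMod K, (j.val % 2 = 0 → kap (A j : CV K) = 1) ∧
      (j.val % 2 = 1 → kap (A j : CV K) = -1) := by
    intro j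
    constructor
    · intro h
      show (if j.val % 2 = 0 then (1 : ZMod 3) else -1) = 1
      rw [if_pos h]
    · intro h
      show (if j.val % 2 = 0 then (1 : ZMod 3) else -1) = -1
      rw [if_neg (by omega)]
  obtain ⟨m, hm⟩ := he
  rcases val_succ hK i with ⟨h1, h2⟩ | ⟨h1, h2⟩
  · rcases Nat.mod_two_eq_zero_or_one i.val with h | h
    · left
      exact ⟨(hA i).1 h, (hA (i + 1)).2 (by omega)⟩
    · right
      exact ⟨(hA i).2 h, (hA (i + 1)).1 (by omega)⟩
  · right
    exact ⟨(hA i).2 (by omega), (hA (i + 1)).1 (by omega)⟩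

theorem kap_ne (hK : 4 ≤ K) (he : 2 ∣ K) {b : Bool} {i : ZMod K} {c d : CV K} (hc : fc b i c)
    (hd : fc b i d) (hcd : c ≠ d) : kap c ≠ kap d := by
  have h0 := kap_P (K := K) b
  have d1 : (0 : ZMod 3) ≠ 1 := by decide
  have d2 : (0 : ZMod 3) ≠ -1 := by decide
  have d3 : (1 : ZMod 3) ≠ -1 := by decide
  rcases kap_A hK he i with ⟨h1, h2⟩ | ⟨h1, h2⟩ <;>
    rcases hc with rfl | rfl | rfl <;> rcases hd with rfl | rfl | rfl <;>
    first
    | exact absurd rfl hcd
    | simp only [h0, h1, h2]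
  all_goals first
    | exact d1
    | exact d2
    | exact d3
    | exact d1.symm
    | exact d2.symm
    | exact d3.symm

/-- a face has three vertices -/
theorem fc_three {b : Bool} {i : ZMod K} {c d k e : CV K} (hc : fc b i c) (hd : fc b i d)
    (hk : fc b i k) (hcd : c ≠ d) (hck : c ≠ k) (hdk : d ≠ k) (he : fc b i e) :
    e = c ∨ e = d ∨ e = k := by
  have hmem : ∀ x : CV K, fc b i x ↔ x ∈ ({P b, A i, A (i + 1)} : Finset (CV K)) := by
    intro x
    simp [fc]
  rw [hmem] at hc hd hk he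
  have hsub : ({c, d, k} : Finset (CV K)) ⊆ {P b, A i, A (i + 1)} := by
    intro x hx
    simp only [Finset.mem_insert, Finset.mem_singleton] at hx
    rcases hx with rfl | rfl | rfl <;> assumption
  have hcard : ({c, d, k} : Finset (CV K)).card = 3 := by
    rw [Finset.card_insert_of_notMem (by simp [hcd, hck]), Finset.card_pair hdk]
  have heq := Finset.eq_of_subset_of_card_le hsub (by rw [hcard]; exact Finset.card_le_three)
  rw [← heq] at he
  simpa using he

/-- the third vertex -/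
theorem fc_third (hK : 4 ≤ K) {b : Bool} {i : ZMod K} {c d : CV K} (hc : fc b i c)
    (hd : fc b i d) (hcd : c ≠ d) : ∃ k, fc b i k ∧ c ≠ k ∧ d ≠ k := by
  have hne : (P b : CV K) ≠ A i := by cases b <;> simp [P]
  have hne' : (P b : CV K) ≠ A (i + 1) := by cases b <;> simp [P]
  have hne2 : (A i : CV K) ≠ A (i + 1) := fun h => succ_ne hK i (by injection h)
  rcases hc with rfl | rfl | rfl <;> rcases hd with rfl | rfl | rfl <;>
    first
    | exact absurd rfl hcd
    | exact ⟨A (i + 1), fc_A' _ _, by assumption, by assumption⟩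
    | exact ⟨A i, fc_A _ _, by assumption, hne2.symm⟩
    | exact ⟨A i, fc_A _ _, hne2.symm, by assumption⟩
    | exact ⟨P b, fc_P _ _, hne.symm, hne'.symm⟩
    | exact ⟨P b, fc_P _ _, hne'.symm, hne.symm⟩

/-- sums over a face -/
theorem sum_fc (hK : 4 ≤ K) {M : Type} [AddCommMonoid M] {b : Bool} {i : ZMod K} {w : CV K → M}
    (h : Sp b i w) {c d k : CV K} (hc : fc b i c) (hd : fc b i d) (hk : fc b i k) (hcd : c ≠ d)
    (hck : c ≠ k) (hdk : d ≠ k) : ∑ e, w e = w c + w d + w k := by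
  rw [← Finset.sum_subset (Finset.subset_univ ({c, d, k} : Finset (CV K)))]
  · rw [Finset.sum_insert (by simp [hcd, hck]), Finset.sum_pair hdk, add_assoc]
  · intro e _ he
    apply h
    intro h1
    apply he
    rcases fc_three hc hd hk hcd hck hdk h1 with rfl | rfl | rfl <;> simp

/-- a face is determined by its vertices -/
theorem fc_inj (hK : 4 ≤ K) {b b' : Bool} {i i' : ZMod K}
    (h : ∀ c : CV K, fc b i c → fc b' i' c) : b = b' ∧ i = i' := by
  have h1 := (fc_apex_iff b' b i').1 (h _ (fc_P b i))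
  have h2 := (fc_A_iff b' i' i).1 (h _ (fc_A b i))
  have h3 := (fc_A_iff b' i' (i + 1)).1 (h _ (fc_A' b i))
  refine ⟨h1, ?_⟩
  rcases h2 with h2 | h2
  · exact h2
  · exfalso
    rcases h3 with h3 | h3
    · rw [h2] at h3
      exact succ_succ_ne hK i' h3.symm
    · have := add_right_cancel h3
      rw [this] at h2
      exact succ_ne hK i' h2

end

section

variable {K H L : ℕ} [NeZero K]

theorem cls_eq (f : TV K H) : cls f = ∑ c, kap c * (f.1 c : ZMod 3) := by
  unfold cls
  rw [← Equiv.sum_comp (equiv (K := K)).symm, Fintype.sum_sum_type]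
  have h1 : ∑ x : Bool, kap ((equiv (K := K)).symm (Sum.inl x)) *
      (f.1 ((equiv (K := K)).symm (Sum.inl x)) : ZMod 3) = 0 := by
    refine Finset.sum_eq_zero fun x _ => ?_
    cases x <;> simp [equiv, kap]
  rw [h1, zero_add]
  refine Finset.sum_congr rfl fun i _ => ?_
  show _ = (if i.val % 2 = 0 then (1 : ZMod 3) else -1) * ((f.1 (A i) : ℕ) : ZMod 3)
  split_ifs
  · exact (one_mul _).symm
  · exact (neg_one_mul _).symm

theorem cls_fc (g : Par K H L) (f : TV K H) {b : Bool} {i : ZMod K} (h : Sp b i f.1)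
    {c d k : CV K} (hc : fc b i c) (hd : fc b i d) (hk : fc b i k) (hcd : c ≠ d) (hck : c ≠ k)
    (hdk : d ≠ k) :
    cls f = kap c * (f.1 c : ZMod 3) + kap d * (f.1 d : ZMod 3) + kap k * (f.1 k : ZMod 3) := by
  rw [cls_eq]
  refine sum_fc g.hK (b := b) (i := i) ?_ hc hd hk hcd hck hdk
  intro e he
  show kap e * ((f.1 e : ℕ) : ZMod 3) = 0
  rw [h e he, Nat.cast_zero, mul_zero]

theorem sum_H (g : Par K H L) (f : TV K H) {b : Bool} {i : ZMod K} (h : Sp b i f.1)
    {c d k : CV K} (hc : fc b i c) (hd : fc b i d) (hk : fc b i k) (hcd : c ≠ d) (hck : c ≠ k)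
    (hdk : d ≠ k) : f.1 c + f.1 d + f.1 k = H := by
  rw [← sum_fc g.hK h hc hd hk hcd hck hdk]
  exact f.2.1

/-- a point of nonzero class is on at most one street -/
theorem uniq_street (g : Par K H L) {f : TV K H} {b : Bool} {i : ZMod K} (h : Sp b i f.1)
    (hf : cls f ≠ 0) {c d : CV K} (hc : fc b i c) (hd : fc b i d) (h1 : L ∣ f.1 c)
    (h2 : L ∣ f.1 d) : c = d := by
  by_contra hcd
  obtain ⟨k, hk, hck, hdk⟩ := fc_third g.hK hc hd hcd
  have hs := sum_H g f h hc hd hk hcd hck hdk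
  have h3 : L ∣ f.1 k := by
    have h4 : L ∣ f.1 c + f.1 d + f.1 k := by rw [hs]; exact g.lh
    exact (Nat.dvd_add_right (dvd_add h1 h2)).1 h4
  apply hf
  rw [cls_fc g f h hc hd hk hcd hck hdk]
  have hz : ∀ e : CV K, L ∣ f.1 e → ((f.1 e : ℕ) : ZMod 3) = 0 := fun e he =>
    (ZMod.natCast_eq_zero_iff _ _).2 (g.l3.trans he)
  rw [hz c h1, hz d h2, hz k h3]
  simp

/-- neighbours have different classes -/
theorem cls_ne (g : Par K H L) {f f' : TV K H} {b : Bool} {i : ZMod K} {k : CV K}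
    (h : AdF b i k f f') : cls f ≠ cls f' := by
  obtain ⟨h1, h2, hk, c, d, hc, hd, hck, hdk, s1, s2, s3⟩ := h
  have hcd : c ≠ d := by
    rintro rfl
    omega
  rw [cls_fc g f h1 hc hd hk hcd hck hdk, cls_fc g f' h2 hc hd hk hcd hck hdk, s1, s2,
    s3 k (Ne.symm hck) (Ne.symm hdk)]
  push_cast
  intro he
  apply kap_ne g.hK g.ev hc hd hcd
  linear_combination he

/-- points close to each other with the same class are equal -/
theorem eq_of_close (g : Par K H L) {f f' : TV K H} {b : Bool} {i : ZMod K} (h : Sp b i f.1)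
    (h' : Sp b i f'.1) (hc : cls f = cls f')
    (hcl : ∀ c, fc b i c → |(f.1 c : ℤ) - f'.1 c| ≤ 1) : f = f' := by
  have hne : (P b : CV K) ≠ A i := by cases b <;> simp [P]
  have hne' : (P b : CV K) ≠ A (i + 1) := by cases b <;> simp [P]
  have hne2 : (A i : CV K) ≠ A (i + 1) := fun h => succ_ne g.hK i (by injection h)
  have s1 := sum_H g f h (fc_P b i) (fc_A b i) (fc_A' b i) hne hne' hne2
  have s2 := sum_H g f' h' (fc_P b i) (fc_A b i) (fc_A' b i) hne hne' hne2
  have a1 := hcl _ (fc_P b i)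
  have a2 := hcl _ (fc_A b i)
  have a3 := hcl _ (fc_A' b i)
  rw [cls_fc g f h (fc_P b i) (fc_A b i) (fc_A' b i) hne hne' hne2,
    cls_fc g f' h' (fc_P b i) (fc_A b i) (fc_A' b i) hne hne' hne2, kap_P, zero_mul, zero_mul,
    zero_add, zero_add] at hc
  have hmod : (((f.1 (A i) : ℤ) - f'.1 (A i) - (f.1 (A (i + 1)) - f'.1 (A (i + 1))) : ℤ) :
      ZMod 3) = 0 := by
    push_cast
    rcases kap_A g.hK g.ev i with ⟨h1, h2⟩ | ⟨h1, h2⟩
    · rw [h1, h2] at hc
      linear_combination hc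
    · rw [h1, h2] at hc
      linear_combination -hc
  rw [ZMod.intCast_zmod_eq_zero_iff_dvd] at hmod
  rw [abs_le] at a1 a2 a3
  have e1 : (f.1 (A i) : ℤ) - f'.1 (A i) = f.1 (A (i + 1)) - f'.1 (A (i + 1)) := by
    obtain ⟨m, hm⟩ := hmod
    push_cast at hm
    omega
  have e2 : f.1 (A i) = f'.1 (A i) := by omega
  have e3 : f.1 (A (i + 1)) = f'.1 (A (i + 1)) := by omega
  have e4 : f.1 (P b) = f'.1 (P b) := by omega
  apply Subtype.ext
  funext c
  by_cases hc : fc b i c
  · rcases hc with rfl | rfl | rfl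
    · exact e4
    · exact e2
    · exact e3
  · rw [h c hc, h' c hc]

theorem TV.AdF.symm' {f f' : TV K H} {b : Bool} {i : ZMod K} {k : CV K}
    (h : AdF b i k f f') : AdF b i k f' f := by
  obtain ⟨h1, h2, hk, c, d, hc, hd, hck, hdk, s1, s2, s3⟩ := h
  exact ⟨h2, h1, hk, d, c, hd, hc, hdk, hck, s2, s1, fun e h h' => (s3 e h' h).symm⟩

end

end Pool.Agent.H3.FF
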