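import Pool.Agent.H3.FF.Typ

/-!
# MP_4c8b8e_co: counting vertices and atypical starts
-/

set_option autoImplicit false
set_option linter.unusedSectionVars false
set_option linter.unusedVariables false

open scoped BigOperators

namespace Pool.Agent.H3.FF

open CV TV Tz Pool.Agent.H58.FF Pool.Agent.H41.Fire Classical

section

variable {K H L : ℕ} [NeZero K]

/-- a point of a face is determined by two coordinates -/
theorem tv_det (g : Par K H L) {f f' : TV K H} {b : Bool} {i : ZMod K} (h : Sp b i f.1)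
    (h' : Sp b i f'.1) {c d : CV K} (hc : fc b i c) (hd : fc b i d) (hcd : c ≠ d)
    (h1 : f.1 c = f'.1 c) (h2 : f.1 d = f'.1 d) : f = f' := by
  obtain ⟨k, hk, hck, hdk⟩ := fc_third g.hK hc hd hcd
  have s1 := sum_H g f h hc hd hk hcd hck hdk
  have s2 := sum_H g f' h' hc hd hk hcd hck hdk
  apply Subtype.ext
  funext e
  by_cases he : fc b i e
  · rcases fc_three hc hd hk hcd hck hdk he with rfl | rfl | rfl
    · exact h1
    · exact h2
    · omega
  · rw [h e he, h' e he]

/-- the point of a face with given coordinates at the rim -/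
def tri (g : Par K H L) (b : Bool) (i : ZMod K) (p q : ℕ) (h : p + q ≤ H) : TV K H :=
  ⟨fun e => if e = A i then p else if e = A (i + 1) then q else if e = P b then H - p - q else 0,
    by
      have hne : (P b : CV K) ≠ A i := by cases b <;> simp [P]
      have hne' : (P b : CV K) ≠ A (i + 1) := by cases b <;> simp [P]
      have hne2 : (A i : CV K) ≠ A (i + 1) := fun h => succ_ne g.hK i (by injection h)
      rw [sum_fc g.hK (b := b) (i := i) (fun e he => by
        have h1 : e ≠ A i := fun h => he (h ▸ fc_A _ _)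
        have h2 : e ≠ A (i + 1) := fun h => he (h ▸ fc_A' _ _)
        have h3 : e ≠ P b := fun h => he (h ▸ fc_P _ _)
        show (if e = A i then p else _) = 0
        rw [if_neg h1, if_neg h2, if_neg h3]) (fc_A b i) (fc_A' b i) (fc_P b i) hne2 hne.symm
        hne'.symm]
      rw [if_pos rfl, if_neg hne2.symm, if_pos rfl, if_neg hne, if_neg hne', if_pos rfl]
      omega,
    b, i, fun e he => by
      have h1 : e ≠ A i := fun h => he (h ▸ fc_A _ _)
      have h2 : e ≠ A (i + 1) := fun h => he (h ▸ fc_A' _ _)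
      have h3 : e ≠ P b := fun h => he (h ▸ fc_P _ _)
      show (if e = A i then p else _) = 0
      rw [if_neg h1, if_neg h2, if_neg h3]⟩

theorem tri_A (g : Par K H L) (b : Bool) (i : ZMod K) (p q : ℕ) (h : p + q ≤ H) :
    (tri g b i p q h).1 (A i) = p := if_pos rfl

theorem tri_A' (g : Par K H L) (b : Bool) (i : ZMod K) (p q : ℕ) (h : p + q ≤ H) :
    (tri g b i p q h).1 (A (i + 1)) = q := by
  have hne2 : (A i : CV K) ≠ A (i + 1) := fun h => succ_ne g.hK i (by injection h)
  show (if (A (i + 1) : CV K) = A i then p else _) = q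
  rw [if_neg hne2.symm, if_pos rfl]

theorem tri_P (g : Par K H L) (b : Bool) (i : ZMod K) (p q : ℕ) (h : p + q ≤ H) :
    (tri g b i p q h).1 (P b) = H - p - q := by
  have hne : (P b : CV K) ≠ A i := by cases b <;> simp [P]
  have hne' : (P b : CV K) ≠ A (i + 1) := by cases b <;> simp [P]
  show (if (P b : CV K) = A i then p else _) = _
  rw [if_neg hne, if_neg hne', if_pos rfl]

theorem tri_P' (g : Par K H L) (b : Bool) (i : ZMod K) (p q : ℕ) (h : p + q ≤ H) :
    (tri g b i p q h).1 (P !b) = 0 := by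
  have hne : (P (!b) : CV K) ≠ A i := by cases b <;> simp [P]
  have hne' : (P (!b) : CV K) ≠ A (i + 1) := by cases b <;> simp [P]
  have hne2 : (P (!b) : CV K) ≠ P b := by cases b <;> simp [P]
  show (if (P (!b) : CV K) = A i then p else _) = _
  rw [if_neg hne, if_neg hne', if_neg hne2]

theorem tri_sp (g : Par K H L) (b : Bool) (i : ZMod K) (p q : ℕ) (h : p + q ≤ H) :
    Sp b i (tri g b i p q h).1 := by
  intro e he
  have h1 : e ≠ A i := fun h => he (h ▸ fc_A _ _)
  have h2 : e ≠ A (i + 1) := fun h => he (h ▸ fc_A' _ _)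
  have h3 : e ≠ P b := fun h => he (h ▸ fc_P _ _)
  show (if e = A i then p else _) = 0
  rw [if_neg h1, if_neg h2, if_neg h3]

theorem tri_inj (g : Par K H L) {b b' : Bool} {i i' : ZMod K} {p q p' q' : ℕ} {h : p + q ≤ H}
    {h' : p' + q' ≤ H} (hp : p ≠ 0) (hp' : p' ≠ 0)
    (he : tri g b i p q h = tri g b' i' p' q' h') : i = i' ∧ p = p' ∧ q = q' ∧
      (b ≠ b' → p + q = H) := by
  have h1 : fc b' i' (A i : CV K) := by
    refine supp_fc (tri_sp g b' i' p' q' h') ?_
    rw [← he, tri_A]
    exact hp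
  have h2 : fc b i (A i' : CV K) := by
    refine supp_fc (tri_sp g b i p q h) ?_
    rw [he, tri_A]
    exact hp'
  have h1' := (fc_A_iff b' i' i).1 h1
  have h2' := (fc_A_iff b i i').1 h2
  have hi : i = i' := by
    rcases h1' with h1' | h1'
    · exact h1'
    · rcases h2' with h2' | h2'
      · exact h2'.symm
      · exfalso
        rw [h1'] at h2'
        exact succ_succ_ne g.hK i' h2'
  subst hi
  refine ⟨rfl, ?_, ?_, fun hb => ?_⟩
  · rw [← tri_A g b i p q h, he, tri_A]
  · rw [← tri_A' g b i p q h, he, tri_A']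
  · have hb' : b' = !b := by
      cases b <;> cases b' <;> simp at hb ⊢
    have h3 := tri_P g b i p q h
    have h4 := tri_P' g b' i p' q' h'
    rw [hb', Bool.not_not] at h4
    subst hb'
    rw [he, h4] at h3
    omega

/-- the number of points of the lattice -/
theorem card_TV (g : Par K H L) : K * H ^ 2 ≤ Nat.card (TV K H) := by
  have h0 : ∀ x y : Fin H, ¬ x.1 + 1 + y.1 ≤ H → (H - y.1) + (H - x.1 - 1) ≤ H := by
    intro x y h
    omega
  let F : ZMod K × Fin H × Fin H → TV K H := fun z =>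
    if h : z.2.1.1 + 1 + z.2.2.1 ≤ H then tri g true z.1 (z.2.1.1 + 1) z.2.2.1 h
    else tri g false z.1 (H - z.2.2.1) (H - z.2.1.1 - 1) (h0 _ _ h)
  have hF : Function.Injective F := by
    rintro ⟨i, x, y⟩ ⟨i', x', y'⟩ he
    simp only [F] at he
    have hx := x.2
    have hy := y.2
    have hx' := x'.2
    have hy' := y'.2
    split_ifs at he with c1 c2 c2
    · obtain ⟨h1, h2, h3, -⟩ := tri_inj g (by omega) (by omega) he
      have : x = x' := Fin.ext (by omega)
      have : y = y' := Fin.ext (by omega)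
      simp [*]
    · obtain ⟨h1, h2, h3, h4⟩ := tri_inj g (by omega) (by omega) he
      have := h4 (by decide)
      omega
    · obtain ⟨h1, h2, h3, h4⟩ := tri_inj g (by omega) (by omega) he
      have := h4 (by decide)
      omega
    · obtain ⟨h1, h2, h3, -⟩ := tri_inj g (by omega) (by omega) he
      have : x = x' := Fin.ext (by omega)
      have : y = y' := Fin.ext (by omega)
      simp [*]
  have h1 := Nat.card_le_card_of_injective F hF
  rw [Nat.card_prod, Nat.card_prod, Nat.card_eq_fintype_card, Nat.card_eq_fintype_card,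
    ZMod.card, Fintype.card_fin] at h1
  calc K * H ^ 2 = K * (H * H) := by ring
    _ ≤ _ := h1

/-- the vertices of a face -/
def vx (z : Bool × ZMod K × Fin 3) (j : Fin 3) : CV K := ![P z.1, A z.2.1, A (z.2.1 + 1)] j

theorem vx_fc (z : Bool × ZMod K × Fin 3) (j : Fin 3) : fc z.1 z.2.1 (vx z j) := by
  fin_cases j
  · exact fc_P _ _
  · exact fc_A _ _
  · exact fc_A' _ _

theorem vx_ex {b : Bool} {i : ZMod K} {e : CV K} (h : fc b i e) (j0 : Fin 3) :
    ∃ j, vx (b, i, j0) j = e := by
  rcases h with rfl | rfl | rfl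
  · exact ⟨0, rfl⟩
  · exact ⟨1, rfl⟩
  · exact ⟨2, rfl⟩

theorem vx_ne (g : Par K H L) (z : Bool × ZMod K × Fin 3) {j j' : Fin 3} (h : j ≠ j') :
    vx z j ≠ vx z j' := by
  have h1 : (P z.1 : CV K) ≠ A z.2.1 := by cases z.1 <;> simp [P]
  have h2 : (P z.1 : CV K) ≠ A (z.2.1 + 1) := by cases z.1 <;> simp [P]
  have h3 : (A z.2.1 : CV K) ≠ A (z.2.1 + 1) := fun h => succ_ne g.hK _ (by injection h)
  fin_cases j <;> fin_cases j' <;>
    first
    | exact absurd rfl h
    | exact h1
    | exact h2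
    | exact h3
    | exact h1.symm
    | exact h2.symm
    | exact h3.symm

/-- counting points by two coordinates -/
theorem card_code (g : Par K H L) (S T : Finset ℕ) :
    {f : TV K H | ∃ z : Bool × ZMod K × Fin 3, Sp z.1 z.2.1 f.1 ∧ f.1 (vx z z.2.2) ∈ S ∧
      f.1 (vx z (z.2.2 + 1)) ∈ T}.ncard ≤ 6 * K * (S.card * T.card) := by
  have hz : ∀ f : TV K H, ∃ z : Bool × ZMod K × Fin 3, (∃ z : Bool × ZMod K × Fin 3,
      Sp z.1 z.2.1 f.1 ∧ f.1 (vx z z.2.2) ∈ S ∧ f.1 (vx z (z.2.2 + 1)) ∈ T) →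
      Sp z.1 z.2.1 f.1 ∧ f.1 (vx z z.2.2) ∈ S ∧ f.1 (vx z (z.2.2 + 1)) ∈ T := by
    intro f
    by_cases h : ∃ z : Bool × ZMod K × Fin 3,
      Sp z.1 z.2.1 f.1 ∧ f.1 (vx z z.2.2) ∈ S ∧ f.1 (vx z (z.2.2 + 1)) ∈ T
    · obtain ⟨z, hz⟩ := h
      exact ⟨z, fun _ => hz⟩
    · exact ⟨(true, 0, 0), fun h' => absurd h' h⟩
  choose z hz using hz
  have hcard : ((Finset.univ : Finset (Bool × ZMod K × Fin 3)) ×ˢ S ×ˢ T).card =
      6 * K * (S.card * T.card) := by
    rw [Finset.card_product, Finset.card_product, Finset.card_univ, Fintype.card_prod,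
      Fintype.card_prod, ZMod.card, Fintype.card_bool, Fintype.card_fin]
    ring
  rw [← hcard, ← Set.ncard_coe_finset]
  refine Set.ncard_le_ncard_of_injOn
    (fun f => (z f, f.1 (vx (z f) (z f).2.2), f.1 (vx (z f) ((z f).2.2 + 1)))) ?_ ?_
    (Set.toFinite _)
  · intro f hf
    obtain ⟨h1, h2, h3⟩ := hz f hf
    simp only [Finset.coe_product, Set.mem_prod, Finset.mem_coe]
    exact ⟨Finset.mem_univ _, h2, h3⟩
  · intro f hf f' hf' he
    simp only [Prod.mk.injEq] at he
    obtain ⟨h1, h2, h3⟩ := he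
    have a1 := (hz f hf).1
    have a2 := (hz f' hf').1
    rw [← h1] at h2 h3 a2
    exact tv_det g a1 a2 (vx_fc _ _) (vx_fc _ _) (vx_ne g _ (by
      have : ∀ j : Fin 3, j ≠ j + 1 := by decide
      exact this _)) h2 h3

/-- the number of residues close to the streets -/
theorem card_res (hL : 0 < L) (D0 : ℕ) :
    ((Finset.range (H + 1)).filter fun n => ¬ (D0 < n % L ∧ n % L + D0 < L)).card ≤
      (H / L + 1) * (2 * D0 + 1) := by
  have h1 : (Finset.range (H / L + 1) ×ˢ (Finset.range (D0 + 1) ∪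
      (Finset.Ico (L - D0) L))).card ≤ (H / L + 1) * (2 * D0 + 1) := by
    rw [Finset.card_product, Finset.card_range]
    refine Nat.mul_le_mul_left _ ((Finset.card_union_le _ _).trans ?_)
    rw [Finset.card_range, Nat.card_Ico]
    omega
  refine le_trans ?_ h1
  refine Finset.card_le_card_of_injOn (fun n => (n / L, n % L)) ?_ ?_
  · intro n hn
    simp only [Finset.coe_filter, Finset.mem_range, Set.mem_ofPred_eq] at hn
    simp only [Finset.coe_product, Finset.coe_union, Set.mem_prod, Finset.coe_range, Set.mem_Iio,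
      Set.mem_union, Finset.coe_Ico, Set.mem_Ico]
    have h2 : n / L ≤ H / L := Nat.div_le_div_right (by omega)
    have h3 : n % L < L := Nat.mod_lt _ hL
    refine ⟨by omega, ?_⟩
    by_cases h4 : D0 < n % L
    · right
      have h5 : ¬ (n % L + D0 < L) := fun h => hn.2 ⟨h4, h⟩
      omega
    · left
      omega
  · intro n _ m _ he
    simp only [Prod.mk.injEq] at he
    rw [← Nat.div_add_mod n L, ← Nat.div_add_mod m L, he.1, he.2]

/-- the number of points which are not typical -/
theorem card_bad (g : Par K H L) (D0 R : ℕ) :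
    {f : TV K H | ¬ Typ L D0 R f}.ncard ≤
      24 * K * R ^ 2 + 6 * K * ((H / L + 1) * (2 * D0 + 1) * (H + 1)) := by
  have hL : 0 < L := Nat.pos_of_dvd_of_pos g.lh g.pos
  have hsub : {f : TV K H | ¬ Typ L D0 R f} ⊆
      {f : TV K H | ∃ z : Bool × ZMod K × Fin 3, Sp z.1 z.2.1 f.1 ∧
        f.1 (vx z z.2.2) ∈ Finset.range (2 * R) ∧
        f.1 (vx z (z.2.2 + 1)) ∈ Finset.range (2 * R)} ∪
      {f : TV K H | ∃ z : Bool × ZMod K × Fin 3, Sp z.1 z.2.1 f.1 ∧
        f.1 (vx z z.2.2) ∈ (Finset.range (H + 1)).filter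
          (fun n => ¬ (D0 < n % L ∧ n % L + D0 < L)) ∧
        f.1 (vx z (z.2.2 + 1)) ∈ Finset.range (H + 1)} := by
    intro f hf
    have hle : ∀ e, f.1 e < H + 1 := by
      intro e
      have h1 : f.1 e ≤ ∑ c, f.1 c := Finset.single_le_sum (fun _ _ => Nat.zero_le _)
        (Finset.mem_univ e)
      have h2 := f.2.1
      omega
    by_cases h : ∀ u, f.1 u + 2 * R ≤ H
    · right
      have h2 : ¬ ∀ b i, Sp b i f.1 → ∀ e, fc b i e → D0 < f.1 e % L ∧ f.1 e % L + D0 < L :=
        fun h2 => hf ⟨h, h2⟩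
      push Not at h2
      obtain ⟨b, i, hs, e, he, h3⟩ := h2
      obtain ⟨j, hj⟩ := vx_ex he 0
      refine ⟨(b, i, j), hs, ?_, Finset.mem_range.2 (hle _)⟩
      rw [Finset.mem_filter, Finset.mem_range]
      refine ⟨hle _, ?_⟩
      have h4 : vx (b, i, j) j = e := hj
      show ¬ (D0 < f.1 (vx (b, i, j) j) % L ∧ f.1 (vx (b, i, j) j) % L + D0 < L)
      rw [h4]
      rintro ⟨h5, h6⟩
      exact absurd (h3 h5) (by omega)
    · left
      push Not at h
      obtain ⟨u, hu⟩ := h
      obtain ⟨b, i, hs⟩ := f.2.2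
      obtain ⟨j, hj⟩ : ∃ j : Fin 3, ∀ j', j' ≠ j → f.1 (vx (b, i, j) j') < 2 * R := by
        by_cases hub : fc b i u
        · obtain ⟨j, hj⟩ := vx_ex hub 0
          refine ⟨j, fun j' hj' => ?_⟩
          have h5 : f.1 (vx (b, i, j) j') + f.1 u ≤ H := by
            have hne : vx (b, i, j) j' ≠ u := by
              rw [← hj]
              exact vx_ne g (b, i, j) hj'
            obtain ⟨k, hk, h6, h7⟩ := fc_third g.hK (vx_fc (b, i, j) j') hub hne
            have := sum_H g f hs (vx_fc (b, i, j) j') hub hk hne h6 h7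
            omega
          omega
        · refine ⟨0, fun j' _ => ?_⟩
          have h5 := hs u hub
          have h6 := hle (vx (b, i, 0) j')
          omega
      have e1 : ∀ j : Fin 3, j + 1 ≠ j := by decide
      have e2 : ∀ j : Fin 3, j + 1 + 1 ≠ j := by decide
      exact ⟨(b, i, j + 1), hs, Finset.mem_range.2 (hj _ (e1 j)), Finset.mem_range.2 (hj _ (e2 j))⟩
  refine (Set.ncard_le_ncard hsub (Set.toFinite _)).trans ((Set.ncard_union_le _ _).trans ?_)
  refine add_le_add ((card_code g _ _).trans ?_) ((card_code g _ _).trans ?_)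
  · rw [Finset.card_range]
    nlinarith
  · rw [Finset.card_range]
    exact Nat.mul_le_mul_left _ (Nat.mul_le_mul_right _ (card_res hL D0))

end

end Pool.Agent.H3.FF
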