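import Pool.Agent.H41.Fire.Defs

/-!
# MP_4c8b8e_co: a planar graph of girth five on the bipyramid (definitions)

The coarse complex is the bipyramid over a `K`-gon with apices `N`, `S` and rim vertices `A i`.
Points of the `H`-fold edgewise subdivision are functions on the coarse vertices with sum `H` and
support in a coarse face.
-/

set_option autoImplicit false

open scoped BigOperators

namespace Pool.Agent.H3.FF

/-- coarse vertices -/
inductive CV (K : ℕ) : Type
  | N : CV K
  | S : CV K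
  | A : ZMod K → CV K
  deriving DecidableEq

namespace CV

variable {K : ℕ}

/-- the coarse vertices as a sum type -/
def equiv : CV K ≃ Bool ⊕ ZMod K where
  toFun
    | N => Sum.inl true
    | S => Sum.inl false
    | A i => Sum.inr i
  invFun
    | Sum.inl true => N
    | Sum.inl false => S
    | Sum.inr i => A i
  left_inv := by rintro (_ | _ | _) <;> rfl
  right_inv := by rintro ((_ | _) | _) <;> rfl

instance [NeZero K] : Fintype (CV K) := Fintype.ofEquiv _ equiv.symm

/-- the apex of a side -/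
def P (b : Bool) : CV K := if b then N else S

/-- the coarse face `(b, i)` with the vertices `P b`, `A i`, `A (i + 1)` -/
def fc (b : Bool) (i : ZMod K) (c : CV K) : Prop := c = P b ∨ c = A i ∨ c = A (i + 1)

end CV

open CV

section

variable (K H L : ℕ) [NeZero K]

/-- `w` is supported in the coarse face `(b, i)` -/
def Sp {R : Type} [Zero R] {K : ℕ} (b : Bool) (i : ZMod K) (w : CV K → R) : Prop :=
  ∀ c, ¬ fc b i c → w c = 0

/-- the points of the lattice -/
abbrev TV : Type := {f : CV K → ℕ // ∑ c, f c = H ∧ ∃ b i, Sp b i f}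

variable {K H}

namespace TV

/-- `g = f - e_c + e_d` -/
def Stp (f g : TV K H) (c d : CV K) : Prop :=
  f.1 c = g.1 c + 1 ∧ g.1 d = f.1 d + 1 ∧ ∀ e, e ≠ c → e ≠ d → f.1 e = g.1 e

/-- adjacent in the coarse face `(b, i)`; the coordinate `k` is constant -/
def AdF (b : Bool) (i : ZMod K) (k : CV K) (f g : TV K H) : Prop :=
  Sp b i f.1 ∧ Sp b i g.1 ∧ fc b i k ∧ ∃ c d, fc b i c ∧ fc b i d ∧ c ≠ k ∧ d ≠ k ∧ Stp f g c d

/-- adjacent in the lattice -/
def Ad (f g : TV K H) : Prop := ∃ b i k, AdF b i k f g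

/-- the class modulo three -/
noncomputable def cls (f : TV K H) : ZMod 3 :=
  ∑ i : ZMod K, if i.val % 2 = 0 then (f.1 (A i) : ZMod 3) else -(f.1 (A i) : ZMod 3)

/-- on a street -/
def OnS (f : TV K H) : Prop := ∃ b i k, Sp b i f.1 ∧ fc b i k ∧ L ∣ f.1 k

/-- edges of length one: edges of the honeycomb and of the streets -/
def Un (f g : TV K H) : Prop :=
  (Ad f g ∧ cls f ≠ 2 ∧ cls g ≠ 2) ∨ ∃ b i k, AdF b i k f g ∧ L ∣ f.1 k

end TV

open TV

/-- half hexagons at the streets: the centre `f` of the hexagon, the coarse face, the constant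
coordinate `k` of the street and the side -/
abbrev Tz (K H L : ℕ) [NeZero K] : Type :=
  {τ : TV K H × (Bool × ZMod K) × CV K × Bool //
    Sp τ.2.1.1 τ.2.1.2 τ.1.1 ∧ fc τ.2.1.1 τ.2.1.2 τ.2.2.1 ∧ L ∣ τ.1.1 τ.2.2.1 ∧
    cls τ.1 = 2 ∧ (τ.2.2.2 = false → 1 ≤ τ.1.1 τ.2.2.1)}

namespace Tz

variable {L} (τ : Tz K H L)

/-- the centre of the hexagon -/
def f : TV K H := τ.1.1

/-- the side of the coarse face -/
def b : Bool := τ.1.2.1.1

/-- the index of the coarse face -/
def i : ZMod K := τ.1.2.1.2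

/-- the constant coordinate of the street -/
def k : CV K := τ.1.2.2.1

/-- the side: `true` if the coordinate `k` is larger than on the street -/
def s : Bool := τ.1.2.2.2

end Tz

/-- vertices of the triangulation -/
abbrev DV (K H L : ℕ) [NeZero K] : Type := TV K H ⊕ Tz K H L

variable {L}

/-- `g` is on the boundary of the face with the centre `x` -/
def Rim : DV K H L → TV K H → Prop
  | Sum.inl f, g => cls f = 2 ∧ ¬ OnS L f ∧ Ad f g
  | Sum.inr τ, g => Sp τ.b τ.i g.1 ∧ (g = τ.f ∨ ∃ k, AdF τ.b τ.i k τ.f g) ∧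
      (g.1 τ.k = τ.f.1 τ.k ∨ (τ.s = true ∧ g.1 τ.k = τ.f.1 τ.k + 1) ∨
        (τ.s = false ∧ τ.f.1 τ.k = g.1 τ.k + 1))

/-- spokes -/
abbrev Spk (K H L : ℕ) [NeZero K] : Type := {x : DV K H L × TV K H // Rim x.1 x.2}

/-- the vertices of the graph -/
abbrev GV (K H L : ℕ) [NeZero K] : Type := DV K H L ⊕ Spk K H L

/-- adjacency -/
def GAd : GV K H L → GV K H L → Prop
  | Sum.inl (Sum.inl f), Sum.inl (Sum.inl g) => Un L f g
  | Sum.inl x, Sum.inr e => x = e.1.1 ∨ x = Sum.inl e.1.2
  | Sum.inr e, Sum.inl x => x = e.1.1 ∨ x = Sum.inl e.1.2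
  | _, _ => False

end

end Pool.Agent.H3.FF
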