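import Pool.Agent.H3.FF.Edg

/-!
# MP_4c8b8e_co: the graph is planar
-/

set_option autoImplicit false
set_option linter.unusedSectionVars false
set_option linter.unusedVariables false

open scoped BigOperators

namespace Pool.Agent.H3.FF

open CV TV Tz

section

variable {K H L : ℕ} [NeZero K]

theorem ad_irrefl (f : TV K H) : ¬ Ad f f := by
  intro h
  obtain ⟨c, d, h1, -, -⟩ := h.stp
  omega

theorem un_irrefl (f : TV K H) : ¬ Un L f f := fun h => ad_irrefl f (TE.ad (Or.inl h))

variable (K H L) in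
/-- the graph -/
def G : SimpleGraph (GV K H L) where
  Adj := GAd
  symm := ⟨by
    rintro ((f | τ) | e) ((f' | τ') | e') h
    · exact TV.Un.symm h
    · exact h
    · exact h
    · exact h
    · exact h
    · exact h
    · exact h
    · exact h
    · exact h⟩
  loopless := ⟨by
    rintro ((f | τ) | e) h
    · exact un_irrefl f h
    · exact h
    · exact h⟩

/-- segments of the triangulation -/
def SegOk (x : DV K H L) (h : TV K H) : Prop := (∃ f, x = Sum.inl f ∧ Un L f h) ∨ Rim x h

/-- a point of a segment -/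
noncomputable def dp (x : DV K H L) (h : TV K H) (t : ℝ) (c : CV K) : ℝ :=
  (1 - t) * wt x c + t * h.1 c

theorem SegOk.te {f h : TV K H} (hs : SegOk (Sum.inl f : DV K H L) h) : TE L f h := by
  rcases hs with ⟨f', hf, h1⟩ | h1
  · cases hf
    exact Or.inl h1
  · exact Or.inr (Or.inl h1)

theorem SegOk.rim {τ : Tz K H L} {h : TV K H} (hs : SegOk (Sum.inr τ : DV K H L) h) :
    Rim (Sum.inr τ : DV K H L) h := by
  rcases hs with ⟨f', hf, h1⟩ | h1
  · cases hf
  · exact h1

/-- segments which meet are equal -/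
theorem seg_seg (g : Par K H L) {x x' : DV K H L} {h h' : TV K H} (h1 : SegOk x h)
    (h2 : SegOk x' h') {t t' : ℝ} (ht : 0 < t) (ht1 : t < 1) (ht' : 0 < t') (ht1' : t' < 1)
    (he : ∀ c, dp x h t c = dp x' h' t' c) :
    (x = x' ∧ h = h' ∧ t = t') ∨ (x = Sum.inl h' ∧ x' = Sum.inl h ∧ t = 1 - t') := by
  rcases x with f | τ <;> rcases x' with f' | τ'
  · rcases te_te h1.te.ad h2.te.ad ht ht1 ht' ht1' he with ⟨a1, a2, a3⟩ | ⟨a1, a2, a3⟩
    · left
      exact ⟨by rw [a1], a2, a3⟩
    · right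
      exact ⟨by rw [a1], by rw [a2], a3⟩
  · exfalso
    exact reg_edge g (reg_spoke g h2.rim ht' ht1') h1.te ht ht1 (fun c => (he c).symm)
  · exfalso
    exact reg_edge g (reg_spoke g h1.rim ht ht1) h2.te ht' ht1' (fun c => he c)
  · have e1 : Reg τ (dp (Sum.inr τ : DV K H L) h t) := reg_spoke g h1.rim ht ht1
    have e2 : Reg τ' (dp (Sum.inr τ' : DV K H L) h' t') := reg_spoke g h2.rim ht' ht1'
    have e3 : dp (Sum.inr τ : DV K H L) h t = dp (Sum.inr τ' : DV K H L) h' t' := funext he
    rw [e3] at e1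
    have e4 := reg_uniq g e1 e2
    subst e4
    obtain ⟨a1, a2⟩ := spoke_spoke h1.rim h2.rim ht ht' he
    left
    exact ⟨rfl, a1, a2⟩

/-- vertices are not on segments -/
theorem seg_vert (g : Par K H L) {x y : DV K H L} {h : TV K H} (h1 : SegOk x h) {t : ℝ}
    (ht : 0 < t) (ht1 : t < 1) (he : ∀ c, wt y c = dp x h t c) : False := by
  rcases y with f0 | τ0 <;> rcases x with f | τ
  · exact te_vert h1.te.ad ht ht1 he
  · exact reg_not_int (reg_spoke g h1.rim ht ht1) _ (he τ.k).symm
  · exact reg_edge g (reg_wt g τ0) h1.te ht ht1 he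
  · have e1 : Reg τ (dp (Sum.inr τ : DV K H L) h t) := reg_spoke g h1.rim ht ht1
    have e3 : wt (Sum.inr τ0 : DV K H L) = dp (Sum.inr τ : DV K H L) h t := funext he
    rw [← e3] at e1
    have e4 := reg_uniq g e1 (reg_wt g τ0)
    subst e4
    have e5 := he τ.k
    unfold dp at e5
    rw [wt_k] at e5
    obtain ⟨-, -, r⟩ := rim_cl h1.rim
    have hsg : τ.sg ≠ 0 := by rcases τ.sg_sq with h | h <;> rw [h] <;> norm_num
    rcases r with r | r <;> rw [r] at e5
    · have : τ.sg * t = 0 := by linear_combination 2 * e5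
      rcases mul_eq_zero.1 this with h | h
      · exact hsg h
      · linarith
    · have : τ.sg * t = 0 := by linear_combination -2 * e5
      rcases mul_eq_zero.1 this with h | h
      · exact hsg h
      · linarith

theorem wt_inj (g : Par K H L) {y y' : DV K H L} (he : ∀ c, wt y c = wt y' c) : y = y' := by
  rcases y with f | τ <;> rcases y' with f' | τ'
  · congr 1
    apply Subtype.ext
    funext c
    have := he c
    rw [wt_inl, wt_inl] at this
    exact_mod_cast this
  · exact absurd (he τ'.k).symm (reg_not_int (reg_wt g τ') _)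
  · exact absurd (he τ.k) (reg_not_int (reg_wt g τ) _)
  · have e1 := reg_wt g τ
    have e3 : wt (Sum.inr τ : DV K H L) = wt (Sum.inr τ') := funext he
    rw [e3] at e1
    rw [reg_uniq g e1 (reg_wt g τ')]

theorem un_rim {f h : TV K H} (h1 : Un L f h) (h2 : Rim (Sum.inl f : DV K H L) h) : False := by
  rcases h1 with ⟨-, h3, -⟩ | ⟨b, i, k, h3, h4⟩
  · exact h3 h2.1
  · exact h2.2.1 ⟨b, i, k, h3.1, h3.2.2.1, h4⟩

theorem rim_rim (g : Par K H L) {f h : TV K H} (h1 : Rim (Sum.inl f : DV K H L) h)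
    (h2 : Rim (Sum.inl h : DV K H L) f) : False := by
  obtain ⟨b, i, k, h3⟩ := h1.2.2
  exact cls_ne g h3 (by rw [h1.1, h2.1])

/-- weights of the vertices of the graph -/
noncomputable def gw : GV K H L → CV K → ℝ
  | Sum.inl x => wt x
  | Sum.inr e => dp e.1.1 e.1.2 (1 / 2)

theorem wt_nonneg (g : Par K H L) (x : DV K H L) (c : CV K) : 0 ≤ wt x c := by
  rcases x with f | τ
  · exact Nat.cast_nonneg _
  · by_cases hc : fc τ.b τ.i c
    · exact (wt_pos g τ hc).1.le
    · rw [wt_out τ hc]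

theorem dp_nonneg (g : Par K H L) (x : DV K H L) (h : TV K H) {t : ℝ} (ht : 0 ≤ t) (ht1 : t ≤ 1)
    (c : CV K) : 0 ≤ dp x h t c := by
  unfold dp
  have h1 := wt_nonneg g x c
  have h2 : (0 : ℝ) ≤ h.1 c := Nat.cast_nonneg _
  have h3 : 0 ≤ 1 - t := by linarith
  positivity

theorem gw_nonneg (g : Par K H L) (u : GV K H L) (c : CV K) : 0 ≤ gw u c := by
  rcases u with x | e
  · exact wt_nonneg g x c
  · exact dp_nonneg g _ _ (by norm_num) (by norm_num) c

theorem wt_sum (g : Par K H L) (x : DV K H L) : ∑ c, wt x c = H := by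
  rcases x with f | τ
  · show ∑ c, (f.1 c : ℝ) = H
    rw [← Nat.cast_sum, f.2.1]
  · have hsp : Sp τ.b τ.i (wt (Sum.inr τ : DV K H L)) := fun c hc => wt_out τ hc
    obtain ⟨c, hc, hkc⟩ : ∃ c, fc τ.b τ.i c ∧ τ.k ≠ c := by
      by_contra hcon
      push Not at hcon
      have h1 := hcon _ (fc_A τ.b τ.i)
      have h2 := hcon _ (fc_A' τ.b τ.i)
      rw [h1] at h2
      exact succ_ne g.hK τ.i (by injection h2)
    obtain ⟨d, hd, hkd, hcd⟩ := fc_third g.hK τ.hk hc hkc
    rw [sum_fc g.hK hsp τ.hk hc hd hkc hkd hcd, wt_k, wt_c τ hc hkc.symm, wt_c τ hd hkd.symm]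
    have := sum_H g τ.f τ.sp τ.hk hc hd hkc hkd hcd
    have hr : (τ.f.1 τ.k : ℝ) + τ.f.1 c + τ.f.1 d = H := by exact_mod_cast this
    linarith

theorem dp_sum (g : Par K H L) (x : DV K H L) (h : TV K H) (t : ℝ) : ∑ c, dp x h t c = H := by
  unfold dp
  rw [Finset.sum_add_distrib, ← Finset.mul_sum, ← Finset.mul_sum, wt_sum g]
  have := wt_sum g (Sum.inl h : DV K H L)
  have h2 : ∑ c, (h.1 c : ℝ) = H := this
  rw [h2]
  ring

theorem gw_sum (g : Par K H L) (u : GV K H L) : ∑ c, gw u c = H := by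
  rcases u with x | e
  · exact wt_sum g x
  · exact dp_sum g _ _ _

theorem SegOk.face {x : DV K H L} {h : TV K H} (hs : SegOk x h) :
    ∃ b i, Sp b i (wt x) ∧ Sp b i fun c => (h.1 c : ℝ) := by
  rcases x with f | τ
  · obtain ⟨b, i, k, h1, h2, -⟩ := hs.te.ad
    exact ⟨b, i, fun c hc => by rw [wt_inl, h1 c hc, Nat.cast_zero],
      fun c hc => by show ((h.1 c : ℕ) : ℝ) = 0; rw [h2 c hc, Nat.cast_zero]⟩
  · obtain ⟨h1, -, -⟩ := hs.rim
    exact ⟨τ.b, τ.i, fun c hc => wt_out τ hc,
      fun c hc => by show ((h.1 c : ℕ) : ℝ) = 0; rw [h1 c hc, Nat.cast_zero]⟩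

theorem dp_face {x : DV K H L} {h : TV K H} (hs : SegOk x h) :
    ∃ b i, ∀ t, Sp b i (dp x h t) := by
  obtain ⟨b, i, h1, h2⟩ := hs.face
  refine ⟨b, i, fun t c hc => ?_⟩
  have h3 := h2 c hc
  simp only at h3
  unfold dp
  rw [h1 c hc, h3]
  ring

theorem gw_face (u : GV K H L) : ∃ b i, Sp b i (gw u) := by
  rcases u with (f | τ) | e
  · obtain ⟨b, i, h⟩ := f.2.2
    exact ⟨b, i, fun c hc => by show ((f.1 c : ℕ) : ℝ) = 0; rw [h c hc, Nat.cast_zero]⟩
  · exact ⟨τ.b, τ.i, fun c hc => wt_out τ hc⟩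
  · obtain ⟨b, i, h⟩ := dp_face (Or.inr e.2 : SegOk e.1.1 e.1.2)
    exact ⟨b, i, h _⟩

/-- the kinds of edges -/
inductive Ed : ℝ → ℝ → DV K H L → TV K H → GV K H L → GV K H L → Prop
  | un (f h : TV K H) (h1 : Un L f h) :
      Ed 0 1 (Sum.inl f) h (Sum.inl (Sum.inl f)) (Sum.inl (Sum.inl h))
  | ce (e : Spk K H L) : Ed 0 (1 / 2) e.1.1 e.1.2 (Sum.inl e.1.1) (Sum.inr e)
  | ri (e : Spk K H L) : Ed (1 / 2) 1 e.1.1 e.1.2 (Sum.inr e) (Sum.inl (Sum.inl e.1.2))

theorem exists_ed {u v : GV K H L} (h : (G K H L).Adj u v) :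
    ∃ a b x h, Ed a b x h u v ∨ Ed a b x h v u := by
  rcases u with (f | τ) | e <;> rcases v with (f' | τ') | e'
  · exact ⟨_, _, _, _, Or.inl (Ed.un f f' h)⟩
  · exact absurd h (fun h => h)
  · have h' : (Sum.inl f : DV K H L) = e'.1.1 ∨ (Sum.inl f : DV K H L) = Sum.inl e'.1.2 := h
    rcases h' with h' | h'
    · rw [h']
      exact ⟨_, _, _, _, Or.inl (Ed.ce e')⟩
    · rw [h']
      exact ⟨_, _, _, _, Or.inr (Ed.ri e')⟩
  · exact absurd h (fun h => h)
  · exact absurd h (fun h => h)
  · have h' : (Sum.inr τ : DV K H L) = e'.1.1 ∨ (Sum.inr τ : DV K H L) = Sum.inl e'.1.2 := h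
    rcases h' with h' | h'
    · rw [h']
      exact ⟨_, _, _, _, Or.inl (Ed.ce e')⟩
    · cases h'
  · have h' : (Sum.inl f' : DV K H L) = e.1.1 ∨ (Sum.inl f' : DV K H L) = Sum.inl e.1.2 := h
    rcases h' with h' | h'
    · rw [h']
      exact ⟨_, _, _, _, Or.inr (Ed.ce e)⟩
    · rw [h']
      exact ⟨_, _, _, _, Or.inl (Ed.ri e)⟩
  · have h' : (Sum.inr τ' : DV K H L) = e.1.1 ∨ (Sum.inr τ' : DV K H L) = Sum.inl e.1.2 := h
    rcases h' with h' | h'
    · rw [h']
      exact ⟨_, _, _, _, Or.inr (Ed.ce e)⟩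
    · cases h'
  · exact absurd h (fun h => h)

theorem Ed.seg {a b : ℝ} {x : DV K H L} {h : TV K H} {u v : GV K H L} (he : Ed a b x h u v) :
    SegOk x h := by
  cases he with
  | un f h h1 => exact Or.inl ⟨f, rfl, h1⟩
  | ce e => exact Or.inr e.2
  | ri e => exact Or.inr e.2

theorem Ed.ends {a b : ℝ} {x : DV K H L} {h : TV K H} {u v : GV K H L} (he : Ed a b x h u v) :
    0 ≤ a ∧ a < b ∧ b ≤ 1 ∧ (∀ c, gw u c = dp x h a c) ∧ ∀ c, gw v c = dp x h b c := by
  cases he with
  | un f h h1 =>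
    refine ⟨le_rfl, one_pos, le_rfl, fun c => ?_, fun c => ?_⟩
    · show (f.1 c : ℝ) = (1 - 0) * f.1 c + 0 * h.1 c
      ring
    · show (h.1 c : ℝ) = (1 - 1) * f.1 c + 1 * h.1 c
      ring
  | ce e =>
    refine ⟨le_rfl, by norm_num, by norm_num, fun c => ?_, fun c => rfl⟩
    show wt e.1.1 c = (1 - 0) * wt e.1.1 c + 0 * e.1.2.1 c
    ring
  | ri e =>
    refine ⟨by norm_num, by norm_num, le_rfl, fun c => rfl, fun c => ?_⟩
    show (e.1.2.1 c : ℝ) = (1 - 1) * wt e.1.1 c + 1 * e.1.2.1 c
    ring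

/-- edges which meet are equal -/
theorem ed_ed (g : Par K H L) {a b a' b' : ℝ} {x x' : DV K H L} {h h' : TV K H}
    {u v u' v' : GV K H L} (h1 : Ed a b x h u v) (h2 : Ed a' b' x' h' u' v') {t t' : ℝ}
    (ht : a < t) (ht1 : t < b) (ht' : a' < t') (ht1' : t' < b')
    (he : ∀ c, dp x h t c = dp x' h' t' c) : s(u, v) = s(u', v') := by
  obtain ⟨p1, -, p2, -⟩ := h1.ends
  obtain ⟨q1, -, q2, -⟩ := h2.ends
  rcases seg_seg g h1.seg h2.seg (by linarith) (by linarith) (by linarith) (by linarith) he with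
    ⟨e1, e2, e3⟩ | ⟨e1, e2, e3⟩
  · cases h1 with
    | un f h k1 =>
      cases h2 with
      | un f' h' k2 =>
        cases e1
        cases e2
        rfl
      | ce e =>
        exfalso
        have := e.2
        rw [← e1, ← e2] at this
        exact un_rim k1 this
      | ri e =>
        exfalso
        have := e.2
        rw [← e1, ← e2] at this
        exact un_rim k1 this
    | ce e =>
      cases h2 with
      | un f' h' k2 =>
        exfalso
        have := e.2
        rw [e1, e2] at this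
        exact un_rim k2 this
      | ce e' =>
        have : e = e' := Subtype.ext (Prod.ext e1 e2)
        rw [this]
      | ri e' => exfalso; linarith
    | ri e =>
      cases h2 with
      | un f' h' k2 =>
        exfalso
        have := e.2
        rw [e1, e2] at this
        exact un_rim k2 this
      | ce e' => exfalso; linarith
      | ri e' =>
        have : e = e' := Subtype.ext (Prod.ext e1 e2)
        rw [this]
  · cases h1 with
    | un f h k1 =>
      cases h2 with
      | un f' h' k2 =>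
        cases e1
        cases e2
        exact Sym2.eq_swap
      | ce e =>
        exfalso
        have := e.2
        cases e1
        rw [e2] at this
        exact un_rim k1.symm this
      | ri e =>
        exfalso
        have := e.2
        cases e1
        rw [e2] at this
        exact un_rim k1.symm this
    | ce e =>
      exfalso
      have r1 := e.2
      rw [e1] at r1
      cases h2 with
      | un f' h' k2 =>
        cases e2
        exact un_rim k2.symm r1
      | ce e' =>
        have r2 := e'.2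
        rw [e2] at r2
        exact rim_rim g r1 r2
      | ri e' =>
        have r2 := e'.2
        rw [e2] at r2
        exact rim_rim g r1 r2
    | ri e =>
      exfalso
      have r1 := e.2
      rw [e1] at r1
      cases h2 with
      | un f' h' k2 =>
        cases e2
        exact un_rim k2.symm r1
      | ce e' =>
        have r2 := e'.2
        rw [e2] at r2
        exact rim_rim g r1 r2
      | ri e' =>
        have r2 := e'.2
        rw [e2] at r2
        exact rim_rim g r1 r2

/-- vertices are not on edges -/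
theorem ed_vert (g : Par K H L) {a b : ℝ} {x : DV K H L} {h : TV K H}
    {u v w : GV K H L} (h1 : Ed a b x h u v) {t : ℝ} (ht : a < t) (ht1 : t < b)
    (he : ∀ c, gw w c = dp x h t c) : False := by
  obtain ⟨p1, -, p2, -⟩ := h1.ends
  rcases w with y | e'
  · exact seg_vert g h1.seg (by linarith) (by linarith) he
  · have r' := e'.2
    rcases seg_seg g h1.seg (Or.inr e'.2 : SegOk e'.1.1 e'.1.2) (by linarith) (by linarith)
      (by norm_num : (0 : ℝ) < 1 / 2) (by norm_num) (fun c => (he c).symm) with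
      ⟨e1, e2, e3⟩ | ⟨e1, e2, e3⟩
    · cases h1 with
      | un f h k1 =>
        rw [← e1, ← e2] at r'
        exact un_rim k1 r'
      | ce e => linarith
      | ri e => linarith
    · cases h1 with
      | un f h k1 =>
        cases e1
        rw [e2] at r'
        exact un_rim k1.symm r'
      | ce e => linarith
      | ri e => linarith

theorem gw_inj (g : Par K H L) {u v : GV K H L} (he : ∀ c, gw u c = gw v c) : u = v := by
  rcases u with x | e <;> rcases v with y | e'
  · rw [wt_inj g he]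
  · exact absurd he (fun he => seg_vert g (Or.inr e'.2 : SegOk e'.1.1 e'.1.2)
      (by norm_num : (0 : ℝ) < 1 / 2) (by norm_num) he)
  · exact absurd he (fun he => seg_vert g (Or.inr e.2 : SegOk e.1.1 e.1.2)
      (by norm_num : (0 : ℝ) < 1 / 2) (by norm_num) (fun c => (he c).symm))
  · rcases seg_seg g (Or.inr e.2 : SegOk e.1.1 e.1.2) (Or.inr e'.2 : SegOk e'.1.1 e'.1.2)
      (by norm_num : (0 : ℝ) < 1 / 2) (by norm_num) (by norm_num : (0 : ℝ) < 1 / 2)
      (by norm_num) he with ⟨e1, e2, -⟩ | ⟨e1, e2, -⟩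
    · rw [show e = e' from Subtype.ext (Prod.ext e1 e2)]
    · exfalso
      have r1 := e.2
      have r2 := e'.2
      rw [e1] at r1
      rw [e2] at r2
      exact rim_rim g r1 r2

/-- the position of a vertex -/
noncomputable def pos (u : GV K H L) : ℝ × ℝ × ℝ := ev (gw u)

theorem ev_smul (s : ℝ) (w : CV K → ℝ) : ev (fun c => s * w c) = s • ev w := by
  unfold ev
  rw [Finset.smul_sum]
  exact Finset.sum_congr rfl fun c _ => mul_smul _ _ _

theorem ev_add (w w' : CV K → ℝ) : ev (fun c => w c + w' c) = ev w + ev w' := by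
  unfold ev
  rw [← Finset.sum_add_distrib]
  exact Finset.sum_congr rfl fun c _ => add_smul _ _ _

/-- the points of a cone -/
theorem cone_pt {a b : ℝ} {x : DV K H L} {h : TV K H} {u v : GV K H L} (h1 : Ed a b x h u v)
    {y : ℝ × ℝ × ℝ} (hy : y ∈ cone (pos u) (pos v)) :
    ∃ r t : ℝ, 0 < r ∧ a < t ∧ t < b ∧ y = ev fun c => r * dp x h t c := by
  obtain ⟨s, t, hs, ht, rfl⟩ := hy
  obtain ⟨p1, pab, p2, p3, p4⟩ := h1.ends
  have hst : 0 < s + t := by linarith
  refine ⟨s + t, (s * a + t * b) / (s + t), hst, ?_, ?_, ?_⟩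
  · rw [lt_div_iff₀ hst]
    nlinarith
  · rw [div_lt_iff₀ hst]
    nlinarith
  · unfold pos
    rw [← ev_smul, ← ev_smul, ← ev_add]
    congr 1
    funext c
    rw [p3, p4]
    unfold dp
    field_simp
    ring

theorem scale_eq (g : Par K H L) {r r' : ℝ} {w w' : CV K → ℝ} (hw : ∑ c, w c = H)
    (hw' : ∑ c, w' c = H) (hr : 0 < r) (he : (fun c => r * w c) = fun c => r' * w' c) :
    ∀ c, w c = w' c := by
  have h1 : ∑ c, r * w c = ∑ c, r' * w' c := Finset.sum_congr rfl fun c _ => congrFun he c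
  rw [← Finset.mul_sum, ← Finset.mul_sum, hw, hw'] at h1
  have hH : (H : ℝ) ≠ 0 := by exact_mod_cast g.pos.ne'
  have h2 := mul_right_cancel₀ hH h1
  intro c
  have h3 : r * w c = r' * w' c := congrFun he c
  rw [← h2] at h3
  exact mul_left_cancel₀ hr.ne' h3

/-- the drawing of the graph -/
theorem drawing (g : Par K H L) : IsDrawing (G K H L) pos where
  ne := by
    intro v h0
    obtain ⟨b, i, hsp⟩ := gw_face v
    have h1 := ev_zero g.hK hsp h0
    have h2 := gw_sum g v
    rw [h1] at h2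
    simp only [Pi.zero_apply, Finset.sum_const_zero] at h2
    have := g.pos
    have h3 : (0 : ℝ) < H := by exact_mod_cast this
    linarith
  inj := by
    intro u v s hs he
    obtain ⟨b, i, hsp⟩ := gw_face u
    obtain ⟨b', i', hsp'⟩ := gw_face v
    have h1 : ev (gw u) = ev (fun c => s * gw v c) := by rw [ev_smul]; exact he
    have h2 := ev_inj g.hK (gw_nonneg g u) (fun c => mul_nonneg hs.le (gw_nonneg g v c)) hsp
      (fun c hc => by show s * gw v c = 0; rw [hsp' c hc, mul_zero]) h1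
    apply gw_inj g
    refine scale_eq g (gw_sum g u) (gw_sum g v) one_pos (r' := s) ?_
    funext c
    rw [one_mul]
    exact congrFun h2 c
  arc := by
    intro u v huv h0
    obtain ⟨a, b, x, h, h1⟩ := exists_ed huv
    have key : ∀ u v : GV K H L, Ed a b x h u v → (0 : ℝ × ℝ × ℝ) ∈ cone (pos u) (pos v) →
        False := by
      intro u v h1 h0
      obtain ⟨r, t, hr, ht, ht1, hy⟩ := cone_pt h1 h0
      obtain ⟨b', i', hsp⟩ := dp_face h1.seg
      have h2 := ev_zero g.hK (b := b') (i := i') (u := fun c => r * dp x h t c)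
        (fun c hc => by show r * dp x h t c = 0; rw [hsp t c hc, mul_zero]) hy.symm
      have h3 : ∑ c, r * dp x h t c = 0 := Finset.sum_eq_zero fun c _ => congrFun h2 c
      rw [← Finset.mul_sum, dp_sum g] at h3
      have h4 : (0 : ℝ) < H := by exact_mod_cast g.pos
      have := mul_pos hr h4
      linarith
    rcases h1 with h1 | h1
    · exact key u v h1 h0
    · refine key v u h1 ?_
      obtain ⟨s, t, hs, ht, he⟩ := h0
      exact ⟨t, s, ht, hs, by rw [he, add_comm]⟩
  vert := by
    intro u v w huv h0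
    obtain ⟨a, b, x, h, h1⟩ := exists_ed huv
    have key : ∀ u v : GV K H L, Ed a b x h u v → pos w ∈ cone (pos u) (pos v) → False := by
      intro u v h1 h0
      obtain ⟨r, t, hr, ht, ht1, hy⟩ := cone_pt h1 h0
      obtain ⟨p1, -, p2, -⟩ := h1.ends
      obtain ⟨b', i', hsp⟩ := dp_face h1.seg
      obtain ⟨b2, i2, hsp2⟩ := gw_face w
      have h2 := ev_inj g.hK (gw_nonneg g w)
        (fun c => mul_nonneg hr.le (dp_nonneg g x h (by linarith : 0 ≤ t) (by linarith) c)) hsp2
        (fun c hc => by show r * dp x h t c = 0; rw [hsp t c hc, mul_zero]) hy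
      refine ed_vert g h1 ht ht1 (w := w) ?_
      refine scale_eq g (gw_sum g w) (dp_sum g x h t) one_pos (r' := r) ?_
      funext c
      rw [one_mul]
      exact congrFun h2 c
    rcases h1 with h1 | h1
    · exact key u v h1 h0
    · refine key v u h1 ?_
      obtain ⟨s, t, hs, ht, he⟩ := h0
      exact ⟨t, s, ht, hs, by rw [he, add_comm]⟩
  edge := by
    intro u v u' v' huv huv' hne
    obtain ⟨y, hy1, hy2⟩ := hne
    obtain ⟨a, b, x, h, h1⟩ := exists_ed huv
    obtain ⟨a', b', x', h', h2⟩ := exists_ed huv'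
    have key : ∀ u v u' v' : GV K H L, Ed a b x h u v → Ed a' b' x' h' u' v' →
        y ∈ cone (pos u) (pos v) → y ∈ cone (pos u') (pos v') → s(u, v) = s(u', v') := by
      intro u v u' v' h1 h2 hy1 hy2
      obtain ⟨r, t, hr, ht, ht1, e1⟩ := cone_pt h1 hy1
      obtain ⟨r', t', hr', ht', ht1', e2⟩ := cone_pt h2 hy2
      obtain ⟨p1, -, p2, -⟩ := h1.ends
      obtain ⟨q1, -, q2, -⟩ := h2.ends
      obtain ⟨b1, i1, hsp1⟩ := dp_face h1.seg
      obtain ⟨b2, i2, hsp2⟩ := dp_face h2.seg
      have h3 := ev_inj g.hK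
        (fun c => mul_nonneg hr.le (dp_nonneg g x h (by linarith : 0 ≤ t) (by linarith) c))
        (fun c => mul_nonneg hr'.le (dp_nonneg g x' h' (by linarith : 0 ≤ t') (by linarith) c))
        (fun c hc => by show r * dp x h t c = 0; rw [hsp1 t c hc, mul_zero])
        (fun c hc => by show r' * dp x' h' t' c = 0; rw [hsp2 t' c hc, mul_zero])
        (e1.symm.trans e2)
      exact ed_ed g h1 h2 ht ht1 ht' ht1' (scale_eq g (dp_sum g x h t) (dp_sum g x' h' t') hr h3)
    have hsw : ∀ {u v : GV K H L}, y ∈ cone (pos u) (pos v) → y ∈ cone (pos v) (pos u) := by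
      intro u v h
      obtain ⟨s, t, hs, ht, he⟩ := h
      exact ⟨t, s, ht, hs, by rw [he, add_comm]⟩
    rcases h1 with h1 | h1 <;> rcases h2 with h2 | h2
    · exact key _ _ _ _ h1 h2 hy1 hy2
    · rw [key _ _ _ _ h1 h2 hy1 (hsw hy2), Sym2.eq_swap]
    · rw [← key _ _ _ _ h1 h2 (hsw hy1) hy2, Sym2.eq_swap]
    · rw [Sym2.eq_swap, key _ _ _ _ h1 h2 (hsw hy1) (hsw hy2), Sym2.eq_swap]

/-- the graph is planar -/
theorem planar (g : Par K H L) : Planar (G K H L) := ⟨pos, drawing g⟩

end

end Pool.Agent.H3.FF
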