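import Pool.Agent.H3.FF.Reg

/-!
# MP_4c8b8e_co: the edges of the triangulation do not cross
-/

set_option autoImplicit false
set_option linter.unusedSectionVars false
set_option linter.unusedVariables false

open scoped BigOperators

namespace Pool.Agent.H3.FF

open CV TV Tz

section

variable {K H L : ℕ} [NeZero K]

/-- the coordinates of a point of an open edge of the lattice -/
theorem stp_pt {f f' : TV K H} {c d : CV K} (h : Stp f f' c d) {t : ℝ} {w : CV K → ℝ}
    (hw : ∀ e, w e = (1 - t) * f.1 e + t * f'.1 e) :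
    w c = f'.1 c + (1 - t) ∧ w d = f.1 d + t ∧ ∀ e, e ≠ c → e ≠ d → w e = f.1 e := by
  obtain ⟨h1, h2, h3⟩ := h
  have h1' : (f.1 c : ℝ) = f'.1 c + 1 := by exact_mod_cast h1
  have h2' : (f'.1 d : ℝ) = f.1 d + 1 := by exact_mod_cast h2
  refine ⟨?_, ?_, ?_⟩
  · rw [hw, h1']; ring
  · rw [hw, h2']; ring
  · intro e h4 h5
    rw [hw, ← h3 e h4 h5]; ring

theorem nat_eq_of_lt {m n : ℕ} {s t : ℝ} (hs : 0 < s) (hs1 : s < 1) (ht : 0 < t) (ht1 : t < 1)
    (h : (m : ℝ) + s = n + t) : m = n ∧ s = t := by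
  have h1 : (m : ℝ) < n + 1 := by linarith
  have h2 : (n : ℝ) < m + 1 := by linarith
  have h1' : m < n + 1 := by exact_mod_cast h1
  have h2' : n < m + 1 := by exact_mod_cast h2
  have h3 : m = n := by omega
  subst h3
  exact ⟨rfl, by linarith⟩

theorem not_nat {m n : ℕ} {s : ℝ} (hs : 0 < s) (hs1 : s < 1) : (m : ℝ) + s ≠ n := by
  intro h
  have h1 : (m : ℝ) < n := by linarith
  have h2 : (n : ℝ) < m + 1 := by linarith
  have h1' : m < n := by exact_mod_cast h1
  have h2' : n < m + 1 := by exact_mod_cast h2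
  omega

theorem TV.Stp.ne {f f' : TV K H} {c d : CV K} (h : Stp f f' c d) : c ≠ d := by
  rintro rfl
  obtain ⟨h1, h2, -⟩ := h
  omega

theorem TV.Stp.symm {f f' : TV K H} {c d : CV K} (h : Stp f f' c d) : Stp f' f d c :=
  ⟨h.2.1, h.1, fun e h1 h2 => (h.2.2 e h2 h1).symm⟩

/-- open edges of the lattice which meet are equal, one orientation -/
theorem stp_stp {f f' h h' : TV K H} {c d c' d' : CV K} (h1 : Stp f f' c d)
    (h2 : Stp h h' c' d') {t t' : ℝ} (ht : 0 < t) (ht1 : t < 1) (ht' : 0 < t') (ht1' : t' < 1)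
    (he : ∀ e, (1 - t) * (f.1 e : ℝ) + t * f'.1 e = (1 - t') * h.1 e + t' * h'.1 e) :
    (f = h ∧ f' = h' ∧ t = t') ∨ (f = h' ∧ f' = h ∧ t = 1 - t') := by
  obtain ⟨a1, a2, a3⟩ := stp_pt h1 (w := fun e => (1 - t) * (f.1 e : ℝ) + t * f'.1 e)
    (fun e => rfl)
  obtain ⟨b1, b2, b3⟩ := stp_pt h2 (w := fun e => (1 - t) * (f.1 e : ℝ) + t * f'.1 e)
    (fun e => he e)
  have hcd := TV.Stp.ne h1
  have hcd' := TV.Stp.ne h2
  have hc : c = c' ∨ c = d' := by
    by_contra hc
    push Not at hc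
    have := b3 c hc.1 hc.2
    rw [a1] at this
    exact not_nat (by linarith) (by linarith) this
  have hd : d = c' ∨ d = d' := by
    by_contra hd
    push Not at hd
    have := b3 d hd.1 hd.2
    rw [a2] at this
    exact not_nat ht ht1 this
  rcases hc with hc | hc
  · have hd' : d = d' := by
      rcases hd with hd | hd
      · exact absurd (hc.trans hd.symm) hcd
      · exact hd
    subst hc
    subst hd'
    left
    have e1 := nat_eq_of_lt (by linarith) (by linarith) (by linarith) (by linarith)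
      (a1.symm.trans b1)
    have e2 := nat_eq_of_lt ht ht1 ht' ht1' (a2.symm.trans b2)
    refine ⟨?_, ?_, e2.2⟩
    · apply Subtype.ext
      funext e
      by_cases hec : e = c
      · subst hec
        rw [h1.1, h2.1, e1.1]
      · by_cases hed : e = d
        · subst hed; exact e2.1
        · have := (a3 e hec hed).symm.trans (b3 e hec hed)
          exact_mod_cast this
    · apply Subtype.ext
      funext e
      by_cases hec : e = c
      · subst hec; exact e1.1
      · by_cases hed : e = d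
        · subst hed
          rw [h1.2.1, h2.2.1, e2.1]
        · have := (a3 e hec hed).symm.trans (b3 e hec hed)
          rw [← h1.2.2 e hec hed, ← h2.2.2 e hec hed]
          exact_mod_cast this
  · have hd' : d = c' := by
      rcases hd with hd | hd
      · exact hd
      · exact absurd (hc.trans hd.symm) hcd
    subst hc
    subst hd'
    right
    have e1 := nat_eq_of_lt (by linarith) (by linarith) ht' ht1' (a1.symm.trans b2)
    have e2 := nat_eq_of_lt ht ht1 (by linarith) (by linarith) (a2.symm.trans b1)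
    refine ⟨?_, ?_, e2.2⟩
    · apply Subtype.ext
      funext e
      by_cases hec : e = c
      · subst hec
        rw [h1.1, h2.2.1, e1.1]
      · by_cases hed : e = d
        · subst hed; exact e2.1
        · have := (a3 e hec hed).symm.trans (b3 e hed hec)
          rw [← h2.2.2 e hed hec]
          exact_mod_cast this
    · apply Subtype.ext
      funext e
      by_cases hec : e = c
      · subst hec; exact e1.1
      · by_cases hed : e = d
        · subst hed
          rw [h1.2.1, h2.1, e2.1]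
        · have := (a3 e hec hed).symm.trans (b3 e hed hec)
          rw [← h1.2.2 e hec hed]
          exact_mod_cast this

/-- lattice edges of the triangulation -/
def TE (L : ℕ) (f f' : TV K H) : Prop :=
  Un L f f' ∨ Rim (Sum.inl f : DV K H L) f' ∨ Rim (Sum.inl f' : DV K H L) f

theorem TV.AdF.ad {f f' : TV K H} {b : Bool} {i : ZMod K} {k : CV K} (h : AdF b i k f f') :
    Ad f f' := ⟨b, i, k, h⟩

theorem TV.Ad.symm {f f' : TV K H} (h : Ad f f') : Ad f' f := by
  obtain ⟨b, i, k, h⟩ := h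
  exact ⟨b, i, k, h.symm'⟩

theorem TV.AdF.k_eq {f f' : TV K H} {b : Bool} {i : ZMod K} {k : CV K} (h : AdF b i k f f') :
    f.1 k = f'.1 k := by
  obtain ⟨-, -, -, c, d, -, -, hc, hd, -, -, h3⟩ := h
  exact h3 k (Ne.symm hc) (Ne.symm hd)

theorem TV.Un.symm {f f' : TV K H} (h : Un L f f') : Un L f' f := by
  rcases h with ⟨h1, h2, h3⟩ | ⟨b, i, k, h, hL⟩
  · exact Or.inl ⟨h1.symm, h3, h2⟩
  · exact Or.inr ⟨b, i, k, h.symm', by rw [← h.k_eq]; exact hL⟩

theorem TE.symm {f f' : TV K H} (h : TE L f f') : TE L f' f := by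
  rcases h with h | h | h
  · exact Or.inl h.symm
  · exact Or.inr (Or.inr h)
  · exact Or.inr (Or.inl h)

theorem TE.ad {f f' : TV K H} (h : TE L f f') : Ad f f' := by
  rcases h with h | h | h
  · rcases h with ⟨h1, -⟩ | ⟨b, i, k, h, -⟩
    · exact h1
    · exact h.ad
  · exact h.2.2
  · exact h.2.2.symm

theorem TV.Ad.stp {f f' : TV K H} (h : Ad f f') : ∃ c d, Stp f f' c d := by
  obtain ⟨b, i, k, -, -, -, c, d, -, -, -, -, h⟩ := h
  exact ⟨c, d, h⟩

/-- lattice edges which meet are equal -/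
theorem te_te {f f' h h' : TV K H} (h1 : Ad f f') (h2 : Ad h h') {t t' : ℝ} (ht : 0 < t)
    (ht1 : t < 1) (ht' : 0 < t') (ht1' : t' < 1)
    (he : ∀ e, (1 - t) * (f.1 e : ℝ) + t * f'.1 e = (1 - t') * h.1 e + t' * h'.1 e) :
    (f = h ∧ f' = h' ∧ t = t') ∨ (f = h' ∧ f' = h ∧ t = 1 - t') := by
  obtain ⟨c, d, h3⟩ := h1.stp
  obtain ⟨c', d', h4⟩ := h2.stp
  exact stp_stp h3 h4 ht ht1 ht' ht1' he

/-- a lattice point is not on an open lattice edge -/
theorem te_vert {f f' h : TV K H} (h1 : Ad f f') {t : ℝ} (ht : 0 < t) (ht1 : t < 1)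
    (he : ∀ e, (h.1 e : ℝ) = (1 - t) * f.1 e + t * f'.1 e) : False := by
  obtain ⟨c, d, h3⟩ := h1.stp
  obtain ⟨-, a2, -⟩ := stp_pt h3 he
  exact not_nat ht ht1 a2.symm

/-- the lattice edges inside a half hexagon contain the centre of the hexagon -/
theorem reg_edge1 (g : Par K H L) {τ : Tz K H L} {w : CV K → ℝ} (hr : Reg τ w) {b : Bool}
    {i : ZMod K} {k1 : CV K} {f f' : TV K H} (h : AdF b i k1 f f') {t : ℝ} (ht : 0 < t)
    (ht1 : t < 1) (hw : ∀ e, w e = (1 - t) * f.1 e + t * f'.1 e) :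
    b = τ.b ∧ i = τ.i ∧ k1 ≠ τ.k ∧ (f = τ.f ∨ f' = τ.f) := by
  obtain ⟨h1, h2, hk, c, d, hc, hd, hck, hdk, hs⟩ := h
  obtain ⟨a1, a2, a3⟩ := stp_pt hs hw
  have hcd := TV.Stp.ne hs
  have hF : ∀ e, fc τ.b τ.i e → fc b i e := by
    intro e he
    by_contra hne
    have := hr.pos e he
    rw [hw, h1 e hne, h2 e hne] at this
    simp at this
  obtain ⟨hb, hi⟩ := fc_inj g.hK hF
  subst hb
  subst hi
  have hk1 : k1 ≠ τ.k := by
    rintro rfl
    exact reg_not_int hr _ (a3 τ.k (Ne.symm hck) (Ne.symm hdk))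
  refine ⟨rfl, rfl, hk1, ?_⟩
  -- the constant coordinate
  have hk1f : f.1 k1 = τ.f.1 k1 ∧ f'.1 k1 = τ.f.1 k1 := by
    have b1 := hr.cl k1 hk
    rw [a3 k1 (Ne.symm hck) (Ne.symm hdk)] at b1
    have b2 : |(f.1 k1 : ℤ) - τ.f.1 k1| < 1 := by exact_mod_cast b1
    have b3 := Int.abs_lt_one_iff.1 b2
    have b4 := hs.2.2 k1 (Ne.symm hck) (Ne.symm hdk)
    omega
  -- the other coordinate
  have hcl := hr.cl τ.k τ.hk
  have hside := hr.side
  have hk3 : τ.k = c ∨ τ.k = d := by
    rcases fc_three hc hd hk hcd hck hdk τ.hk with h | h | h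
    · exact Or.inl h
    · exact Or.inr h
    · exact absurd h.symm hk1
  have hkk : f.1 τ.k = τ.f.1 τ.k ∨ f'.1 τ.k = τ.f.1 τ.k := by
    rcases hk3 with h | h
    · rw [← h] at a1 hs
      rw [a1] at hcl hside
      have e1 := hs.1
      rw [abs_lt] at hcl
      have c1 : (f'.1 τ.k : ℤ) < τ.f.1 τ.k + 1 := by
        have : (f'.1 τ.k : ℝ) < τ.f.1 τ.k + 1 := by linarith
        exact_mod_cast this
      have c2 : (τ.f.1 τ.k : ℤ) < f'.1 τ.k + 2 := by
        have : (τ.f.1 τ.k : ℝ) < f'.1 τ.k + 2 := by linarith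
        exact_mod_cast this
      omega
    · rw [← h] at a2 hs
      rw [a2] at hcl hside
      have e1 := hs.2.1
      rw [abs_lt] at hcl
      have c1 : (f.1 τ.k : ℤ) < τ.f.1 τ.k + 1 := by
        have : (f.1 τ.k : ℝ) < τ.f.1 τ.k + 1 := by linarith
        exact_mod_cast this
      have c2 : (τ.f.1 τ.k : ℤ) < f.1 τ.k + 2 := by
        have : (τ.f.1 τ.k : ℝ) < f.1 τ.k + 2 := by linarith
        exact_mod_cast this
      omega
  -- the third coordinate
  have hthird : ∀ h : TV K H, Sp τ.b τ.i h.1 → h.1 k1 = τ.f.1 k1 → h.1 τ.k = τ.f.1 τ.k →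
      h = τ.f := by
    intro h hsp e1 e2
    obtain ⟨m, hm, hm1, hm2⟩ := fc_third g.hK hk τ.hk hk1
    have s1 := sum_H g h hsp hk τ.hk hm hk1 hm1 hm2
    have s2 := sum_H g τ.f τ.sp hk τ.hk hm hk1 hm1 hm2
    apply Subtype.ext
    funext e
    by_cases he : fc τ.b τ.i e
    · rcases fc_three hk τ.hk hm hk1 hm1 hm2 he with rfl | rfl | rfl
      · exact e1
      · exact e2
      · omega
    · rw [hsp e he, τ.sp e he]
  rcases hkk with h | h
  · exact Or.inl (hthird f h1 hk1f.1 h)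
  · exact Or.inr (hthird f' h2 hk1f.2 h)

/-- the lattice edges of the triangulation do not meet the open half hexagons -/
theorem reg_edge (g : Par K H L) {τ : Tz K H L} {w : CV K → ℝ} (hr : Reg τ w) {f f' : TV K H}
    (h : TE L f f') {t : ℝ} (ht : 0 < t) (ht1 : t < 1)
    (hw : ∀ e, w e = (1 - t) * f.1 e + t * f'.1 e) : False := by
  -- one orientation
  have key : ∀ (f f' : TV K H) (t : ℝ), 0 < t → t < 1 → TE L f f' → f = τ.f →
      (∀ e, w e = (1 - t) * f.1 e + t * f'.1 e) → False := by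
    rintro f f' t ht ht1 h rfl hw
    rcases h with (⟨-, h1, -⟩ | ⟨b, i, k1, h1, h2⟩) | h | h
    · exact h1 τ.cls2
    · obtain ⟨hb, hi, hk, -⟩ := reg_edge1 g hr h1 ht ht1 hw
      obtain ⟨p1, -, p3, -⟩ := h1
      subst hb
      subst hi
      exact hk (uniq_street g τ.sp τ.cls_ne0 p3 τ.hk h2 τ.dvd)
    · exact h.2.1 ⟨τ.b, τ.i, τ.k, τ.sp, τ.hk, τ.dvd⟩
    · obtain ⟨b, i, k1, h3⟩ := h.2.2
      apply cls_ne g h3
      rw [h.1, τ.cls2]
  obtain ⟨b, i, k1, h1⟩ := h.ad
  obtain ⟨-, -, -, h2 | h2⟩ := reg_edge1 g hr h1 ht ht1 hw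
  · exact key f f' t ht ht1 h h2 hw
  · exact key f' f (1 - t) (by linarith) (by linarith) h.symm h2
      (fun e => by rw [hw e]; ring)

/-- different spokes of one half hexagon do not meet -/
theorem spoke_spoke {τ : Tz K H L} {h h' : TV K H} (hr : Rim (Sum.inr τ : DV K H L) h)
    (hr' : Rim (Sum.inr τ : DV K H L) h') {t t' : ℝ} (ht : 0 < t) (ht' : 0 < t')
    (he : ∀ e, (1 - t) * wt (Sum.inr τ : DV K H L) e + t * h.1 e =
      (1 - t') * wt (Sum.inr τ : DV K H L) e + t' * h'.1 e) : h = h' ∧ t = t' := by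
  obtain ⟨-, -, r1⟩ := rim_cl hr
  obtain ⟨-, -, r2⟩ := rim_cl hr'
  have hk := he τ.k
  rw [wt_k] at hk
  have hsg : τ.sg ≠ 0 := by rcases τ.sg_sq with h | h <;> rw [h] <;> norm_num
  have htt : t = t' := by
    rcases r1 with r1 | r1 <;> rcases r2 with r2 | r2 <;> rw [r1, r2] at hk
    · have : τ.sg * (t - t') = 0 := by linear_combination -2 * hk
      linarith [(mul_eq_zero.1 this).resolve_left hsg]
    · exfalso
      have : τ.sg * (t + t') = 0 := by linear_combination -2 * hk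
      linarith [(mul_eq_zero.1 this).resolve_left hsg]
    · exfalso
      have : τ.sg * (t + t') = 0 := by linear_combination 2 * hk
      linarith [(mul_eq_zero.1 this).resolve_left hsg]
    · have : τ.sg * (t - t') = 0 := by linear_combination 2 * hk
      linarith [(mul_eq_zero.1 this).resolve_left hsg]
  subst htt
  refine ⟨?_, rfl⟩
  apply Subtype.ext
  funext e
  have h1 : t * (h.1 e : ℝ) = t * h'.1 e := by linear_combination he e
  have h2 : (h.1 e : ℝ) = h'.1 e := mul_left_cancel₀ ht.ne' h1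
  exact_mod_cast h2

end

end Pool.Agent.H3.FF
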