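import Pool.Agent.H3.FF.Draw

/-!
# MP_4c8b8e_co: the graph has girth at least five
-/

set_option autoImplicit false
set_option linter.unusedSectionVars false
set_option linter.unusedVariables false

open scoped BigOperators

namespace Pool.Agent.H3.FF

open CV TV Tz

section

variable {K H L : ℕ} [NeZero K]

/-- the unit vector -/
def dl (c e : CV K) : ℤ := if e = c then 1 else 0

theorem dl_self (c : CV K) : dl c c = 1 := if_pos rfl

theorem dl_ne {c e : CV K} (h : e ≠ c) : dl c e = 0 := if_neg h

theorem dl_nonneg (c e : CV K) : 0 ≤ dl c e := by unfold dl; split_ifs <;> norm_num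

theorem dl_le (c e : CV K) : dl c e ≤ 1 := by unfold dl; split_ifs <;> norm_num

theorem dl_pos {c e : CV K} (h : 0 < dl c e) : e = c := by
  by_contra h1
  rw [dl_ne h1] at h
  exact lt_irrefl _ h

theorem stp_fun {f g : TV K H} {c d : CV K} (h : Stp f g c d) (e : CV K) :
    (f.1 e : ℤ) = g.1 e + dl c e - dl d e := by
  have hcd := TV.Stp.ne h
  obtain ⟨h1, h2, h3⟩ := h
  by_cases hc : e = c
  · subst hc
    rw [dl_self, dl_ne hcd, h1]
    push_cast
    ring
  · by_cases hd : e = d
    · subst hd
      rw [dl_self, dl_ne hc, h2]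
      push_cast
      ring
    · rw [dl_ne hc, dl_ne hd, h3 e hc hd]
      ring

theorem tv_ext {f g : TV K H} (h : ∀ e, (f.1 e : ℤ) = g.1 e) : f = g := by
  apply Subtype.ext
  funext e
  exact_mod_cast h e

/-- vertices of a face with equal weights are equal -/
theorem kap_inj (g : Par K H L) {b : Bool} {i : ZMod K} {c d : CV K} (hc : fc b i c)
    (hd : fc b i d) (h : kap c = kap d) : c = d := by
  by_contra h1
  exact kap_ne g.hK g.ev hc hd h1 h

theorem supp_fc {f : TV K H} {b : Bool} {i : ZMod K} (h : Sp b i f.1) {c : CV K}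
    (hc : f.1 c ≠ 0) : fc b i c := by
  by_contra h1
  exact hc (h c h1)

/-- points of the support with equal weights are equal -/
theorem supp_inj (g : Par K H L) {f : TV K H} {c d : CV K} (hc : f.1 c ≠ 0) (hd : f.1 d ≠ 0)
    (h : kap c = kap d) : c = d := by
  obtain ⟨b, i, hf⟩ := f.2.2
  exact kap_inj g (supp_fc hf hc) (supp_fc hf hd) h

theorem cls_stp {f g : TV K H} {c d : CV K} (h : Stp f g c d) :
    cls f = cls g + kap c - kap d := by
  rw [cls_eq, cls_eq]
  have h1 : ∀ e : CV K, kap e * (f.1 e : ZMod 3) =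
      kap e * (g.1 e : ZMod 3) + (if e = c then kap e else 0) - (if e = d then kap e else 0) := by
    intro e
    have h2 := congrArg (Int.cast : ℤ → ZMod 3) (stp_fun h e)
    push_cast at h2
    rw [h2]
    unfold dl
    split_ifs <;> push_cast <;> ring
  rw [Finset.sum_congr rfl fun e _ => h1 e, Finset.sum_sub_distrib, Finset.sum_add_distrib]
  simp

/-- no quadrangles in the honeycomb -/
theorem quad (g : Par K H L) {f h x y : TV K H} (hf : cls f = 0) (hh : cls h = 0)
    (hx : cls x = 1) (hy : cls y = 1) (h1 : Ad f x) (h2 : Ad h x) (h3 : Ad f y) (h4 : Ad h y) :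
    f = h ∨ x = y := by
  by_contra hne
  push Not at hne
  obtain ⟨hfh, hxy⟩ := hne
  obtain ⟨b1, i1, k1, f1, f1', -, c, d, hc, hd, -, -, s1⟩ := h1
  obtain ⟨b2, i2, k2, f2, f2', -, c', d', hc', hd', -, -, s2⟩ := h2
  obtain ⟨b3, i3, k3, f3, f3', -, p, q, hp, hq, -, -, s3⟩ := h3
  obtain ⟨b4, i4, k4, f4, f4', -, p', q', hp', hq', -, -, s4⟩ := h4
  have k1 : kap d = kap c + 1 := by
    have := cls_stp s1
    rw [hf, hx] at this
    linear_combination this
  have k2 : kap d' = kap c' + 1 := by
    have := cls_stp s2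
    rw [hh, hx] at this
    linear_combination this
  have k3 : kap q = kap p + 1 := by
    have := cls_stp s3
    rw [hf, hy] at this
    linear_combination this
  have k4 : kap q' = kap p' + 1 := by
    have := cls_stp s4
    rw [hh, hy] at this
    linear_combination this
  have n1 := TV.Stp.ne s1
  have n2 := TV.Stp.ne s2
  have n3 := TV.Stp.ne s3
  have n4 := TV.Stp.ne s4
  have e1 := stp_fun s1
  have e2 := stp_fun s2
  have e3 := stp_fun s3
  have e4 := stp_fun s4
  -- the sources are different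
  have a1 : c ≠ c' := by
    rintro rfl
    have : d = d' := by
      refine supp_inj g (f := x) ?_ ?_ (k1.trans k2.symm)
      · rw [s1.2.1]; omega
      · rw [s2.2.1]; omega
    subst this
    apply hfh
    apply tv_ext
    intro e
    rw [e1, e2]
  have a2 : p ≠ p' := by
    rintro rfl
    have : q = q' := by
      refine supp_inj g (f := y) ?_ ?_ (k3.trans k4.symm)
      · rw [s3.2.1]; omega
      · rw [s4.2.1]; omega
    subst this
    apply hfh
    apply tv_ext
    intro e
    rw [e3, e4]
  have key : ∀ e, dl c e - dl d e - dl c' e + dl d' e = dl p e - dl q e - dl p' e + dl q' e := by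
    intro e
    linarith [e1 e, e2 e, e3 e, e4 e]
  have fc0 : f.1 c ≠ 0 := by rw [s1.1]; omega
  have fp0 : f.1 p ≠ 0 := by rw [s3.1]; omega
  have hc'0 : h.1 c' ≠ 0 := by rw [s2.1]; omega
  have hp'0 : h.1 p' ≠ 0 := by rw [s4.1]; omega
  have hcpq : c = p ∨ c = q' := by
    by_contra hcon
    push Not at hcon
    have := key c
    rw [dl_self, dl_ne n1, dl_ne a1, dl_ne hcon.1, dl_ne hcon.2] at this
    linarith [dl_nonneg d' c, dl_nonneg q c, dl_nonneg p' c]
  by_cases hcp : c = p
  · subst hcp
    have hdq : d ≠ q := by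
      rintro rfl
      apply hxy
      apply tv_ext
      intro e
      linarith [e1 e, e3 e]
    have key2 : ∀ e, dl d' e - dl d e - dl c' e = dl q' e - dl q e - dl p' e := by
      intro e
      linarith [key e]
    by_cases hdd : d = d'
    · subst hdd
      have hpc : p' = c' := by
        by_contra hcon
        have := key2 p'
        rw [dl_ne hcon, dl_self, dl_ne n4] at this
        linarith [dl_nonneg q p']
      subst hpc
      have hqq : q = q' := by
        by_contra hcon
        have := key2 q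
        rw [dl_self, dl_ne hcon] at this
        linarith
      subst hqq
      -- the link of a coarse vertex
      have kcc : kap c = kap p' := by linear_combination k2 - k1
      have kdq : kap d = kap q := by linear_combination k1 - k3
      have nd1 : ¬ fc b3 i3 d := fun h => hdq (kap_inj g h hq kdq)
      have nd2 : ¬ fc b2 i2 c := fun h => a1 (kap_inj g h hc' kcc)
      have fd : f.1 d = 0 := f3 d nd1
      have xc : x.1 c = 0 := f2' c nd2
      obtain ⟨z, hz, hcz, hdz⟩ := fc_third g.hK hc hd n1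
      have hs := cls_fc g x f1' hc hd hz n1 hcz hdz
      have hsum := sum_H g x f1' hc hd hz n1 hcz hdz
      have xd : x.1 d = 1 := by rw [s1.2.1, fd]
      rw [xc, xd] at hs hsum
      have hH : ((x.1 z : ℕ) : ZMod 3) = -1 := by
        have h5 : ((H : ℕ) : ZMod 3) = 0 := (ZMod.natCast_eq_zero_iff _ _).2 (g.l3.trans g.lh)
        have h6 := congrArg (Nat.cast : ℕ → ZMod 3) hsum
        rw [h5] at h6
        push_cast at h6
        linear_combination h6
      rw [hH, hx] at hs
      have kz1 := kap_ne g.hK g.ev hc hz hcz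
      have kz2 := kap_ne g.hK g.ev hd hz hdz
      have : ∀ u v w : ZMod 3, v = u + 1 → u ≠ w → v ≠ w →
          (1 : ZMod 3) = u * ((0 : ℕ) : ZMod 3) + v * ((1 : ℕ) : ZMod 3) + w * (-1) → False := by
        decide
      exact this _ _ _ k1 kz1 kz2 hs
    · have hpd : d = p' := by
        by_contra hcon
        have := key2 d
        rw [dl_self, dl_ne hdd, dl_ne hcon, dl_ne hdq] at this
        linarith [dl_nonneg c' d, dl_nonneg q' d]
      subst hpd
      have hqc : c' = q := by
        by_contra hcon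
        have := key2 c'
        rw [dl_self, dl_ne n2, dl_ne hcon] at this
        linarith [dl_nonneg q' c', dl_nonneg d c']
      subst hqc
      exact hdq (supp_inj g hp'0 hc'0 (by linear_combination k1 - k3))
  · have hcq : c = q' := hcpq.resolve_left hcp
    subst hcq
    have key2 : ∀ e, dl d' e - dl d e - dl c' e = dl p e - dl q e - dl p' e := by
      intro e
      linarith [key e]
    have hdp : p = d' := by
      by_contra hcon
      have := key2 p
      rw [dl_self, dl_ne n3, dl_ne a2, dl_ne hcon] at this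
      linarith [dl_nonneg d p, dl_nonneg c' p]
    subst hdp
    have hdq : d = q ∨ d = p' := by
      by_contra hcon
      push Not at hcon
      have := key2 d
      rw [dl_self, dl_ne hcon.1, dl_ne hcon.2] at this
      linarith [dl_nonneg c' d]
    rcases hdq with rfl | rfl
    · exact hcp (supp_inj g fc0 fp0 (by linear_combination k3 - k1))
    · have : ∀ u v : ZMod 3, v = u + 1 → u = v + 1 → False := by decide
      exact this _ _ k1 k4

/-- the direction of the street at a point of nonzero class -/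
theorem street_dir (g : Par K H L) {f x : TV K H} {b : Bool} {i : ZMod K} {k : CV K}
    (h : AdF b i k f x) (hL : L ∣ f.1 k) (hf : cls f ≠ 0) :
    ∃ c d, Stp f x c d ∧ ∀ e, ¬ L ∣ f.1 e ↔ (e = c ∨ e = d) := by
  obtain ⟨h1, h2, hk, c, d, hc, hd, hck, hdk, s⟩ := h
  have hcd := TV.Stp.ne s
  refine ⟨c, d, s, fun e => ⟨fun he => ?_, ?_⟩⟩
  · have h3 : fc b i e := by
      by_contra h3
      exact he (by rw [h1 e h3]; exact dvd_zero L)
    rcases fc_three hc hd hk hcd hck hdk h3 with h4 | h4 | h4
    · exact Or.inl h4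
    · exact Or.inr h4
    · subst h4
      exact absurd hL he
  · rintro (rfl | rfl) h3
    · exact hck (uniq_street g h1 hf hc hk h3 hL)
    · exact hdk (uniq_street g h1 hf hd hk h3 hL)

/-- the two neighbours on the street of a point of nonzero class -/
theorem street_two (g : Par K H L) {f x y : TV K H} (hf : cls f ≠ 0)
    (hx : ∃ b i k, AdF b i k f x ∧ L ∣ f.1 k) (hy : ∃ b i k, AdF b i k f y ∧ L ∣ f.1 k)
    (hxy : x ≠ y) : ∃ c d, c ≠ d ∧ (∀ e, (f.1 e : ℤ) = x.1 e + dl c e - dl d e) ∧
      (∀ e, (f.1 e : ℤ) = y.1 e + dl d e - dl c e) := by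
  obtain ⟨b, i, k, h1, h2⟩ := hx
  obtain ⟨b', i', k', h1', h2'⟩ := hy
  obtain ⟨c, d, s, hs⟩ := street_dir g h1 h2 hf
  obtain ⟨c', d', s', hs'⟩ := street_dir g h1' h2' hf
  have hc := (hs' c).1 ((hs c).2 (Or.inl rfl))
  have hd := (hs' d).1 ((hs d).2 (Or.inr rfl))
  have hcd := TV.Stp.ne s
  refine ⟨c, d, hcd, stp_fun s, ?_⟩
  have hcon : ¬ (c = c' ∧ d = d') := by
    rintro ⟨rfl, rfl⟩
    apply hxy
    apply tv_ext
    intro e
    linarith [stp_fun s e, stp_fun s' e]
  have : c = d' ∧ d = c' := by
    rcases hc with hc | hc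
    · rcases hd with hd | hd
      · exact absurd (hc.trans hd.symm) hcd
      · exact absurd ⟨hc, hd⟩ hcon
    · rcases hd with hd | hd
      · exact ⟨hc, hd⟩
      · exact absurd (hc.trans hd.symm) hcd
  rw [this.1, this.2]
  exact stp_fun s'

theorem TV.Ad.cls_ne' (g : Par K H L) {f x : TV K H} (h : Ad f x) : cls f ≠ cls x := by
  obtain ⟨b, i, k, h⟩ := h
  exact cls_ne g h

theorem TV.Un.ad {f x : TV K H} (h : Un L f x) : Ad f x := TE.ad (Or.inl h)

theorem TV.Un.street {f x : TV K H} (h : Un L f x) (hf : cls f = 2) :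
    ∃ b i k, AdF b i k f x ∧ L ∣ f.1 k := by
  rcases h with h | h
  · exact absurd hf h.2.1
  · exact h

/-- no triangles through a centre on a street -/
theorem tri2 (g : Par K H L) {f x y : TV K H} (hf : cls f = 2) (h1 : Un L f x) (h2 : Un L f y)
    (h3 : Ad x y) : False := by
  have hf0 : cls f ≠ 0 := by rw [hf]; decide
  have hxy : x ≠ y := by
    rintro rfl
    exact h3.cls_ne' g rfl
  obtain ⟨c, d, hcd, e1, e2⟩ := street_two g hf0 (h1.street hf) (h2.street hf) hxy
  obtain ⟨p, q, s⟩ := h3.stp
  have := stp_fun s d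
  have h4 := e1 d
  have h5 := e2 d
  rw [dl_self, dl_ne hcd.symm] at h4 h5
  linarith [dl_le p d, dl_nonneg q d]

/-- no quadrangles through a centre on a street -/
theorem quad2 (g : Par K H L) {f h x y : TV K H} (hf : cls f = 2) (h1 : Un L f x)
    (h2 : Un L f y) (h3 : Ad x h) (h4 : Ad y h) (hxy : x ≠ y) : f = h := by
  have hf0 : cls f ≠ 0 := by rw [hf]; decide
  obtain ⟨c, d, hcd, e1, e2⟩ := street_two g hf0 (h1.street hf) (h2.street hf) hxy
  obtain ⟨p, q, s⟩ := h3.stp
  obtain ⟨p', q', s'⟩ := h4.symm.stp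
  have t1 := stp_fun s
  have t2 := stp_fun s'
  have hd := t1 d
  have hd' := t2 d
  have hc := t1 c
  have hc' := t2 c
  have h5 := e1 d
  have h6 := e2 d
  have h7 := e1 c
  have h8 := e2 c
  rw [dl_self, dl_ne hcd.symm] at h5 h6
  rw [dl_self, dl_ne hcd] at h7 h8
  have u1 : d = p := dl_pos (by
    linarith [dl_le p d, dl_nonneg q d, dl_le p' d, dl_nonneg q' d])
  have u2 : c = q := dl_pos (by
    linarith [dl_le p c, dl_nonneg p c, dl_le q c, dl_le q' c, dl_nonneg p' c])
  subst u1
  subst u2
  apply tv_ext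
  intro e
  linarith [e1 e, t1 e]

theorem zmod3 (a b c : ZMod 3) (h1 : a ≠ b) (h2 : a ≠ c) (h3 : b ≠ c) :
    a = 2 ∨ b = 2 ∨ c = 2 := by
  revert a b c
  decide

/-- no triangles of edges of length one -/
theorem un_tri (g : Par K H L) {f x y : TV K H} (h1 : Un L f x) (h2 : Un L f y)
    (h3 : Un L x y) : False := by
  rcases zmod3 _ _ _ (h1.ad.cls_ne' g) (h2.ad.cls_ne' g) (h3.ad.cls_ne' g) with h | h | h
  · exact tri2 g h h1 h2 h3.ad
  · exact tri2 g h h1.symm h3 h2.ad
  · exact tri2 g h h2.symm h3.symm h1.ad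

/-- no quadrangles of edges of length one -/
theorem un_quad (g : Par K H L) {f h x y : TV K H} (h1 : Un L f x) (h2 : Un L f y)
    (h3 : Un L x h) (h4 : Un L y h) : f = h ∨ x = y := by
  by_cases hf : cls f = 2
  · by_cases hxy : x = y
    · exact Or.inr hxy
    · exact Or.inl (quad2 g hf h1 h2 h3.ad h4.ad hxy)
  by_cases hh : cls h = 2
  · by_cases hxy : x = y
    · exact Or.inr hxy
    · exact Or.inl (quad2 g hh h3.symm h4.symm h1.ad.symm h2.ad.symm hxy).symm
  by_cases hx : cls x = 2
  · by_cases hfh : f = h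
    · exact Or.inl hfh
    · exact Or.inr (quad2 g hx h1.symm h3 h2.ad h4.ad.symm hfh)
  by_cases hy : cls y = 2
  · by_cases hfh : f = h
    · exact Or.inl hfh
    · exact Or.inr (quad2 g hy h2.symm h4 h1.ad h3.ad.symm hfh).symm
  have n1 := h1.ad.cls_ne' g
  have n2 := h2.ad.cls_ne' g
  have n3 := h3.ad.cls_ne' g
  have n4 := h4.ad.cls_ne' g
  have key : ∀ a b c d : ZMod 3, a ≠ 2 → b ≠ 2 → c ≠ 2 → d ≠ 2 → a ≠ c → a ≠ d → c ≠ b →
      (a = 0 ∧ b = 0 ∧ c = 1 ∧ d = 1) ∨ (a = 1 ∧ b = 1 ∧ c = 0 ∧ d = 0) := by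
    decide
  rcases key _ _ _ _ hf hh hx hy n1 n2 n3 with ⟨a, b, c, d⟩ | ⟨a, b, c, d⟩
  · exact quad g a b c d h1.ad h3.ad.symm h2.ad h4.ad.symm
  · exact (quad g c d a b h1.ad.symm h2.ad.symm h3.ad h4.ad).symm

/-- a centre has no edge of length one -/
theorem rim_not_un {f x h : TV K H} (h1 : Rim (Sum.inl f : DV K H L) x) : ¬ Un L f h := by
  rintro (h | ⟨b, i, k, h, hL⟩)
  · exact h.2.1 h1.1
  · exact h1.2.1 ⟨b, i, k, h.1, h.2.2.1, hL⟩

/-- a centre is not on the rim of a face -/
theorem centre_not_rim (g : Par K H L) {f : TV K H} {x : DV K H L} (hf : cls f = 2)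
    (hs : ¬ OnS L f) : ¬ Rim x f := by
  intro h
  rcases x with f' | τ
  · exact h.2.2.cls_ne' g (h.1.trans hf.symm)
  · obtain ⟨h1, h2, -⟩ := h
    obtain ⟨t1, t2, t3, t4, -⟩ := τ.2
    rcases h2 with h2 | ⟨k, h2⟩
    · apply hs
      rw [h2]
      exact ⟨_, _, _, t1, t2, t3⟩
    · exact cls_ne g h2 (t4.trans hf.symm)

/-- the common neighbour of a centre and a point of the rim -/
theorem spoke_lem (g : Par K H L) {x : DV K H L} {f : TV K H} (h : Rim x f) {v : GV K H L}
    (h1 : (G K H L).Adj v (Sum.inl x)) (h2 : (G K H L).Adj v (Sum.inl (Sum.inl f))) :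
    v = Sum.inr ⟨(x, f), h⟩ := by
  rcases v with v | e
  · exfalso
    rcases x with x | τ
    · rcases v with v | τ
      · exact rim_not_un h (TV.Un.symm h1)
      · exact h1
    · rcases v with v | τ <;> exact h1
  · have h3 : x = e.1.1 ∧ f = e.1.2 := by
      rcases h1 with h1 | h1
      · refine ⟨h1, ?_⟩
        rcases h2 with h2 | h2
        · exfalso
          rw [← h2] at h1
          subst h1
          exact h.2.2.cls_ne' g rfl
        · injection h2
      · exfalso
        rw [h1] at h
        exact centre_not_rim g h.1 h.2.1 e.2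
    obtain ⟨rfl, rfl⟩ := h3
    rfl

/-- the neighbours of a spoke are adjacent only to it -/
theorem spoke_nbr (e : Spk K H L) {v : GV K H L} (h : (G K H L).Adj (Sum.inr e) v) :
    v = Sum.inl e.1.1 ∨ v = Sum.inl (Sum.inl e.1.2) := by
  rcases v with v | e'
  · rcases h with h | h
    · exact Or.inl (congrArg _ h)
    · exact Or.inr (congrArg _ h)
  · exact absurd h (fun h => h)

theorem rim_not_adj {x : DV K H L} {f : TV K H} (h : Rim x f) :
    ¬ (G K H L).Adj (Sum.inl x) (Sum.inl (Sum.inl f)) := by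
  intro h1
  rcases x with x | τ
  · exact rim_not_un h h1
  · exact h1

/-- no triangle through a spoke -/
theorem tri_spoke (e : Spk K H L) {u v : GV K H L} (h1 : (G K H L).Adj (Sum.inr e) u)
    (h2 : (G K H L).Adj (Sum.inr e) v) (h3 : (G K H L).Adj u v) : False := by
  rcases spoke_nbr e h1 with rfl | rfl <;> rcases spoke_nbr e h2 with rfl | rfl
  · exact (G K H L).loopless.irrefl _ h3
  · exact rim_not_adj e.2 h3
  · exact rim_not_adj e.2 h3.symm
  · exact (G K H L).loopless.irrefl _ h3

/-- no quadrangle through a spoke -/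
theorem quad_spoke (g : Par K H L) (e : Spk K H L) {u v w : GV K H L}
    (h1 : (G K H L).Adj (Sum.inr e) u) (h2 : (G K H L).Adj (Sum.inr e) v) (huv : u ≠ v)
    (h3 : (G K H L).Adj u w) (h4 : (G K H L).Adj v w) : w = Sum.inr e := by
  rcases spoke_nbr e h1 with rfl | rfl <;> rcases spoke_nbr e h2 with rfl | rfl
  · exact absurd rfl huv
  · exact spoke_lem g e.2 h3.symm h4.symm
  · exact spoke_lem g e.2 h4.symm h3.symm
  · exact absurd rfl huv

/-- an edge without spokes has length one -/
theorem adj_inl {x y : DV K H L} (h : (G K H L).Adj (Sum.inl x) (Sum.inl y)) :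
    ∃ f f', x = Sum.inl f ∧ y = Sum.inl f' ∧ Un L f f' := by
  rcases x with x | τ
  · rcases y with y | τ'
    · exact ⟨x, y, rfl, rfl, h⟩
    · exact absurd h (fun h => h)
  · rcases y with y | τ' <;> exact absurd h (fun h => h)

/-- no triangles -/
theorem no_tri (g : Par K H L) {u v w : GV K H L} (h1 : (G K H L).Adj u v)
    (h2 : (G K H L).Adj u w) (h3 : (G K H L).Adj v w) : False := by
  rcases u with u | e
  · rcases v with v | e
    · rcases w with w | e
      · obtain ⟨f, x, rfl, rfl, s1⟩ := adj_inl h1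
        obtain ⟨f', y, h4, rfl, s2⟩ := adj_inl h2
        injection h4 with h4
        subst h4
        exact un_tri g s1 s2 h3
      · exact tri_spoke e h2.symm h3.symm h1
    · exact tri_spoke e h1.symm h3 h2
  · exact tri_spoke e h1 h2 h3

/-- no quadrangles -/
theorem no_quad (g : Par K H L) {u v w z : GV K H L} (h1 : (G K H L).Adj u v)
    (h2 : (G K H L).Adj v w) (h3 : (G K H L).Adj w z) (h4 : (G K H L).Adj z u) :
    u = w ∨ v = z := by
  by_cases huw : u = w
  · exact Or.inl huw
  by_cases hvz : v = z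
  · exact Or.inr hvz
  exfalso
  rcases u with u | e
  swap
  · exact huw (quad_spoke g e h1 h4.symm hvz h2 h3.symm).symm
  rcases w with w | e
  swap
  · exact huw (quad_spoke g e h2.symm h3 hvz h1.symm h4)
  rcases v with v | e
  swap
  · exact hvz (quad_spoke g e h1.symm h2 huw h4.symm h3).symm
  rcases z with z | e
  swap
  · exact hvz (quad_spoke g e h4 h3.symm huw h1 h2.symm)
  obtain ⟨f, x, rfl, rfl, s1⟩ := adj_inl h1
  obtain ⟨f', y, rfl, rfl, s2⟩ := adj_inl h3
  have s3 : Un L x f' := h2
  have s4 : Un L y f := h4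
  rcases un_quad g s1 s4.symm s3 s2.symm with h | h
  · exact huw (by rw [h])
  · exact hvz (by rw [h])

/-- the girth is at least five -/
theorem girth (g : Par K H L) : 5 ≤ (G K H L).egirth := by
  rw [SimpleGraph.le_egirth]
  intro a w hw
  have h3 := hw.three_le_length
  by_contra hcon
  have hlen : w.length < 5 := by
    by_contra h
    push Not at h
    exact hcon (by exact_mod_cast h)
  rcases w with _ | ⟨h1, w⟩
  · simp at h3
  rcases w with _ | ⟨h2, w⟩
  · simp at h3
  rcases w with _ | ⟨h4, w⟩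
  · simp at h3
  rcases w with _ | ⟨h5, w⟩
  · exact no_tri g h1 h4.symm h2
  rcases w with _ | ⟨h6, w⟩
  · have hnd := hw.2
    rcases no_quad g h1 h2 h4 h5 with h | h
    · subst h
      simp at hnd
    · subst h
      simp at hnd
  · simp at hlen
    omega

end

end Pool.Agent.H3.FF
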