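import Pool.Agent.H58.FG.MDefs

/-!
# MP_4c8b8e_co: the graph lies over the lattice
-/

set_option autoImplicit false
set_option linter.unusedSectionVars false
set_option linter.unusedVariables false

open scoped BigOperators

namespace Pool.Agent.H3.FF

open CV TV Tz Pool.Agent.FM Classical

open Pool.Agent.H58.FG (TL)

section

variable {K H L : ℕ} [NeZero K]

/-- the path of a spoke -/
theorem two_walk (e : Spk K H L) {f f' : TV K H} (h1 : bp (Sum.inl e.1.1 : GV K H L) = f ∨
    bp (Sum.inl e.1.1 : GV K H L) = f')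
    (h2 : bp (Sum.inl (Sum.inl e.1.2) : GV K H L) = f ∨
      bp (Sum.inl (Sum.inl e.1.2) : GV K H L) = f') {x : DV K H L} (hx : x = e.1.1) :
    ∃ w : (G K H L).Walk (Sum.inl x) (Sum.inl (Sum.inl e.1.2)), w.length ≤ 2 ∧
      ∀ z ∈ w.support, bp z = f ∨ bp z = f' := by
  subst hx
  refine ⟨SimpleGraph.Walk.cons (adj_spoke e).symm
    (SimpleGraph.Walk.cons (adj_spoke' e) SimpleGraph.Walk.nil), by simp, ?_⟩
  intro z hz
  simp only [SimpleGraph.Walk.support_cons, SimpleGraph.Walk.support_nil, List.mem_cons,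
    List.not_mem_nil, or_false] at hz
  rcases hz with rfl | rfl | rfl
  · exact h1
  · exact h1
  · exact h2

/-- a path to the point of the lattice inside the fibre -/
theorem to_pt (g : Par K H L) (u : GV K H L) :
    ∃ w : (G K H L).Walk u (Sum.inl (Sum.inl (bp u))), w.length ≤ 3 ∧
      ∀ z ∈ w.support, bp z = bp u := by
  have hub : ∀ x : DV K H L, ∃ w : (G K H L).Walk (Sum.inl x) (Sum.inl (Sum.inl (hp x))),
      w.length ≤ 2 ∧ ∀ z ∈ w.support, bp z = hp x := by
    intro x
    rcases x with f | τ
    · change ∃ w : (G K H L).Walk (Sum.inl (Sum.inl f)) (Sum.inl (Sum.inl f)),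
        w.length ≤ 2 ∧ ∀ z ∈ w.support, bp z = f
      refine ⟨SimpleGraph.Walk.nil, by simp, ?_⟩
      intro z hz
      simp only [SimpleGraph.Walk.support_nil, List.mem_singleton] at hz
      rw [hz]
      rfl
    · have hr : Rim (Sum.inr τ : DV K H L) (hp (Sum.inr τ : DV K H L)) :=
        ⟨τ.2.1, Or.inl rfl, Or.inl rfl⟩
      obtain ⟨w, h1, h2⟩ := two_walk (f := τ.f) (f' := τ.f) ⟨(Sum.inr τ, _), hr⟩ (Or.inl rfl)
        (Or.inl rfl) rfl
      exact ⟨w, h1, fun z hz => (h2 z hz).elim id id⟩
  rcases u with x | e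
  · obtain ⟨w, h1, h2⟩ := hub x
    exact ⟨w, h1.trans (by norm_num), h2⟩
  · obtain ⟨w, h1, h2⟩ := hub e.1.1
    refine ⟨SimpleGraph.Walk.cons (adj_spoke e) w, Nat.succ_le_succ h1, ?_⟩
    intro z hz
    rw [SimpleGraph.Walk.support_cons, List.mem_cons] at hz
    rcases hz with rfl | hz
    · rfl
    · exact h2 z hz

/-- a path between neighbouring points of the lattice -/
theorem pt_pt (g : Par K H L) {f f' : TV K H} (h : Ad f f') :
    ∃ w : (G K H L).Walk (Sum.inl (Sum.inl f)) (Sum.inl (Sum.inl f')), w.length ≤ 5 ∧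
      ∀ z ∈ w.support, bp z = f ∨ bp z = f' := by
  have key : ∀ f f' : TV K H, Ad f f' → cls f = 2 →
      ∃ w : (G K H L).Walk (Sum.inl (Sum.inl f)) (Sum.inl (Sum.inl f')), w.length ≤ 5 ∧
        ∀ z ∈ w.support, bp z = f ∨ bp z = f' := by
    intro f f' h hf
    obtain ⟨x, hx, hr⟩ := rim_ex (L := L) g hf h
    obtain ⟨w, h1, h2⟩ := to_pt g (Sum.inl x : GV K H L)
    have hx' : bp (Sum.inl x : GV K H L) = f := hx
    obtain ⟨w1, hl1, hs1⟩ := two_walk (f := f) (f' := f') ⟨(x, f'), hr⟩ (Or.inl hx)
      (Or.inr rfl) rfl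
    have hw : ∀ (y : TV K H) (e : y = f) (w : (G K H L).Walk (Sum.inl x) (Sum.inl (Sum.inl y))),
        w.length ≤ 3 → (∀ z ∈ w.support, bp z = f) →
        ∃ w' : (G K H L).Walk (Sum.inl (Sum.inl f)) (Sum.inl x), w'.length ≤ 3 ∧
          ∀ z ∈ w'.support, bp z = f := by
      rintro y rfl w h1 h2
      refine ⟨w.reverse, by rw [SimpleGraph.Walk.length_reverse]; exact h1, fun z hz => ?_⟩
      rw [SimpleGraph.Walk.support_reverse, List.mem_reverse] at hz
      exact h2 z hz
    obtain ⟨w', h3, h4⟩ := hw _ hx' w h1 (fun z hz => (h2 z hz).trans hx')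
    refine ⟨w'.append w1, ?_, ?_⟩
    · rw [SimpleGraph.Walk.length_append]
      omega
    · intro z hz
      rw [SimpleGraph.Walk.mem_support_append_iff] at hz
      rcases hz with hz | hz
      · exact Or.inl (h4 z hz)
      · exact hs1 z hz
  by_cases h1 : cls f = 2
  · exact key f f' h h1
  by_cases h2 : cls f' = 2
  · obtain ⟨w, h3, h4⟩ := key f' f h.symm h2
    refine ⟨w.reverse, by rw [SimpleGraph.Walk.length_reverse]; exact h3, fun z hz => ?_⟩
    rw [SimpleGraph.Walk.support_reverse, List.mem_reverse] at hz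
    exact (h4 z hz).symm
  · have ha : (G K H L).Adj (Sum.inl (Sum.inl f)) (Sum.inl (Sum.inl f')) := Or.inl ⟨h, h1, h2⟩
    refine ⟨SimpleGraph.Walk.cons ha SimpleGraph.Walk.nil, by simp, fun z hz => ?_⟩
    simp only [SimpleGraph.Walk.support_cons, SimpleGraph.Walk.support_nil, List.mem_cons,
      List.not_mem_nil, or_false] at hz
    rcases hz with rfl | rfl
    · exact Or.inl rfl
    · exact Or.inr rfl

/-- the graph lies over the lattice -/
theorem ov (g : Par K H L) : Ov (TL K H) (G K H L) bp where
  adj u v h := by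
    rcases u with x | e
    · rcases v with y | e'
      · obtain ⟨f, f', rfl, rfl, s⟩ := adj_inl h
        exact Or.inr s.ad
      · rcases spoke_nbr e' h.symm with h1 | h1
        · left
          rw [h1]
          rfl
        · rw [h1]
          rcases hp_rim e'.2 with h2 | h2
          · left
            show e'.1.2 = hp e'.1.1
            exact h2
          · right
            exact h2.symm
    · rcases v with y | e'
      · rcases spoke_nbr e h with h1 | h1
        · left
          rw [h1]
          rfl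
        · rw [h1]
          rcases hp_rim e.2 with h2 | h2
          · left
            show hp e.1.1 = e.1.2
            exact h2.symm
          · right
            exact h2
      · exact absurd h (fun h => h)
  mov u v h := by
    obtain ⟨w1, h1, h2⟩ := to_pt g u
    obtain ⟨w3, h5, h6⟩ := to_pt g v
    have hw2 : ∃ w2 : (G K H L).Walk (Sum.inl (Sum.inl (bp u))) (Sum.inl (Sum.inl (bp v))),
        w2.length ≤ 5 ∧ ∀ z ∈ w2.support, bp z = bp u ∨ bp z = bp v := by
      rcases h with h | h
      · rw [← h]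
        refine ⟨SimpleGraph.Walk.nil, by simp, fun z hz => ?_⟩
        simp only [SimpleGraph.Walk.support_nil, List.mem_singleton] at hz
        rw [hz]
        exact Or.inl rfl
      · exact pt_pt g h
    obtain ⟨w2, h3, h4⟩ := hw2
    refine ⟨(w1.append w2).append w3.reverse, ?_, ?_⟩
    · rw [SimpleGraph.Walk.length_append, SimpleGraph.Walk.length_append,
        SimpleGraph.Walk.length_reverse]
      omega
    · intro z hz
      rw [SimpleGraph.Walk.mem_support_append_iff, SimpleGraph.Walk.mem_support_append_iff,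
        SimpleGraph.Walk.support_reverse, List.mem_reverse] at hz
      rcases hz with (hz | hz) | hz
      · exact Or.inl (h2 z hz)
      · exact h4 z hz
      · exact Or.inr (h6 z hz)
  sur f := ⟨Sum.inl (Sum.inl f), rfl⟩

end

end Pool.Agent.H3.FF
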