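import Pool.Agent.H3.FF.TriL
import Pool.Agent.H58.FG.MStm

/-!
# MP_4c8b8e_co: rows M1, M2, M3 of the metric block
-/

set_option autoImplicit false

namespace Pool.Agent.H3.FF

open Pool.Agent.H58.FG

/-- FIRE-M1 -/
theorem sov : SOv := fun _ _ _ _ g => ov g

/-- FIRE-M2 -/
theorem sfib : SFib := fun _ _ _ _ g f => card_fib g f

/-- FIRE-M3 -/
theorem stri : STri := fun _ _ _ _ g => tri_TL g

end Pool.Agent.H3.FF
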