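import Pool.Agent.H3.FF.Defs

/-!
# MP_4c8b8e_co: drawings on the sphere, the boundary of the bipyramid
-/

set_option autoImplicit false

open scoped BigOperators

namespace Pool.Agent.H3.FF

open CV

/-- the open cone spanned by two vectors -/
def cone (a b : ℝ × ℝ × ℝ) : Set (ℝ × ℝ × ℝ) :=
  {x | ∃ s t : ℝ, 0 < s ∧ 0 < t ∧ x = s • a + t • b}

/-- A drawing of `G` on the unit sphere: the vertex `v` is drawn at the direction of the vector
`p v` and the edge `u v` as the arc of the great circle of the directions of the positive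
combinations of `p u` and `p v`. Different vertices have different directions, no vertex lies on
an edge, and different edges do not cross. -/
structure IsDrawing {V : Type} (G : SimpleGraph V) (p : V → ℝ × ℝ × ℝ) : Prop where
  ne : ∀ v, p v ≠ 0
  inj : ∀ u v (s : ℝ), 0 < s → p u = s • p v → u = v
  arc : ∀ u v, G.Adj u v → (0 : ℝ × ℝ × ℝ) ∉ cone (p u) (p v)
  vert : ∀ u v w, G.Adj u v → p w ∉ cone (p u) (p v)
  edge : ∀ u v u' v', G.Adj u v → G.Adj u' v' →
    (cone (p u) (p v) ∩ cone (p u') (p v')).Nonempty → s(u, v) = s(u', v')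

/-- planar graphs: drawn on the sphere without crossings by arcs of great circles -/
def Planar {V : Type} (G : SimpleGraph V) : Prop := ∃ p : V → ℝ × ℝ × ℝ, IsDrawing G p

section

variable {K : ℕ} [NeZero K]

/-- the position of a coarse vertex -/
noncomputable def pt : CV K → ℝ × ℝ × ℝ
  | N => (0, 0, 1)
  | S => (0, 0, -1)
  | A i => ((i.val : ℝ) - 1, ((i.val : ℝ) - 1) ^ 2 - 1, 0)

/-- the point with given weights -/
noncomputable def ev (w : CV K → ℝ) : ℝ × ℝ × ℝ := ∑ c, w c • pt c

omit [NeZero K] in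
theorem fc_P (b : Bool) (i : ZMod K) : fc b i (P b) := Or.inl rfl

omit [NeZero K] in
theorem fc_A (b : Bool) (i : ZMod K) : fc b i (A i) := Or.inr (Or.inl rfl)

omit [NeZero K] in
theorem fc_A' (b : Bool) (i : ZMod K) : fc b i (A (i + 1)) := Or.inr (Or.inr rfl)

theorem val_succ (hK : 4 ≤ K) (i : ZMod K) :
    ((i + 1).val = i.val + 1 ∧ i.val + 1 < K) ∨ ((i + 1).val = 0 ∧ i.val + 1 = K) := by
  have h1 : i.val < K := ZMod.val_lt i
  have hone : (1 : ZMod K).val = 1 := by
    have : Fact (1 < K) := ⟨by omega⟩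
    exact ZMod.val_one K
  have h2 : (i + 1).val = (i.val + 1) % K := by rw [ZMod.val_add, hone]
  rcases Nat.lt_or_ge (i.val + 1) K with h | h
  · left
    exact ⟨by rw [h2, Nat.mod_eq_of_lt h], h⟩
  · right
    have h3 : i.val + 1 = K := by omega
    exact ⟨by rw [h2, h3, Nat.mod_self], h3⟩

omit [NeZero K] in
theorem fc_A_iff (b : Bool) (i j : ZMod K) : fc b i (A j) ↔ j = i ∨ j = i + 1 := by
  constructor
  · rintro (h | h | h)
    · cases b <;> simp [P] at h
    · left; injection h
    · right; injection h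
  · rintro (rfl | rfl)
    · exact fc_A _ _
    · exact fc_A' _ _

omit [NeZero K] in
theorem fc_apex_iff (b b' : Bool) (i : ZMod K) : fc b i (P b') ↔ b' = b := by
  constructor
  · rintro (h | h | h)
    · cases b <;> cases b' <;> simp [P] at h ⊢
    · cases b' <;> simp [P] at h
    · cases b' <;> simp [P] at h
  · rintro rfl
    exact fc_P _ _

omit [NeZero K] in
theorem cases_CV (c : CV K) : (∃ b, c = P b) ∨ ∃ j, c = A j := by
  rcases c with _ | _ | j
  · exact Or.inl ⟨true, rfl⟩
  · exact Or.inl ⟨false, rfl⟩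
  · exact Or.inr ⟨j, rfl⟩

/-- the functional of a coarse face -/
theorem exists_fn (hK : 4 ≤ K) (b : Bool) (i : ZMod K) : ∃ α β γ : ℝ,
    (∀ c : CV K, fc b i c → α * (pt c).1 + β * (pt c).2.1 + γ * (pt c).2.2 = 1) ∧
    ∀ c : CV K, ¬ fc b i c → α * (pt c).1 + β * (pt c).2.1 + γ * (pt c).2.2 < 1 := by
  have hKr : (4 : ℝ) ≤ K := by exact_mod_cast hK
  -- the plane part
  obtain ⟨α, β, h1, h2⟩ : ∃ α β : ℝ,
      (∀ j : ZMod K, (j = i ∨ j = i + 1) →
        α * ((j.val : ℝ) - 1) + β * (((j.val : ℝ) - 1) ^ 2 - 1) = 1) ∧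
      ∀ j : ZMod K, ¬ (j = i ∨ j = i + 1) →
        α * ((j.val : ℝ) - 1) + β * (((j.val : ℝ) - 1) ^ 2 - 1) < 1 := by
    rcases val_succ hK i with ⟨hs, hlt⟩ | ⟨hs, heq⟩
    · set n : ℝ := (i.val : ℝ) with hn
      have hn0 : 0 ≤ n := Nat.cast_nonneg _
      have hD : 0 < n ^ 2 - n + 1 := by nlinarith [sq_nonneg (n - 1)]
      refine ⟨(2 * n - 1) / (n ^ 2 - n + 1), -1 / (n ^ 2 - n + 1), ?_, ?_⟩
      · intro j hj
        have hv : (j.val : ℝ) = n ∨ (j.val : ℝ) = n + 1 := by
          rcases hj with rfl | rfl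
          · left; rfl
          · right; rw [hs]; push_cast; rfl
        rw [div_mul_eq_mul_div, div_mul_eq_mul_div, ← add_div, div_eq_one_iff_eq hD.ne']
        rcases hv with hv | hv <;> rw [hv] <;> ring
      · intro j hj
        have hv1 : (j.val : ℤ) ≠ i.val := by
          intro h
          exact hj (Or.inl (ZMod.val_injective K (by exact_mod_cast h)))
        have hv2 : (j.val : ℤ) ≠ i.val + 1 := by
          intro h
          exact hj (Or.inr (ZMod.val_injective K (by rw [hs]; exact_mod_cast h)))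
        have hpos : (0 : ℤ) < ((j.val : ℤ) - i.val) * ((j.val : ℤ) - i.val - 1) := by
          rcases lt_or_gt_of_ne hv1 with h | h
          · have a1 : (j.val : ℤ) - i.val ≤ -1 := by omega
            nlinarith
          · have a1 : (2 : ℤ) ≤ (j.val : ℤ) - i.val := by omega
            nlinarith
        have hposR : (0 : ℝ) < ((j.val : ℝ) - n) * ((j.val : ℝ) - n - 1) := by
          have := hpos
          rw [hn]
          exact_mod_cast this
        rw [div_mul_eq_mul_div, div_mul_eq_mul_div, ← add_div, div_lt_one hD]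
        nlinarith
    · have hK3 : (0 : ℝ) < (K : ℝ) - 3 := by linarith
      have hiv : (i.val : ℝ) = (K : ℝ) - 1 := by
        have : ((i.val + 1 : ℕ) : ℝ) = (K : ℝ) := by rw [heq]
        push_cast at this
        linarith
      refine ⟨-1, 1 / ((K : ℝ) - 3), ?_, ?_⟩
      · intro j hj
        have hv : (j.val : ℝ) = (K : ℝ) - 1 ∨ (j.val : ℝ) = 0 := by
          rcases hj with rfl | rfl
          · left; exact hiv
          · right; rw [hs]; simp
        rw [div_mul_eq_mul_div, one_mul]
        rcases hv with hv | hv <;> rw [hv] <;> field_simp <;> ring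
      · intro j hj
        have hv1 : (j.val : ℤ) ≠ i.val := by
          intro h
          exact hj (Or.inl (ZMod.val_injective K (by exact_mod_cast h)))
        have hv2 : (j.val : ℤ) ≠ 0 := by
          intro h
          exact hj (Or.inr (ZMod.val_injective K (by rw [hs]; exact_mod_cast h)))
        have hlt : j.val < K := ZMod.val_lt j
        have hpos : (0 : ℤ) < (i.val - (j.val : ℤ)) * (j.val : ℤ) := by
          have a1 : (1 : ℤ) ≤ i.val - (j.val : ℤ) := by omega
          have a2 : (1 : ℤ) ≤ j.val := by omega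
          nlinarith
        have hposR : (0 : ℝ) < ((K : ℝ) - 1 - (j.val : ℝ)) * (j.val : ℝ) := by
          rw [← hiv]
          exact_mod_cast hpos
        have e : (-1 : ℝ) * ((j.val : ℝ) - 1) + 1 / ((K : ℝ) - 3) * (((j.val : ℝ) - 1) ^ 2 - 1) =
            1 - ((K : ℝ) - 1 - (j.val : ℝ)) * (j.val : ℝ) / ((K : ℝ) - 3) := by
          field_simp
          ring
        rw [e]
        have := div_pos hposR hK3
        linarith
  refine ⟨α, β, if b then 1 else -1, ?_, ?_⟩
  · rintro c hc
    rcases cases_CV c with ⟨b', rfl⟩ | ⟨j, rfl⟩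
    · rw [fc_apex_iff] at hc
      subst hc
      cases b' <;> simp [P, pt]
    · have := h1 j ((fc_A_iff b i j).1 hc)
      simp only [pt]
      rw [mul_zero, add_zero]
      exact this
  · rintro c hc
    rcases cases_CV c with ⟨b', rfl⟩ | ⟨j, rfl⟩
    · rw [fc_apex_iff] at hc
      cases b <;> cases b' <;> simp [P, pt] at hc ⊢
    · have := h2 j (fun h => hc ((fc_A_iff b i j).2 h))
      simp only [pt]
      rw [mul_zero, add_zero]
      exact this

theorem succ_ne (hK : 4 ≤ K) (i : ZMod K) : i ≠ i + 1 := by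
  intro h
  have h1 := congrArg ZMod.val h
  rcases val_succ hK i with ⟨h2, h3⟩ | ⟨h2, h3⟩ <;> omega

theorem succ_succ_ne (hK : 4 ≤ K) (i : ZMod K) : i ≠ i + 1 + 1 := by
  intro h
  have h1 := congrArg ZMod.val h
  rcases val_succ hK i with ⟨h2, h3⟩ | ⟨h2, h3⟩ <;>
    rcases val_succ hK (i + 1) with ⟨h4, h5⟩ | ⟨h4, h5⟩ <;> omega

theorem sum3 (hK : 4 ≤ K) {M : Type} [AddCommMonoid M] {b : Bool} {i : ZMod K} {w : CV K → M}
    (h : Sp b i w) : ∑ c, w c = w (P b) + w (A i) + w (A (i + 1)) := by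
  have hne : (P b : CV K) ≠ A i := by cases b <;> simp [P]
  have hne' : (P b : CV K) ≠ A (i + 1) := by cases b <;> simp [P]
  have hne2 : (A i : CV K) ≠ A (i + 1) := fun h => succ_ne hK i (by injection h)
  rw [← Finset.sum_subset (Finset.subset_univ ({P b, A i, A (i + 1)} : Finset (CV K)))]
  · rw [Finset.sum_insert (by simp [hne, hne']), Finset.sum_pair hne2, add_assoc]
  · intro c _ hc
    apply h
    rintro (h1 | h1 | h1) <;> exact hc (by simp [h1])

/-- the faces are linearly independent -/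
theorem ev_zero (hK : 4 ≤ K) {b : Bool} {i : ZMod K} {u : CV K → ℝ} (h : Sp b i u)
    (he : ev u = 0) : u = 0 := by
  have h1 : Sp b i fun c => u c • pt c := fun c hc => by
    show u c • pt c = 0
    rw [h c hc, zero_smul]
  have h2 := sum3 hK h1
  rw [show (∑ c, u c • pt c) = ev u from rfl, he] at h2
  have hx := congrArg (fun v : ℝ × ℝ × ℝ => v.1) h2
  have hy := congrArg (fun v : ℝ × ℝ × ℝ => v.2.1) h2
  have hz := congrArg (fun v : ℝ × ℝ × ℝ => v.2.2) h2
  have hP : u (P b) = 0 := by
    cases b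
    · simp [pt, P] at hz
      exact hz
    · simp [pt, P] at hz
      exact hz.symm
  have hx' : u (A i) * ((i.val : ℝ) - 1) + u (A (i + 1)) * (((i + 1).val : ℝ) - 1) = 0 := by
    have := hx
    simp only [Prod.fst_zero, Prod.fst_add, Prod.smul_fst, pt, smul_eq_mul, hP, zero_mul,
      zero_add] at this
    linarith
  have hy' : u (A i) * (((i.val : ℝ) - 1) ^ 2 - 1) +
      u (A (i + 1)) * ((((i + 1).val : ℝ) - 1) ^ 2 - 1) = 0 := by
    have := hy
    simp only [Prod.snd_zero, Prod.fst_zero, Prod.snd_add, Prod.fst_add, Prod.smul_snd,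
      Prod.smul_fst, pt, smul_eq_mul, hP, zero_mul, zero_add] at this
    linarith
  have hA : u (A i) = 0 ∧ u (A (i + 1)) = 0 := by
    rcases val_succ hK i with ⟨hs, hlt⟩ | ⟨hs, heq⟩
    · have hs' : ((i + 1).val : ℝ) = (i.val : ℝ) + 1 := by rw [hs]; push_cast; rfl
      rw [hs'] at hx' hy'
      set n : ℝ := (i.val : ℝ)
      have hD : n ^ 2 - n + 1 ≠ 0 := by nlinarith [sq_nonneg (n - 1 / 2)]
      constructor
      · have : u (A i) * (n ^ 2 - n + 1) = 0 := by
          linear_combination (n ^ 2 - 1) * hx' - n * hy'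
        exact (mul_eq_zero.1 this).resolve_right hD
      · have : u (A (i + 1)) * (n ^ 2 - n + 1) = 0 := by
          linear_combination (n - 1) * hy' - ((n - 1) ^ 2 - 1) * hx'
        exact (mul_eq_zero.1 this).resolve_right hD
    · have hs' : ((i + 1).val : ℝ) = 0 := by rw [hs]; simp
      have hiv : (i.val : ℝ) = (K : ℝ) - 1 := by
        have : ((i.val + 1 : ℕ) : ℝ) = (K : ℝ) := by rw [heq]
        push_cast at this
        linarith
      have hKr : (4 : ℝ) ≤ K := by exact_mod_cast hK
      rw [hs', hiv] at hx' hy'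
      have hD : ((K : ℝ) - 2) ^ 2 - 1 ≠ 0 := by nlinarith
      have h5 : u (A i) * (((K : ℝ) - 2) ^ 2 - 1) = 0 := by linear_combination hy'
      have h6 := (mul_eq_zero.1 h5).resolve_right hD
      refine ⟨h6, ?_⟩
      rw [h6] at hx'
      linarith
  funext c
  by_cases hc : fc b i c
  · rcases hc with rfl | rfl | rfl
    · exact hP
    · exact hA.1
    · exact hA.2
  · exact h c hc

theorem fn_ev (α β γ : ℝ) (w : CV K → ℝ) :
    α * (ev w).1 + β * (ev w).2.1 + γ * (ev w).2.2 =
      ∑ c, w c * (α * (pt c).1 + β * (pt c).2.1 + γ * (pt c).2.2) := by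
  unfold ev
  rw [Prod.fst_sum, Prod.snd_sum, Prod.fst_sum, Prod.snd_sum, Finset.mul_sum, Finset.mul_sum,
    Finset.mul_sum, ← Finset.sum_add_distrib, ← Finset.sum_add_distrib]
  refine Finset.sum_congr rfl fun c _ => ?_
  simp only [Prod.smul_fst, Prod.smul_snd, smul_eq_mul]
  ring

theorem ev_sub (w w' : CV K → ℝ) : ev (fun c => w c - w' c) = ev w - ev w' := by
  unfold ev
  rw [← Finset.sum_sub_distrib]
  exact Finset.sum_congr rfl fun c _ => sub_smul _ _ _

/-- points of the boundary of the bipyramid have unique weights -/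
theorem ev_inj (hK : 4 ≤ K) {b b' : Bool} {i i' : ZMod K} {w w' : CV K → ℝ}
    (hw : ∀ c, 0 ≤ w c) (hw' : ∀ c, 0 ≤ w' c) (h : Sp b i w) (h' : Sp b' i' w')
    (he : ev w = ev w') : w = w' := by
  -- one inequality
  have key : ∀ (b b' : Bool) (i i' : ZMod K) (w w' : CV K → ℝ), (∀ c, 0 ≤ w c) →
      (∀ c, 0 ≤ w' c) → Sp b i w → Sp b' i' w' → ev w = ev w' →
      ∑ c, w c ≤ ∑ c, w' c ∧ (∑ c, w' c ≤ ∑ c, w c → Sp b i w') := by
    intro b b' i i' w w' hw hw' h h' he
    obtain ⟨α, β, γ, f1, f2⟩ := exists_fn hK b i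
    have e1 := fn_ev α β γ w
    have e2 := fn_ev α β γ w'
    rw [he, e2] at e1
    have e3 : ∑ c, w c * (α * (pt c).1 + β * (pt c).2.1 + γ * (pt c).2.2) = ∑ c, w c := by
      refine Finset.sum_congr rfl fun c _ => ?_
      by_cases hc : fc b i c
      · rw [f1 c hc, mul_one]
      · rw [h c hc, zero_mul]
    rw [e3] at e1
    have hle : ∀ c, w' c * (α * (pt c).1 + β * (pt c).2.1 + γ * (pt c).2.2) ≤ w' c := by
      intro c
      by_cases hc : fc b i c
      · rw [f1 c hc, mul_one]
      · have := mul_le_mul_of_nonneg_left (f2 c hc).le (hw' c)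
        rwa [mul_one] at this
    have hle' := Finset.sum_le_sum fun c (_ : c ∈ Finset.univ) => hle c
    refine ⟨by rw [← e1]; exact hle', fun hge c hc => ?_⟩
    by_contra hne
    have hpos : 0 < w' c := lt_of_le_of_ne (hw' c) (Ne.symm hne)
    have hlt : ∑ c, w' c * (α * (pt c).1 + β * (pt c).2.1 + γ * (pt c).2.2) < ∑ c, w' c := by
      refine Finset.sum_lt_sum (fun c _ => hle c) ⟨c, Finset.mem_univ c, ?_⟩
      have := mul_lt_mul_of_pos_left (f2 c hc) hpos
      rwa [mul_one] at this
    linarith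
  have k1 := key b b' i i' w w' hw hw' h h' he
  have k2 := key b' b i' i w' w hw' hw h' h he.symm
  have h3 : Sp b i w' := k1.2 k2.1
  have h4 : Sp b i fun c => w c - w' c := fun c hc => by
    show w c - w' c = 0
    rw [h c hc, h3 c hc, sub_zero]
  have h5 := ev_zero hK h4 (by rw [ev_sub, he, sub_self])
  funext c
  have := congrFun h5 c
  simp only [Pi.zero_apply] at this
  linarith

end

end Pool.Agent.H3.FF
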