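import Pool.Agent.H41.Fire.Defs

/-!
# MP_4c8b8e_co: strategies as sets of guards, guards on vertices of degree two can be removed
-/

set_option autoImplicit false
set_option linter.unusedSectionVars false

namespace Pool.Agent.H3.FF

open Pool.Agent.H41.Fire

section

variable {V : Type}

/-- the burning vertices when the vertices in `U` never burn -/
def bu (G : SimpleGraph V) (v : V) (U : Set V) : ℕ → Set V
  | 0 => {v}
  | t + 1 => bu G v U t ∪ {w | w ∉ U ∧ ∃ u ∈ bu G v U t, G.Adj u w}

/-- the guards touched by the fire up to time `t` -/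
def tch (G : SimpleGraph V) (v : V) (U : Set V) (t : ℕ) : Set V :=
  {w | w ∈ U ∧ ∃ s < t, ∃ u ∈ bu G v U s, G.Adj u w}

/-- sets of guards which can be placed one per time step -/
structure Hall (G : SimpleGraph V) (v : V) (U : Set V) : Prop where
  st : v ∉ U
  cnt : ∀ t, (tch G v U t).ncard ≤ t

variable {G : SimpleGraph V} {v : V} {U : Set V}

theorem bu_succ {t : ℕ} : bu G v U t ⊆ bu G v U (t + 1) := fun _ h => Or.inl h

theorem bu_mono {s t : ℕ} (h : s ≤ t) : bu G v U s ⊆ bu G v U t := by
  induction t, h using Nat.le_induction with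
  | base => exact fun _ h => h
  | succ n _ ih => exact fun _ h => bu_succ (ih h)

theorem bu_step {t : ℕ} {u w : V} (h : u ∈ bu G v U t) (ha : G.Adj u w) (hw : w ∉ U) :
    w ∈ bu G v U (t + 1) := Or.inr ⟨hw, u, h, ha⟩

theorem tch_step {t : ℕ} {u w : V} (h : u ∈ bu G v U t) (ha : G.Adj u w) (hw : w ∈ U) :
    w ∈ tch G v U (t + 1) := ⟨hw, t, Nat.lt_succ_self t, u, h, ha⟩

theorem tch_mono {s t : ℕ} (h : s ≤ t) : tch G v U s ⊆ tch G v U t := by
  rintro w ⟨h1, r, h2, h3⟩
  exact ⟨h1, r, h2.trans_le h, h3⟩

theorem bu_not_mem (hv : v ∉ U) {t : ℕ} {w : V} (h : w ∈ bu G v U t) : w ∉ U := by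
  induction t with
  | zero =>
    have h1 : w = v := h
    rw [h1]
    exact hv
  | succ t ih =>
    rcases h with h | h
    · exact ih h
    · exact h.1

theorem v_mem (t : ℕ) : v ∈ bu G v U t := bu_mono (Nat.zero_le t) rfl

/-- a burning vertex is the start or has a neighbour burning before -/
theorem bu_pred {t : ℕ} {w : V} (h : w ∈ bu G v U t) (hw : w ≠ v) :
    ∃ s < t, ∃ u ∈ bu G v U s, G.Adj u w := by
  induction t with
  | zero => exact absurd h hw
  | succ t ih =>
    rcases h with h | ⟨-, u, h, ha⟩
    · obtain ⟨s, hs, h1⟩ := ih h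
      exact ⟨s, hs.trans (Nat.lt_succ_self t), h1⟩
    · exact ⟨t, Nat.lt_succ_self t, u, h, ha⟩

/-- the guards of a legal strategy -/
theorem hall_of_legal [Finite V] {p : ℕ → Option V} (hp : Legal G v p) :
    Hall G v {w | ∃ s, p s = some w} ∧ ∀ t, burn G v p t = bu G v {w | ∃ s, p s = some w} t := by
  have hmono : ∀ s t, s ≤ t → burn G v p s ⊆ burn G v p t := by
    intro s t h
    induction t, h using Nat.le_induction with
    | base => exact fun _ h => h
    | succ n _ ih => exact fun _ h => Or.inl (ih h)
  have hv : v ∉ {w | ∃ s, p s = some w} := by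
    rintro ⟨s, hs⟩
    exact (hp s v hs).1 (hmono 0 s (Nat.zero_le s) rfl)
  have hb : ∀ t, burn G v p t = bu G v {w | ∃ s, p s = some w} t := by
    intro t
    induction t with
    | zero => rfl
    | succ t ih =>
      ext w
      constructor
      · rintro (h | ⟨⟨u, hu, ha⟩, hs⟩)
        · rw [ih] at h
          exact Or.inl h
        · rw [ih] at hu
          refine Or.inr ⟨?_, u, hu, ha⟩
          rintro ⟨s, hps⟩
          have hst : t < s := by
            by_contra hcon
            exact hs s (not_lt.1 hcon) hps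
          refine (hp s w hps).1 (hmono (t + 1) s hst (Or.inr ⟨⟨u, ?_, ha⟩, hs⟩))
          rw [ih]
          exact hu
      · rintro (h | ⟨hw, u, hu, ha⟩)
        · rw [← ih] at h
          exact Or.inl h
        · rw [← ih] at hu
          exact Or.inr ⟨⟨u, hu, ha⟩, fun s _ hs => hw ⟨s, hs⟩⟩
  refine ⟨⟨hv, fun t => ?_⟩, hb⟩
  -- touched guards have been placed
  have h1 : ∀ w ∈ tch G v {w | ∃ s, p s = some w} t, ∃ s < t, p s = some w := by
    rintro w ⟨⟨s, hs⟩, r, hr, u, hu, ha⟩
    by_contra hcon
    push Not at hcon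
    rw [← hb] at hu
    have h2 : w ∈ burn G v p (r + 1) := Or.inr ⟨⟨u, hu, ha⟩, fun s' hs' => hcon s' (by omega)⟩
    rw [hb] at h2
    exact bu_not_mem hv h2 ⟨s, hs⟩
  have h2 : tch G v {w | ∃ s, p s = some w} t ⊆
      (fun s => (p s).getD v) '' (Finset.range t : Set ℕ) := by
    intro w hw
    obtain ⟨s, hs, h3⟩ := h1 w hw
    exact ⟨s, by simpa using hs, by simp [h3]⟩
  calc (tch G v {w | ∃ s, p s = some w} t).ncard
      ≤ ((fun s => (p s).getD v) '' (Finset.range t : Set ℕ)).ncard :=
        Set.ncard_le_ncard h2 (Set.toFinite _)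
    _ ≤ (Finset.range t : Set ℕ).ncard := Set.ncard_image_le (Set.toFinite _)
    _ = t := by rw [Set.ncard_coe_finset, Finset.card_range]

/-- removing a guard of degree two, one order of the neighbours -/
theorem rem_aux [Finite V] (hU : Hall G v U) {x a y : V} (hx : x ∈ U) (hax : G.Adj x a)
    (hyx : G.Adj x y) (hn : ∀ w, G.Adj x w → w = a ∨ w = y)
    (hord : ∀ t, y ∈ bu G v U t → a ∈ bu G v U t) :
    ∃ U' : Set V, Hall G v U' ∧ (∀ t, bu G v U' t ⊆ bu G v U t ∪ {x}) ∧ U' ⊆ insert y U ∧
      x ∉ U' := by
  have hxv : x ≠ v := fun h => hU.st (h ▸ hx)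
  have hxa : x ≠ a := hax.ne
  have hxy : x ≠ y := hyx.ne
  by_cases hcase : ∀ t, a ∈ bu G v U t → y ∈ bu G v U (t + 2)
  · -- delete the guard
    have hU' : ∀ w, w ∉ U \ {x} → w ≠ x → w ∉ U := fun w h1 h2 h3 => h1 ⟨h3, h2⟩
    have key : ∀ t, (bu G v (U \ {x}) t ⊆ bu G v U t ∪ {x}) ∧
        (x ∈ bu G v (U \ {x}) t → ∃ s < t, a ∈ bu G v U s) := by
      intro t
      induction t using Nat.strong_induction_on with
      | _ t ih =>
        constructor
        · rcases t with _ | t
          · exact fun w hw => Or.inl hw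
          · rintro w (hw | ⟨hw, u, hu, ha⟩)
            · rcases (ih t (Nat.lt_succ_self t)).1 hw with h | h
              · exact Or.inl (bu_succ h)
              · exact Or.inr h
            · by_cases hwx : w = x
              · exact Or.inr hwx
              · left
                have hw' := hU' w hw hwx
                rcases (ih t (Nat.lt_succ_self t)).1 hu with h | h
                · exact bu_step h ha hw'
                · have h1 : u = x := h
                  subst h1
                  obtain ⟨s, hs, h2⟩ := (ih t (Nat.lt_succ_self t)).2 hu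
                  rcases hn w ha with rfl | rfl
                  · exact bu_mono (by omega) h2
                  · exact bu_mono (by omega) (hcase s h2)
        · intro hxt
          obtain ⟨s, hs, u, hu, ha⟩ := bu_pred hxt hxv
          refine ⟨s, hs, ?_⟩
          rcases (ih s hs).1 hu with h | h
          · rcases hn u ha.symm with rfl | rfl
            · exact h
            · exact hord s h
          · exact absurd (h.symm ▸ ha : G.Adj x x) (G.loopless.irrefl x)
    refine ⟨U \ {x}, ⟨fun h => hU.st h.1, fun t => ?_⟩, fun t => (key t).1,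
      fun w hw => Or.inr hw.1, fun h => h.2 rfl⟩
    refine (Set.ncard_le_ncard ?_ (Set.toFinite _)).trans (hU.cnt t)
    rintro w ⟨hw, s, hs, u, hu, ha⟩
    rcases (key s).1 hu with h | h
    · exact ⟨hw.1, s, hs, u, h, ha⟩
    · exfalso
      have h1 : u = x := h
      subst h1
      obtain ⟨r, hr, h2⟩ := (key s).2 hu
      rcases hn w ha with rfl | rfl
      · exact bu_not_mem hU.st h2 hw.1
      · exact bu_not_mem hU.st (hcase r h2) hw.1
  · -- move the guard to `y`
    push Not at hcase
    obtain ⟨t0, h0, h0'⟩ := hcase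
    have hyv : y ≠ v := fun h => h0' (h ▸ v_mem _)
    have hvU : v ∉ insert y (U \ {x}) := by
      rintro (h | h)
      · exact hyv h.symm
      · exact hU.st h.1
    have hU' : ∀ w, w ∉ insert y (U \ {x}) → w ≠ x → w ∉ U :=
      fun w h1 h2 h3 => h1 (Or.inr ⟨h3, h2⟩)
    have key : ∀ t, (bu G v (insert y (U \ {x})) t ⊆ bu G v U t ∪ {x}) ∧
        (x ∈ bu G v (insert y (U \ {x})) t → ∃ s < t, a ∈ bu G v U s) := by
      intro t
      induction t using Nat.strong_induction_on with
      | _ t ih =>
        constructor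
        · rcases t with _ | t
          · exact fun w hw => Or.inl hw
          · rintro w (hw | ⟨hw, u, hu, ha⟩)
            · rcases (ih t (Nat.lt_succ_self t)).1 hw with h | h
              · exact Or.inl (bu_succ h)
              · exact Or.inr h
            · by_cases hwx : w = x
              · exact Or.inr hwx
              · left
                have hw' := hU' w hw hwx
                rcases (ih t (Nat.lt_succ_self t)).1 hu with h | h
                · exact bu_step h ha hw'
                · have h1 : u = x := h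
                  subst h1
                  obtain ⟨s, hs, h2⟩ := (ih t (Nat.lt_succ_self t)).2 hu
                  rcases hn w ha with rfl | rfl
                  · exact bu_mono (by omega) h2
                  · exact absurd (Or.inl rfl) hw
        · intro hxt
          obtain ⟨s, hs, u, hu, ha⟩ := bu_pred hxt hxv
          refine ⟨s, hs, ?_⟩
          rcases (ih s hs).1 hu with h | h
          · rcases hn u ha.symm with rfl | rfl
            · exact h
            · exact hord s h
          · exact absurd (h.symm ▸ ha : G.Adj x x) (G.loopless.irrefl x)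
    have hxU' : x ∉ insert y (U \ {x}) := by
      rintro (h | h)
      · exact hxy h
      · exact h.2 rfl
    refine ⟨insert y (U \ {x}), ⟨hvU, fun t => ?_⟩, fun t => (key t).1, ?_, hxU'⟩
    · have hT : ∀ w ∈ tch G v (insert y (U \ {x})) t, w ≠ y → w ∈ tch G v U t := by
        rintro w ⟨hw, s, hs, u, hu, ha⟩ hwy
        have hw' : w ∈ U := by
          rcases hw with h | h
          · exact absurd h hwy
          · exact h.1
        rcases (key s).1 hu with h | h
        · exact ⟨hw', s, hs, u, h, ha⟩
        · exfalso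
          have h1 : u = x := h
          subst h1
          obtain ⟨r, hr, h2⟩ := (key s).2 hu
          rcases hn w ha with rfl | rfl
          · exact bu_not_mem hU.st h2 hw'
          · exact hwy rfl
      by_cases hy : y ∈ tch G v (insert y (U \ {x})) t ∧ y ∉ tch G v U t
      · obtain ⟨⟨hy1, s, hs, u, hu, ha⟩, hy2⟩ := hy
        have hxT : x ∈ tch G v U t := by
          rcases (key s).1 hu with h | h
          · by_cases hyU : y ∈ U
            · exact absurd ⟨hyU, s, hs, u, h, ha⟩ hy2
            · have h1 : y ∈ bu G v U (s + 1) := bu_step h ha hyU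
              have h2 : t0 < t := by
                by_contra hcon
                exact h0' (bu_mono (by omega) h1)
              exact ⟨hx, t0, h2, a, h0, hax.symm⟩
          · have h1 : u = x := h
            subst h1
            obtain ⟨r, hr, h2⟩ := (key s).2 hu
            exact ⟨hx, r, hr.trans hs, a, h2, hax.symm⟩
        have hsub : tch G v (insert y (U \ {x})) t ⊆ insert y (tch G v U t \ {x}) := by
          intro w hw
          by_cases hwy : w = y
          · exact Or.inl hwy
          · refine Or.inr ⟨hT w hw hwy, ?_⟩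
            rintro rfl
            exact hxU' hw.1
        calc _ ≤ (insert y (tch G v U t \ {x})).ncard := Set.ncard_le_ncard hsub (Set.toFinite _)
          _ ≤ (tch G v U t \ {x}).ncard + 1 := Set.ncard_insert_le _ _
          _ = (tch G v U t).ncard := Set.ncard_sdiff_singleton_add_one hxT (Set.toFinite _)
          _ ≤ t := hU.cnt t
      · refine (Set.ncard_le_ncard ?_ (Set.toFinite _)).trans (hU.cnt t)
        intro w hw
        by_cases hwy : w = y
        · subst hwy
          by_contra hcon
          exact hy ⟨hw, hcon⟩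
        · exact hT w hw hwy
    · rintro w (h | h)
      · exact Or.inl h
      · exact Or.inr h.1

/-- removing a guard of degree two -/
theorem rem_one [Finite V] (hU : Hall G v U) {x a y : V} (hx : x ∈ U) (hax : G.Adj x a)
    (hyx : G.Adj x y) (hn : ∀ w, G.Adj x w → w = a ∨ w = y) :
    ∃ U' : Set V, Hall G v U' ∧ (∀ t, bu G v U' t ⊆ bu G v U t ∪ {x}) ∧
      U' ⊆ insert a (insert y U) ∧ x ∉ U' := by
  by_cases hord : ∀ t, y ∈ bu G v U t → a ∈ bu G v U t
  · obtain ⟨U', h1, h2, h3, h4⟩ := rem_aux hU hx hax hyx hn hord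
    exact ⟨U', h1, h2, fun w hw => Or.inr (h3 hw), h4⟩
  · push Not at hord
    obtain ⟨t0, h0, h0'⟩ := hord
    have hord' : ∀ t, a ∈ bu G v U t → y ∈ bu G v U t := by
      intro t ht
      have : t0 ≤ t := by
        by_contra hcon
        exact h0' (bu_mono (by omega) ht)
      exact bu_mono this h0
    obtain ⟨U', h1, h2, h3, h4⟩ := rem_aux hU hx hyx hax (fun w hw => (hn w hw).symm) hord'
    refine ⟨U', h1, h2, fun w hw => ?_, h4⟩
    rcases h3 hw with h | h
    · exact Or.inl h
    · exact Or.inr (Or.inr h)

/-- all guards on vertices of degree two can be removed -/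
theorem rem_all [Finite V] (D : Set V)
    (hD : ∀ x ∈ D, ∃ a y, a ∉ D ∧ y ∉ D ∧ G.Adj x a ∧ G.Adj x y ∧
      ∀ w, G.Adj x w → w = a ∨ w = y) (hU : Hall G v U) :
    ∃ U' : Set V, Hall G v U' ∧ (∀ t, bu G v U' t ⊆ bu G v U t ∪ D) ∧ Disjoint U' D := by
  suffices h : ∀ n : ℕ, ∀ U : Set V, Hall G v U → (U ∩ D).ncard ≤ n →
      ∃ U' : Set V, Hall G v U' ∧ (∀ t, bu G v U' t ⊆ bu G v U t ∪ D) ∧ Disjoint U' D from
    h _ U hU le_rfl
  intro n
  induction n with
  | zero =>
    intro U hU h0
    refine ⟨U, hU, fun t w hw => Or.inl hw, ?_⟩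
    rw [Set.disjoint_iff_inter_eq_empty]
    exact (Set.ncard_eq_zero (Set.toFinite _)).1 (Nat.le_zero.1 h0)
  | succ n ih =>
    intro U hU hn
    by_cases hne : (U ∩ D).Nonempty
    · obtain ⟨x, hxU, hxD⟩ := hne
      obtain ⟨a, y, haD, hyD, hax, hyx, hw⟩ := hD x hxD
      obtain ⟨U', h1, h2, h3, h4⟩ := rem_one hU hxU hax hyx hw
      have hcard : (U' ∩ D).ncard ≤ n := by
        have hsub : U' ∩ D ⊆ (U ∩ D) \ {x} := by
          rintro w ⟨hw1, hw2⟩
          refine ⟨⟨?_, hw2⟩, ?_⟩
          · rcases h3 hw1 with h | h | h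
            · exact absurd (h ▸ hw2) haD
            · exact absurd (h ▸ hw2) hyD
            · exact h
          · rintro rfl
            exact h4 hw1
        have h5 := Set.ncard_le_ncard hsub (Set.toFinite _)
        have hm : x ∈ U ∩ D := ⟨hxU, hxD⟩
        have h6 := Set.ncard_sdiff_singleton_add_one hm (Set.toFinite _)
        omega
      obtain ⟨U'', h5, h6, h7⟩ := ih U' h1 hcard
      refine ⟨U'', h5, fun t w hw => ?_, h7⟩
      rcases h6 t hw with h | h
      · rcases h2 t h with h | h
        · exact Or.inl h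
        · exact Or.inr (by rw [show w = x from h]; exact hxD)
      · exact Or.inr h
    · refine ⟨U, hU, fun t w hw => Or.inl hw, ?_⟩
      rw [Set.disjoint_iff_inter_eq_empty]
      exact Set.not_nonempty_iff_eq_empty.1 hne

end

end Pool.Agent.H3.FF
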