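import Pool.Agent.H3.FF.Girth
import Pool.Agent.H3.FF.Red
import Pool.Agent.H58.FF.Area
import Pool.Agent.H58.FF.Grow

/-!
# MP_4c8b8e_co: charts, the fire on the graph as an abstract fire process
-/

set_option autoImplicit false
set_option linter.unusedSectionVars false
set_option linter.unusedVariables false

open scoped BigOperators

namespace Pool.Agent.H3.FF

open CV TV Tz Pool.Agent.H58.FF Classical

section

variable {K H L : ℕ} [NeZero K]

/-- the lattice point of a hub -/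
def hp : DV K H L → TV K H
  | Sum.inl f => f
  | Sum.inr τ => τ.f

/-- the spokes -/
def spokes (K H L : ℕ) [NeZero K] : Set (GV K H L) := {v | ∃ e, v = Sum.inr e}

/-- flat charts of radius `R` around `p0` -/
structure Chart (K H : ℕ) [NeZero K] (p0 : Pt) (R : ℕ) where
  φ : Pt → TV K H
  inj : ∀ p q, dst p p0 ≤ R → dst q p0 ≤ R → φ p = φ q → p = q
  adj : ∀ p q, dst p p0 ≤ R → dst q p0 ≤ R → q ∈ nbs p → Ad (φ p) (φ q)
  lift : ∀ p, dst p p0 < R → ∀ g, Ad (φ p) g → ∃ q ∈ nbs p, φ q = g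
  cls : ∀ p, dst p p0 ≤ R → (TV.cls (φ p) = 2 ↔ isC p)

theorem hp_rim {x : DV K H L} {f : TV K H} (h : Rim x f) : f = hp x ∨ Ad (hp x) f := by
  rcases x with x | τ
  · exact Or.inr h.2.2
  · rcases h.2.1 with h1 | ⟨k, h1⟩
    · exact Or.inl h1
    · exact Or.inr h1.ad

theorem hp_cls {x : DV K H L} {f : TV K H} (h : Rim x f) : cls (hp x) = 2 := by
  rcases x with x | τ
  · exact h.1
  · exact τ.2.2.2.2.1

/-- at a point of a street all faces contain a street coordinate -/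
theorem ons_face (g : Par K H L) {f : TV K H} (h : OnS L f) (hf : cls f ≠ 0) {b : Bool}
    {i : ZMod K} (hs : Sp b i f.1) : ∃ k, fc b i k ∧ L ∣ f.1 k := by
  obtain ⟨b', i', k, h1, h2, h3⟩ := h
  obtain ⟨c, d, hc, hd, hcd, hck, hdk⟩ : ∃ c d : CV K, fc b' i' c ∧ fc b' i' d ∧ c ≠ d ∧
      c ≠ k ∧ d ≠ k := by
    have hne : (P b' : CV K) ≠ A i' := by cases b' <;> simp [P]
    obtain ⟨c, hc, hck⟩ : ∃ c : CV K, fc b' i' c ∧ c ≠ k := by
      by_cases hk : k = P b'
      · exact ⟨A i', fc_A _ _, by rw [hk]; exact hne.symm⟩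
      · exact ⟨P b', fc_P _ _, fun h => hk h.symm⟩
    obtain ⟨d, hd, h4, h5⟩ := fc_third g.hK hc h2 hck
    exact ⟨c, d, hc, hd, h4, hck, Ne.symm h5⟩
  have nc : ¬ L ∣ f.1 c := fun h => hck (uniq_street g h1 hf hc h2 h h3)
  have nd : ¬ L ∣ f.1 d := fun h => hdk (uniq_street g h1 hf hd h2 h h3)
  have hc' : fc b i c := supp_fc hs (fun h => nc (by rw [h]; exact dvd_zero L))
  have hd' : fc b i d := supp_fc hs (fun h => nd (by rw [h]; exact dvd_zero L))
  obtain ⟨k', hk', hck', hdk'⟩ := fc_third g.hK hc' hd' hcd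
  refine ⟨k', hk', ?_⟩
  by_cases h0 : f.1 k' = 0
  · rw [h0]
    exact dvd_zero L
  · rcases fc_three hc hd h2 hcd hck hdk (supp_fc h1 h0) with h4 | h4 | h4
    · exact absurd h4.symm hck'
    · exact absurd h4.symm hdk'
    · rw [h4]
      exact h3

/-- the faces at a point of the lattice of class two cover its neighbours -/
theorem rim_ex (g : Par K H L) {f f' : TV K H} (hf : cls f = 2) (h : Ad f f') :
    ∃ x : DV K H L, hp x = f ∧ Rim x f' := by
  by_cases hs : OnS L f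
  · have h' := h
    obtain ⟨b, i, k, h1⟩ := h
    obtain ⟨k', hk', hL⟩ := ons_face g hs (by rw [hf]; decide) h1.1
    obtain ⟨c, d, s⟩ := h1.ad.stp
    have hle : (f.1 k' : ℤ) = f'.1 k' + dl c k' - dl d k' := stp_fun s k'
    have hcase : f'.1 k' = f.1 k' ∨ f'.1 k' = f.1 k' + 1 ∨ f.1 k' = f'.1 k' + 1 := by
      have a1 := dl_nonneg c k'
      have a2 := dl_le c k'
      have a3 := dl_nonneg d k'
      have a4 := dl_le d k'
      omega
    by_cases hcase2 : f.1 k' = f'.1 k' + 1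
    · refine ⟨Sum.inr ⟨(f, (b, i), k', false), h1.1, hk', hL, hf, fun _ => ?_⟩, rfl, ?_⟩
      · show 1 ≤ f.1 k'
        omega
      · exact ⟨h1.2.1, Or.inr ⟨k, h1⟩, Or.inr (Or.inr ⟨rfl, hcase2⟩)⟩
    · refine ⟨Sum.inr ⟨(f, (b, i), k', true), h1.1, hk', hL, hf, fun h => ?_⟩, rfl, ?_⟩
      · exact absurd (show true = false from h) (by decide)
      · refine ⟨h1.2.1, Or.inr ⟨k, h1⟩, ?_⟩
        rcases hcase with h2 | h2 | h2
        · exact Or.inl h2
        · exact Or.inr (Or.inl ⟨rfl, h2⟩)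
        · exact absurd h2 hcase2
  · exact ⟨Sum.inl f, rfl, hf, hs, h⟩

theorem adj_spoke (e : Spk K H L) : (G K H L).Adj (Sum.inr e) (Sum.inl e.1.1) := Or.inl rfl

theorem adj_spoke' (e : Spk K H L) : (G K H L).Adj (Sum.inr e) (Sum.inl (Sum.inl e.1.2)) :=
  Or.inr rfl

theorem inl_spoke {x : DV K H L} {f : TV K H} (h : Rim x f) :
    ∃ v ∈ spokes K H L, (G K H L).Adj (Sum.inl x) v ∧ (G K H L).Adj v (Sum.inl (Sum.inl f)) :=
  ⟨Sum.inr ⟨(x, f), h⟩, ⟨_, rfl⟩, (adj_spoke ⟨(x, f), h⟩).symm, adj_spoke' ⟨(x, f), h⟩⟩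

section

variable {w0 : GV K H L} {U : Set (GV K H L)}

/-- the fire crosses a path of length two in two steps -/
theorem two_step (hD : Disjoint U (spokes K H L)) {x y v : GV K H L} {t : ℕ}
    (hx : x ∈ bu (G K H L) w0 U t) (hv : v ∈ spokes K H L) (h1 : (G K H L).Adj x v)
    (h2 : (G K H L).Adj v y) :
    y ∈ bu (G K H L) w0 U (t + 2) ∨ y ∈ tch (G K H L) w0 U (t + 2) := by
  have hv' : v ∉ U := fun h => Set.disjoint_left.1 hD h hv
  have h3 := bu_step hx h1 hv'
  by_cases hy : y ∈ U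
  · exact Or.inr (tch_step h3 h2 hy)
  · exact Or.inl (bu_step h3 h2 hy)

/-- the base point of a start -/
def Base (w0 : GV K H L) (f : TV K H) : Prop :=
  (∃ x, w0 = Sum.inl x ∧ hp x = f) ∨ ∃ e, w0 = Sum.inr e ∧ hp e.1.1 = f

/-- the fire does not leave the ball -/
theorem ball (g : Par K H L) {p0 : Pt} {R : ℕ} (C : Chart K H p0 R) (hw : Base w0 (C.φ p0)) :
    ∀ t, t < R → (∀ x, Sum.inl x ∈ bu (G K H L) w0 U t → ∃ p, dst p p0 ≤ t ∧ C.φ p = hp x) ∧
      (∀ e, Sum.inr e ∈ bu (G K H L) w0 U t → (t = 0 ∧ w0 = Sum.inr e) ∨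
        ((∃ p, dst p p0 ≤ t ∧ C.φ p = hp e.1.1) ∧ ∃ p, dst p p0 ≤ t ∧ C.φ p = e.1.2)) := by
  have h00 : dst p0 p0 ≤ 0 := by
    rw [ar_dst]
    omega
  have hlift : ∀ (t : ℕ) (f f' : TV K H), t < R → (∃ p, dst p p0 ≤ t ∧ C.φ p = f) →
      (f' = f ∨ Ad f f') → ∃ p, dst p p0 ≤ ((t + 1 : ℕ) : ℤ) ∧ C.φ p = f' := by
    rintro t f f' ht ⟨p, hp1, rfl⟩ (rfl | h)
    · exact ⟨p, by push_cast; omega, rfl⟩
    · obtain ⟨q, hq, h1⟩ := C.lift p (by omega) f' h
      exact ⟨q, by push_cast; exact ar_near p q p0 _ hq hp1, h1⟩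
  have hsymm : ∀ f f' : TV K H, (f' = f ∨ Ad f f') → (f = f' ∨ Ad f' f) := by
    rintro f f' (rfl | h)
    · exact Or.inl rfl
    · exact Or.inr h.symm
  have hstart : ∀ e : Spk K H L, w0 = Sum.inr e → C.φ p0 = hp e.1.1 := by
    intro e he
    rcases hw with ⟨x, hx, h⟩ | ⟨e', he', h⟩
    · rw [hx] at he
      exact absurd he (by simp)
    · rw [he'] at he
      injection he with he
      rw [← he, h]
  intro t
  induction t with
  | zero =>
    intro _
    constructor
    · intro x hx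
      have h1 : Sum.inl x = w0 := hx
      rcases hw with ⟨x', hx', h⟩ | ⟨e, he, h⟩
      · rw [hx'] at h1
        injection h1 with h1
        exact ⟨p0, by exact_mod_cast h00, by rw [h1, h]⟩
      · rw [he] at h1
        exact absurd h1 (by simp)
    · intro e he
      have h1 : Sum.inr e = w0 := he
      exact Or.inl ⟨rfl, h1.symm⟩
  | succ t ih =>
    intro ht
    obtain ⟨ih1, ih2⟩ := ih (by omega)
    constructor
    · rintro x (hx | ⟨-, u, hu, ha⟩)
      · obtain ⟨p, h1, h2⟩ := ih1 x hx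
        exact ⟨p, by push_cast; omega, h2⟩
      · rcases u with y | e
        · obtain ⟨f, f', rfl, rfl, s⟩ := adj_inl ha
          exact hlift t f f' (by omega) (ih1 _ hu) (Or.inr s.ad)
        · rcases ih2 e hu with ⟨h0, h1⟩ | ⟨h1, h2⟩
          · subst h0
            have h3 : ∃ p, dst p p0 ≤ ((0 : ℕ) : ℤ) ∧ C.φ p = hp e.1.1 :=
              ⟨p0, by exact_mod_cast h00, hstart e h1⟩
            rcases spoke_nbr e ha with h | h
            · injection h with h
              rw [h]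
              exact hlift 0 _ _ (by omega) h3 (Or.inl rfl)
            · injection h with h
              rw [h]
              exact hlift 0 _ _ (by omega) h3 (hp_rim e.2)
          · rcases spoke_nbr e ha with h | h
            · injection h with h
              rw [h]
              exact hlift t _ _ (by omega) h1 (Or.inl rfl)
            · injection h with h
              rw [h]
              exact hlift t _ _ (by omega) h2 (Or.inl rfl)
    · rintro e (he | ⟨-, u, hu, ha⟩)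
      · right
        rcases ih2 e he with ⟨h0, h1⟩ | ⟨h1, h2⟩
        · subst h0
          have h3 : ∃ p, dst p p0 ≤ ((0 : ℕ) : ℤ) ∧ C.φ p = hp e.1.1 :=
            ⟨p0, by exact_mod_cast h00, hstart e h1⟩
          exact ⟨hlift 0 _ _ (by omega) h3 (Or.inl rfl), hlift 0 _ _ (by omega) h3 (hp_rim e.2)⟩
        · exact ⟨hlift t _ _ (by omega) h1 (Or.inl rfl), hlift t _ _ (by omega) h2 (Or.inl rfl)⟩
      · right
        rcases u with y | e'
        · have h1 := ih1 y hu
          rcases spoke_nbr e ha.symm with h | h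
          · injection h with h
            subst h
            exact ⟨hlift t _ _ (by omega) h1 (Or.inl rfl), hlift t _ _ (by omega) h1 (hp_rim e.2)⟩
          · injection h with h
            subst h
            exact ⟨hlift t _ _ (by omega) h1 (hsymm _ _ (hp_rim e.2)),
              hlift t _ _ (by omega) h1 (Or.inl rfl)⟩
        · exact absurd ha (fun h => h)

/-- balls -/
noncomputable def bl (p0 : Pt) (t : ℕ) : Finset Pt :=
  (Finset.Icc (p0.1 - t) (p0.1 + t) ×ˢ Finset.Icc (p0.2 - t) (p0.2 + t)).filter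
    fun p => dst p p0 ≤ t

theorem mem_bl {p0 p : Pt} {t : ℕ} : p ∈ bl p0 t ↔ dst p p0 ≤ t := by
  unfold bl
  rw [Finset.mem_filter, Finset.mem_product, Finset.mem_Icc, Finset.mem_Icc]
  refine ⟨fun h => h.2, fun h => ⟨?_, h⟩⟩
  rw [ar_dst] at h
  omega

/-- burning vertices of the honeycomb -/
noncomputable def fS (w0 : GV K H L) (U : Set (GV K H L)) (φ : Pt → TV K H) (p0 : Pt) (t : ℕ) :
    Finset Pt :=
  (bl p0 t).filter fun p => ¬ isC p ∧ Sum.inl (Sum.inl (φ p)) ∈ bu (G K H L) w0 U t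

/-- touched guards on the honeycomb -/
noncomputable def fP (w0 : GV K H L) (U : Set (GV K H L)) (φ : Pt → TV K H) (p0 : Pt) (t : ℕ) :
    Finset Pt :=
  (bl p0 t).filter fun p => ¬ isC p ∧ Sum.inl (Sum.inl (φ p)) ∈ tch (G K H L) w0 U t

/-- burnt complexes -/
noncomputable def fF (w0 : GV K H L) (U : Set (GV K H L)) (φ : Pt → TV K H) (p0 : Pt) (t : ℕ) :
    Finset Pt :=
  (bl p0 t).filter fun p => isC p ∧
    ∀ x : DV K H L, hp x = φ p → Sum.inl x ∈ bu (G K H L) w0 U t

/-- complexes with touched guards -/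
noncomputable def fK (w0 : GV K H L) (U : Set (GV K H L)) (φ : Pt → TV K H) (p0 : Pt) (t : ℕ) :
    Finset Pt :=
  (bl p0 t).filter fun p => isC p ∧
    ∃ x : DV K H L, hp x = φ p ∧ Sum.inl x ∈ tch (G K H L) w0 U t

theorem bl_mono {p0 p : Pt} {s t : ℕ} (h : s ≤ t) (hp : p ∈ bl p0 s) : p ∈ bl p0 t := by
  rw [mem_bl] at hp ⊢
  have : (s : ℤ) ≤ t := by exact_mod_cast h
  omega

theorem fS_mono {φ : Pt → TV K H} {p0 : Pt} {s t : ℕ} (h : s ≤ t) :
    fS w0 U φ p0 s ⊆ fS w0 U φ p0 t := by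
  intro p hp
  unfold fS at hp ⊢
  rw [Finset.mem_filter] at hp ⊢
  exact ⟨bl_mono h hp.1, hp.2.1, bu_mono h hp.2.2⟩

theorem fP_mono {φ : Pt → TV K H} {p0 : Pt} {s t : ℕ} (h : s ≤ t) :
    fP w0 U φ p0 s ⊆ fP w0 U φ p0 t := by
  intro p hp
  unfold fP at hp ⊢
  rw [Finset.mem_filter] at hp ⊢
  exact ⟨bl_mono h hp.1, hp.2.1, tch_mono h hp.2.2⟩

theorem fF_mono {φ : Pt → TV K H} {p0 : Pt} {s t : ℕ} (h : s ≤ t) :
    fF w0 U φ p0 s ⊆ fF w0 U φ p0 t := by
  intro p hp
  unfold fF at hp ⊢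
  rw [Finset.mem_filter] at hp ⊢
  exact ⟨bl_mono h hp.1, hp.2.1, fun x hx => bu_mono h (hp.2.2 x hx)⟩

theorem fK_mono {φ : Pt → TV K H} {p0 : Pt} {s t : ℕ} (h : s ≤ t) :
    fK w0 U φ p0 s ⊆ fK w0 U φ p0 t := by
  intro p hp
  unfold fK at hp ⊢
  rw [Finset.mem_filter] at hp ⊢
  obtain ⟨h1, h2, x, hx, h3⟩ := hp
  exact ⟨bl_mono h h1, h2, x, hx, tch_mono h h3⟩

/-- the burning time of a complex -/
noncomputable def fW (L : ℕ) (φ : Pt → TV K H) (c : Pt) : ℕ := if OnS L (φ c) then 7 else 3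

theorem dst_self (p0 : Pt) : dst p0 p0 ≤ 0 := by
  rw [ar_dst]
  omega

theorem ball_tch (g : Par K H L) {p0 : Pt} {R : ℕ} (C : Chart K H p0 R)
    (hw : Base w0 (C.φ p0)) {t : ℕ} (ht : t < R) {x : DV K H L}
    (hx : Sum.inl x ∈ tch (G K H L) w0 U t) : ∃ p, dst p p0 ≤ t ∧ C.φ p = hp x := by
  obtain ⟨-, s, hs, u, hu, ha⟩ := hx
  have h1 : ∀ t, bu (G K H L) w0 U t ⊆ bu (G K H L) w0 ∅ t := by
    intro t
    induction t with
    | zero => exact fun _ h => h
    | succ t ih =>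
      rintro w (h | ⟨-, u, hu, ha⟩)
      · exact Or.inl (ih h)
      · exact Or.inr ⟨fun h => h, u, ih hu, ha⟩
  have h2 : Sum.inl x ∈ bu (G K H L) w0 ∅ (s + 1) := bu_step (h1 s hu) ha (fun h => h)
  exact (ball (U := ∅) g C hw t ht).1 x (bu_mono hs h2)

instance : Finite (TV K H) := by
  have h : ∀ (f : TV K H) (c : CV K), f.1 c < H + 1 := by
    intro f c
    have h1 : f.1 c ≤ ∑ c, f.1 c := Finset.single_le_sum (fun _ _ => Nat.zero_le _)
      (Finset.mem_univ c)
    have h2 := f.2.1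
    omega
  refine Finite.of_injective (fun f : TV K H => fun c : CV K => (⟨f.1 c, h f c⟩ : Fin (H + 1)))
    fun f f' he => Subtype.ext (funext fun c => ?_)
  have := congrFun he c
  simpa using this

theorem card_hall (g : Par K H L) {p0 : Pt} {R : ℕ} (C : Chart K H p0 R) {t : ℕ} (ht : t < R) :
    (fP w0 U C.φ p0 t).card + (fK w0 U C.φ p0 t).card ≤ (tch (G K H L) w0 U t).ncard := by
  have hdis : Disjoint (fP w0 U C.φ p0 t) (fK w0 U C.φ p0 t) := by
    rw [Finset.disjoint_left]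
    intro p h1 h2
    unfold fP at h1
    unfold fK at h2
    rw [Finset.mem_filter] at h1 h2
    exact h1.2.1 h2.2.1
  rw [← Finset.card_union_of_disjoint hdis]
  have h1 : ∀ p : Pt, ∃ x : DV K H L, p ∈ fP w0 U C.φ p0 t ∪ fK w0 U C.φ p0 t →
      hp x = C.φ p ∧ Sum.inl x ∈ tch (G K H L) w0 U t := by
    intro p
    by_cases hp1 : p ∈ fP w0 U C.φ p0 t ∪ fK w0 U C.φ p0 t
    · rw [Finset.mem_union] at hp1
      rcases hp1 with h | h
      · unfold fP at h
        rw [Finset.mem_filter] at h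
        exact ⟨Sum.inl (C.φ p), fun _ => ⟨rfl, h.2.2⟩⟩
      · unfold fK at h
        rw [Finset.mem_filter] at h
        obtain ⟨x, hx⟩ := h.2.2
        exact ⟨x, fun _ => hx⟩
    · exact ⟨Sum.inl (C.φ p), fun h => absurd h hp1⟩
  choose ι hι using h1
  have hball : ∀ p ∈ fP w0 U C.φ p0 t ∪ fK w0 U C.φ p0 t, dst p p0 ≤ R := by
    intro p hp1
    rw [Finset.mem_union] at hp1
    have h2 : p ∈ bl p0 t := by
      rcases hp1 with h | h
      · exact (Finset.mem_filter.1 h).1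
      · exact (Finset.mem_filter.1 h).1
    rw [mem_bl] at h2
    have : (t : ℤ) < R := by exact_mod_cast ht
    omega
  rw [← Set.ncard_coe_finset]
  refine Set.ncard_le_ncard_of_injOn (fun p => Sum.inl (ι p)) (fun p hp1 => (hι p hp1).2) ?_
    (Set.toFinite _)
  intro p hp1 q hq he
  have h3 : ι p = ι q := by
    have h4 : (Sum.inl (ι p) : GV K H L) = Sum.inl (ι q) := he
    injection h4
  refine C.inj p q (hball p hp1) (hball q hq) ?_
  rw [← (hι p hp1).1, ← (hι q hq).1, h3]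

/-- the abstract fire process -/
noncomputable def fire (g : Par K H L) {p0 : Pt} {R : ℕ} (C : Chart K H p0 R) {T : ℕ}
    (hT : T < R) (hU : Hall (G K H L) w0 U) (hD : Disjoint U (spokes K H L)) :
    Fire (fW L C.φ) p0 T where
  S t := fS w0 U C.φ p0 (min t T)
  P t := fP w0 U C.φ p0 (min t T)
  F t := fF w0 U C.φ p0 (min t T)
  K t := fK w0 U C.φ p0 (min t T)
  S_mono t := fS_mono (by omega)
  P_mono t := fP_mono (by omega)
  F_mono t := fF_mono (by omega)
  K_mono t := fK_mono (by omega)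
  S_cls t p hp1 := (Finset.mem_filter.1 hp1).2.1
  P_cls t p hp1 := (Finset.mem_filter.1 hp1).2.1
  F_cls t p hp1 := (Finset.mem_filter.1 hp1).2.1
  K_cls t p hp1 := (Finset.mem_filter.1 hp1).2.1
  S_ball t p hp1 := by
    have := mem_bl.1 (Finset.mem_filter.1 hp1).1
    push_cast at this
    omega
  P_ball t p hp1 := by
    have := mem_bl.1 (Finset.mem_filter.1 hp1).1
    push_cast at this
    omega
  disj t := by
    rw [Finset.disjoint_left]
    intro p h1 h2
    exact bu_not_mem hU.st (Finset.mem_filter.1 h1).2.2 (Finset.mem_filter.1 h2).2.2.1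
  hall t ht := by
    rw [min_eq_left ht]
    exact (card_hall g C (lt_of_le_of_lt ht hT)).trans (hU.cnt t)
  r1 t ht u hu v hv hvC := by
    rw [min_eq_left (by omega)] at hu
    rw [min_eq_left ht]
    unfold fS fP
    obtain ⟨hu1, hu2, hu3⟩ := Finset.mem_filter.1 hu
    rw [mem_bl] at hu1
    have hv1 := ar_near u v p0 _ hv hu1
    have hR : (t : ℤ) + 1 < R := by omega
    have ha := C.adj u v (by omega) (by omega) hv
    have hun : (G K H L).Adj (Sum.inl (Sum.inl (C.φ u))) (Sum.inl (Sum.inl (C.φ v))) :=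
      Or.inl ⟨ha, fun h => hu2 ((C.cls u (by omega)).1 h), fun h => hvC ((C.cls v (by omega)).1 h)⟩
    have hvb : v ∈ bl p0 (t + 1) := mem_bl.2 (by push_cast; exact hv1)
    by_cases hvU : Sum.inl (Sum.inl (C.φ v)) ∈ U
    · exact Or.inr (Finset.mem_filter.2 ⟨hvb, hvC, tch_step hu3 hun hvU⟩)
    · exact Or.inl (Finset.mem_filter.2 ⟨hvb, hvC, bu_step hu3 hun hvU⟩)
  r2 t u hu c hc hcC ht := by
    have hW : 3 ≤ fW L C.φ c := by
      unfold fW
      split_ifs <;> omega
    have htT : t ≤ T := by omega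
    rw [min_eq_left htT] at hu
    rw [min_eq_left (by omega)]
    obtain ⟨hu1, hu2, hu3⟩ := Finset.mem_filter.1 hu
    rw [mem_bl] at hu1
    have hc1 := ar_near u c p0 _ hc hu1
    have hR : (t : ℤ) < R := by omega
    have ha := C.adj u c (by omega) (by omega) hc
    have hcc : cls (C.φ c) = 2 := (C.cls c (by omega)).2 hcC
    have hcb : ∀ n, 1 ≤ n → c ∈ bl p0 (t + n) := by
      intro n hn
      rw [mem_bl]
      push_cast
      omega
    obtain ⟨x, hx, hrim⟩ := rim_ex g hcc ha.symm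
    obtain ⟨v, hv, hv1, hv2⟩ := inl_spoke (L := L) hrim
    have h1 := two_step hD hu3 hv hv2.symm hv1.symm
    by_cases hs : OnS L (C.φ c)
    · have hW7 : fW L C.φ c = 7 := if_pos hs
      rw [hW7, show t + 7 - 1 = t + 6 by omega]
      by_cases hK : ∃ x : DV K H L, hp x = C.φ c ∧ Sum.inl x ∈ tch (G K H L) w0 U (t + 6)
      · exact Or.inr (Finset.mem_filter.2 ⟨hcb 6 (by omega), hcC, hK⟩)
      · left
        have hK' : ∀ (y : DV K H L) (n : ℕ), n ≤ t + 6 → hp y = C.φ c →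
            (Sum.inl y ∈ bu (G K H L) w0 U n ∨ Sum.inl y ∈ tch (G K H L) w0 U n) →
            Sum.inl y ∈ bu (G K H L) w0 U n := by
          rintro y n hn hy (h | h)
          · exact h
          · exact absurd ⟨y, hy, tch_mono hn h⟩ hK
        have h2 := hK' x (t + 2) (by omega) hx h1
        have hrim2 : ∀ τ : Tz K H L, hp (Sum.inr τ : DV K H L) = C.φ c →
            Rim (Sum.inr τ : DV K H L) (C.φ c) := by
          intro τ hτ
          rw [← hτ]
          exact ⟨τ.2.1, Or.inl rfl, Or.inl rfl⟩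
        have h3 : Sum.inl (Sum.inl (C.φ c)) ∈ bu (G K H L) w0 U (t + 4) := by
          rcases x with x | τ
          · exact absurd hs (by
              have hx' : x = C.φ c := hx
              rw [← hx']
              exact hrim.2.1)
          · obtain ⟨v', hv', hv1', hv2'⟩ := inl_spoke (L := L) (hrim2 τ hx)
            exact hK' _ (t + 4) (by omega) rfl (two_step hD h2 hv' hv1' hv2')
        refine Finset.mem_filter.2 ⟨hcb 6 (by omega), hcC, fun y hy => ?_⟩
        rcases y with y | τ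
        · have hy' : y = C.φ c := hy
          rw [hy']
          exact bu_mono (by omega) h3
        · obtain ⟨v', hv', hv1', hv2'⟩ := inl_spoke (L := L) (hrim2 τ hy)
          exact hK' _ (t + 6) le_rfl hy (two_step hD h3 hv' hv2'.symm hv1'.symm)
    · have hW3 : fW L C.φ c = 3 := if_neg hs
      rw [hW3, show t + 3 - 1 = t + 2 by omega]
      have honly : ∀ y : DV K H L, hp y = C.φ c → y = Sum.inl (C.φ c) := by
        intro y hy
        rcases y with y | τ
        · have hy' : y = C.φ c := hy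
          rw [hy']
        · exfalso
          apply hs
          rw [← hy]
          exact ⟨_, _, _, τ.2.1, τ.2.2.1, τ.2.2.2.1⟩
      rcases h1 with h1 | h1
      · left
        refine Finset.mem_filter.2 ⟨hcb 2 (by omega), hcC, fun y hy => ?_⟩
        rw [honly y hy, ← honly x hx]
        exact h1
      · right
        exact Finset.mem_filter.2 ⟨hcb 2 (by omega), hcC, x, hx, h1⟩
  r3 t ht c hc v hv := by
    rw [min_eq_left (by omega)] at hc
    rw [min_eq_left ht]
    unfold fS fP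
    obtain ⟨hc1, hc2, hc3⟩ := Finset.mem_filter.1 hc
    rw [mem_bl] at hc1
    have hv1 := ar_near c v p0 _ hv hc1
    have hR : (t : ℤ) + 1 < R := by omega
    have ha := C.adj c v (by omega) (by omega) hv
    have hcc : cls (C.φ c) = 2 := (C.cls c (by omega)).2 hc2
    have hvC : ¬ isC v := not_isC_of_nbs hc2 hv
    have hvb : v ∈ bl p0 (t + 2) := mem_bl.2 (by push_cast; omega)
    obtain ⟨x, hx, hrim⟩ := rim_ex g hcc ha
    obtain ⟨s, hs, hs1, hs2⟩ := inl_spoke (L := L) hrim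
    rcases two_step hD (hc3 x hx) hs hs1 hs2 with h | h
    · exact Or.inl (Finset.mem_filter.2 ⟨hvb, hvC, h⟩)
    · exact Or.inr (Finset.mem_filter.2 ⟨hvb, hvC, h⟩)

/-- the start of the fire -/
theorem fire_start (g : Par K H L) {p0 : Pt} {R : ℕ} (C : Chart K H p0 R) {T : ℕ}
    (hT : T < R) (hT1 : 1 ≤ T) (hU : Hall (G K H L) w0 U) (hD : Disjoint U (spokes K H L))
    (hw : Base w0 (C.φ p0)) (hs : ¬ OnS L (C.φ p0)) :
    StartY (fire g C hT hU hD) ∨ StartA (fire g C hT hU hD) ∨ StartO (fire g C hT hU hD) := by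
  have h00 := dst_self p0
  have hR : (0 : ℤ) ≤ R := by positivity
  have hcls := C.cls p0 (by omega)
  have hno : ∀ x : DV K H L, hp x = C.φ p0 → x = Sum.inl (C.φ p0) := by
    intro y hy
    rcases y with y | τ
    · have hy' : y = C.φ p0 := hy
      rw [hy']
    · exfalso
      apply hs
      rw [← hy]
      exact ⟨_, _, _, τ.2.1, τ.2.2.1, τ.2.2.2.1⟩
  rcases hw with ⟨x, hx, h⟩ | ⟨e, he, h⟩
  · have hx0 := hno x h
    subst hx0
    right
    by_cases hC : isC p0
    · left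
      refine ⟨p0, hC, by omega, ?_⟩
      show p0 ∈ fF w0 U C.φ p0 (min 0 T)
      rw [min_eq_left (Nat.zero_le T)]
      refine Finset.mem_filter.2 ⟨mem_bl.2 (by exact_mod_cast h00), hC, fun y hy => ?_⟩
      rw [hno y hy, ← hx]
      exact v_mem 0
    · right
      refine ⟨p0, hC, ?_⟩
      show p0 ∈ fS w0 U C.φ p0 (min 0 T)
      rw [min_eq_left (Nat.zero_le T)]
      refine Finset.mem_filter.2 ⟨mem_bl.2 (by exact_mod_cast h00), hC, ?_⟩
      rw [← hx]
      exact v_mem 0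
  · left
    have hx0 := hno e.1.1 h
    have hrim := e.2
    have hC : isC p0 := hcls.1 (by rw [← h]; exact hp_cls hrim)
    have had : Ad (C.φ p0) e.1.2 := by
      rw [hx0] at hrim
      exact hrim.2.2
    obtain ⟨o, ho, hoe⟩ := C.lift p0 (by omega) _ had
    have hob := ar_near p0 o p0 _ ho h00
    have hoC : ¬ isC o := not_isC_of_nbs hC ho
    refine ⟨p0, o, hC, ho, by omega, ?_, ?_⟩
    · show p0 ∈ fF w0 U C.φ p0 (min 1 T) ∨ p0 ∈ fK w0 U C.φ p0 (min 1 T)
      rw [min_eq_left hT1]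
      have hb : p0 ∈ bl p0 1 := mem_bl.2 (by push_cast; omega)
      have hadj : (G K H L).Adj w0 (Sum.inl (Sum.inl (C.φ p0))) := by
        rw [he, ← hx0]
        exact adj_spoke e
      by_cases hU1 : (Sum.inl (Sum.inl (C.φ p0)) : GV K H L) ∈ U
      · right
        exact Finset.mem_filter.2 ⟨hb, hC, Sum.inl (C.φ p0), rfl, tch_step (v_mem 0) hadj hU1⟩
      · left
        refine Finset.mem_filter.2 ⟨hb, hC, fun y hy => ?_⟩
        rw [hno y hy]
        exact bu_step (v_mem 0) hadj hU1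
    · show o ∈ fS w0 U C.φ p0 (min 1 T) ∨ o ∈ fP w0 U C.φ p0 (min 1 T)
      rw [min_eq_left hT1]
      have hb : o ∈ bl p0 1 := mem_bl.2 (by push_cast; omega)
      have hadj : (G K H L).Adj w0 (Sum.inl (Sum.inl (C.φ o))) := by
        rw [he, hoe]
        exact adj_spoke' e
      by_cases hU1 : (Sum.inl (Sum.inl (C.φ o)) : GV K H L) ∈ U
      · exact Or.inr (Finset.mem_filter.2 ⟨hb, hoC, tch_step (v_mem 0) hadj hU1⟩)
      · exact Or.inl (Finset.mem_filter.2 ⟨hb, hoC, bu_step (v_mem 0) hadj hU1⟩)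

/-- the area lemma on the graph, in a chart -/
theorem area_chart (hA : SArea) : ∃ D0 t1 : ℕ, ∀ (K H L : ℕ) [NeZero K] (g : Par K H L)
    (w0 : GV K H L) (U : Set (GV K H L)), Hall (G K H L) w0 U → Disjoint U (spokes K H L) →
    ∀ (p0 : Pt) (R : ℕ) (C : Chart K H p0 R), Base w0 (C.φ p0) →
    (∀ c, dst c p0 ≤ D0 → ¬ OnS L (C.φ c)) → ∀ t, t1 ≤ t → t < R →
    48 * t ^ 2 ≤ 100 * {f : TV K H | Sum.inl (Sum.inl f) ∈ bu (G K H L) w0 U t}.ncard := by
  obtain ⟨D0, t1, h⟩ := hA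
  refine ⟨D0, max t1 1, ?_⟩
  intro K H L _ g w0 U hU hD p0 R C hw hs t ht htR
  have h1 := h (fW L C.φ) p0 t (fire g C htR hU hD) (fun c hc => if_neg (hs c hc))
    (fun c => by unfold fW; split_ifs <;> simp)
    (fire_start g C htR (by omega) hU hD hw (hs p0 (by have := dst_self p0; omega)))
    t (by omega) le_rfl
  refine h1.trans (Nat.mul_le_mul_left _ ?_)
  rw [← Set.ncard_coe_finset]
  show ((fS w0 U C.φ p0 (min t t) : Finset Pt) : Set Pt).ncard ≤ _
  rw [min_self]
  refine Set.ncard_le_ncard_of_injOn C.φ (fun p hp1 => ?_) ?_ (Set.toFinite _)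
  · exact (Finset.mem_filter.1 (Finset.mem_coe.1 hp1)).2.2
  · intro p hp1 q hq he
    have a1 := mem_bl.1 (Finset.mem_filter.1 (Finset.mem_coe.1 hp1)).1
    have a2 := mem_bl.1 (Finset.mem_filter.1 (Finset.mem_coe.1 hq)).1
    exact C.inj p q (by omega) (by omega) he

end

end

end Pool.Agent.H3.FF
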