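import Pool.Agent.H3.FF.Pos

/-!
# MP_4c8b8e_co: the half hexagons and the edges of the triangulation
-/

set_option autoImplicit false
set_option linter.unusedSectionVars false
set_option linter.unusedVariables false

open scoped BigOperators

namespace Pool.Agent.H3.FF

open CV TV

section

variable {K H L : ℕ} [NeZero K]

namespace Tz

/-- the sign of the side -/
noncomputable def sg (τ : Tz K H L) : ℝ := if τ.s then 1 else -1

theorem sg_sq (τ : Tz K H L) : τ.sg = 1 ∨ τ.sg = -1 := by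
  unfold sg
  split_ifs
  · left; rfl
  · right; rfl

theorem sp (τ : Tz K H L) : Sp τ.b τ.i τ.f.1 := τ.2.1

theorem hk (τ : Tz K H L) : fc τ.b τ.i τ.k := τ.2.2.1

theorem dvd (τ : Tz K H L) : L ∣ τ.f.1 τ.k := τ.2.2.2.1

theorem cls2 (τ : Tz K H L) : cls τ.f = 2 := τ.2.2.2.2.1

theorem side (τ : Tz K H L) : τ.s = false → 1 ≤ τ.f.1 τ.k := τ.2.2.2.2.2

theorem ext' {τ τ' : Tz K H L} (h1 : τ.f = τ'.f) (h2 : τ.b = τ'.b) (h3 : τ.i = τ'.i)
    (h4 : τ.k = τ'.k) (h5 : τ.s = τ'.s) : τ = τ' := by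
  apply Subtype.ext
  exact Prod.ext h1 (Prod.ext (Prod.ext h2 h3) (Prod.ext h4 h5))

theorem cls_ne0 (τ : Tz K H L) : cls τ.f ≠ 0 := by
  rw [cls2]
  decide

/-- the other coordinates are positive -/
theorem pos (g : Par K H L) (τ : Tz K H L) {c : CV K} (hc : fc τ.b τ.i c) (hck : c ≠ τ.k) :
    1 ≤ τ.f.1 c := by
  by_contra h
  have h0 : τ.f.1 c = 0 := by omega
  exact hck (uniq_street g τ.sp τ.cls_ne0 hc τ.hk (by rw [h0]; exact dvd_zero _) τ.dvd)

/-- the coordinate of the street -/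
theorem three (g : Par K H L) (τ : Tz K H L) (h : τ.s = false) : 3 ≤ τ.f.1 τ.k :=
  Nat.le_of_dvd (τ.side h) (g.l3.trans τ.dvd)

end Tz

open Tz

/-- weights of the vertices of the triangulation -/
noncomputable def wt : DV K H L → CV K → ℝ
  | Sum.inl f => fun c => (f.1 c : ℝ)
  | Sum.inr τ => fun c => (τ.f.1 c : ℝ) +
      τ.sg * ((if c = τ.k then 3 / 4 else 0) -
        (if c = P τ.b ∨ c = A τ.i ∨ c = A (τ.i + 1) then 1 / 4 else 0))

theorem wt_inl (f : TV K H) (c : CV K) : wt (Sum.inl f : DV K H L) c = (f.1 c : ℝ) := rfl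

theorem wt_k (τ : Tz K H L) : wt (Sum.inr τ : DV K H L) τ.k = τ.f.1 τ.k + τ.sg / 2 := by
  show (τ.f.1 τ.k : ℝ) + τ.sg * ((if τ.k = τ.k then 3 / 4 else 0) -
        (if τ.k = P τ.b ∨ τ.k = A τ.i ∨ τ.k = A (τ.i + 1) then 1 / 4 else 0)) = _
  have h : τ.k = P τ.b ∨ τ.k = A τ.i ∨ τ.k = A (τ.i + 1) := τ.hk
  rw [if_pos rfl, if_pos h]
  ring

theorem wt_c (τ : Tz K H L) {c : CV K} (hc : fc τ.b τ.i c) (hck : c ≠ τ.k) :
    wt (Sum.inr τ : DV K H L) c = τ.f.1 c - τ.sg / 4 := by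
  show (τ.f.1 c : ℝ) + τ.sg * ((if c = τ.k then 3 / 4 else 0) -
        (if c = P τ.b ∨ c = A τ.i ∨ c = A (τ.i + 1) then 1 / 4 else 0)) = _
  have h : c = P τ.b ∨ c = A τ.i ∨ c = A (τ.i + 1) := hc
  rw [if_neg hck, if_pos h]
  ring

theorem wt_out (τ : Tz K H L) {c : CV K} (hc : ¬ fc τ.b τ.i c) :
    wt (Sum.inr τ : DV K H L) c = 0 := by
  show (τ.f.1 c : ℝ) + τ.sg * ((if c = τ.k then 3 / 4 else 0) -
        (if c = P τ.b ∨ c = A τ.i ∨ c = A (τ.i + 1) then 1 / 4 else 0)) = _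
  have h : ¬ (c = P τ.b ∨ c = A τ.i ∨ c = A (τ.i + 1)) := hc
  have h' : c ≠ τ.k := by
    rintro rfl
    exact hc τ.hk
  rw [if_neg h', if_neg h, τ.sp c hc]
  simp

/-- the open half hexagon -/
structure Reg (τ : Tz K H L) (w : CV K → ℝ) : Prop where
  sp : Sp τ.b τ.i w
  pos : ∀ c, fc τ.b τ.i c → 0 < w c
  cl : ∀ c, fc τ.b τ.i c → |w c - τ.f.1 c| < 1
  side : 0 < τ.sg * (w τ.k - τ.f.1 τ.k)

theorem wt_pos (g : Par K H L) (τ : Tz K H L) {c : CV K} (hc : fc τ.b τ.i c) :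
    0 < wt (Sum.inr τ : DV K H L) c ∧ |wt (Sum.inr τ : DV K H L) c - τ.f.1 c| ≤ 1 / 2 := by
  by_cases hck : c = τ.k
  · subst hck
    rw [wt_k]
    unfold sg
    by_cases hs : τ.s
    · rw [if_pos hs]
      have : (0 : ℝ) ≤ τ.f.1 τ.k := Nat.cast_nonneg _
      refine ⟨by linarith, ?_⟩
      rw [abs_le]
      constructor <;> linarith
    · rw [if_neg hs]
      have h3 : (3 : ℝ) ≤ τ.f.1 τ.k := by exact_mod_cast τ.three g (by simpa using hs)
      refine ⟨by linarith, ?_⟩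
      rw [abs_le]
      constructor <;> linarith
  · rw [wt_c τ hc hck]
    have h1 : (1 : ℝ) ≤ τ.f.1 c := by exact_mod_cast τ.pos g hc hck
    rcases τ.sg_sq with h | h <;> rw [h] <;> refine ⟨by linarith, ?_⟩ <;> rw [abs_le] <;>
      constructor <;> linarith

/-- the centre is in the open half hexagon -/
theorem reg_wt (g : Par K H L) (τ : Tz K H L) : Reg τ (wt (Sum.inr τ : DV K H L)) where
  sp := fun c hc => wt_out τ hc
  pos := fun c hc => (wt_pos g τ hc).1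
  cl := fun c hc => lt_of_le_of_lt (wt_pos g τ hc).2 (by norm_num)
  side := by
    rw [wt_k]
    rcases τ.sg_sq with h | h <;> rw [h] <;> ring_nf <;> norm_num

/-- boundary vertices are close -/
theorem rim_cl {τ : Tz K H L} {h : TV K H} (hr : Rim (Sum.inr τ : DV K H L) h) :
    Sp τ.b τ.i h.1 ∧ (∀ c, |(h.1 c : ℝ) - τ.f.1 c| ≤ 1) ∧
      ((h.1 τ.k : ℝ) = τ.f.1 τ.k ∨ (h.1 τ.k : ℝ) = τ.f.1 τ.k + τ.sg) := by
  obtain ⟨h1, h2, h3⟩ := hr
  refine ⟨h1, ?_, ?_⟩
  · intro c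
    rcases h2 with rfl | ⟨k, -, -, -, c', d', -, -, -, -, s1, s2, s3⟩
    · simp
    · by_cases hc : c = c'
      · subst hc
        have : (τ.f.1 c : ℝ) = h.1 c + 1 := by exact_mod_cast s1
        rw [this]
        norm_num
      · by_cases hd : c = d'
        · subst hd
          have : (h.1 c : ℝ) = τ.f.1 c + 1 := by exact_mod_cast s2
          rw [this]
          norm_num
        · rw [s3 c hc hd]
          simp
  · unfold sg
    rcases h3 with h3 | ⟨hs, h3⟩ | ⟨hs, h3⟩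
    · left
      exact_mod_cast h3
    · right
      rw [if_pos hs]
      exact_mod_cast h3
    · right
      rw [hs]
      have : (τ.f.1 τ.k : ℝ) = h.1 τ.k + 1 := by exact_mod_cast h3
      rw [this]
      simp

/-- the open spokes are in the open half hexagon -/
theorem reg_spoke (g : Par K H L) {τ : Tz K H L} {h : TV K H}
    (hr : Rim (Sum.inr τ : DV K H L) h) {t : ℝ} (h0 : 0 < t) (h1 : t < 1) :
    Reg τ fun c => (1 - t) * wt (Sum.inr τ : DV K H L) c + t * h.1 c := by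
  obtain ⟨r1, r2, r3⟩ := rim_cl hr
  refine ⟨?_, ?_, ?_, ?_⟩
  · intro c hc
    show (1 - t) * wt (Sum.inr τ : DV K H L) c + t * h.1 c = 0
    rw [wt_out τ hc, r1 c hc]
    simp
  · intro c hc
    have a1 := (wt_pos g τ hc).1
    have a2 : (0 : ℝ) ≤ h.1 c := Nat.cast_nonneg _
    have a3 : 0 < 1 - t := by linarith
    positivity
  · intro c hc
    have a1 := (wt_pos g τ hc).2
    have a2 := r2 c
    have e : (1 - t) * wt (Sum.inr τ : DV K H L) c + t * h.1 c - τ.f.1 c =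
        (1 - t) * (wt (Sum.inr τ : DV K H L) c - τ.f.1 c) + t * (h.1 c - τ.f.1 c) := by ring
    rw [e]
    refine lt_of_le_of_lt (abs_add_le _ _) ?_
    rw [abs_mul, abs_mul, abs_of_pos h0, abs_of_pos (by linarith : (0 : ℝ) < 1 - t)]
    nlinarith
  · have e : τ.sg * ((1 - t) * wt (Sum.inr τ : DV K H L) τ.k + t * h.1 τ.k - τ.f.1 τ.k) =
        (1 - t) / 2 * (τ.sg * τ.sg) + t * (τ.sg * (h.1 τ.k - τ.f.1 τ.k)) := by
      rw [wt_k]; ring
    show 0 < τ.sg * ((1 - t) * wt (Sum.inr τ : DV K H L) τ.k + t * h.1 τ.k - τ.f.1 τ.k)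
    rw [e]
    have a1 : τ.sg * τ.sg = 1 := by rcases τ.sg_sq with h | h <;> rw [h] <;> norm_num
    have a2 : 0 ≤ τ.sg * (h.1 τ.k - τ.f.1 τ.k) := by
      rcases r3 with r3 | r3
      · rw [r3]; simp
      · rw [r3, add_sub_cancel_left, a1]; norm_num
    rw [a1]
    nlinarith

/-- the open half hexagons are disjoint -/
theorem reg_uniq (g : Par K H L) {τ τ' : Tz K H L} {w : CV K → ℝ} (h : Reg τ w)
    (h' : Reg τ' w) : τ = τ' := by
  have hF : ∀ c, fc τ.b τ.i c → fc τ'.b τ'.i c := by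
    intro c hc
    by_contra hc'
    have := h.pos c hc
    rw [h'.sp c hc'] at this
    exact lt_irrefl _ this
  obtain ⟨hb, hi⟩ := fc_inj g.hK hF
  have hf : τ.f = τ'.f := by
    refine eq_of_close g τ.sp (b := τ.b) (i := τ.i) (by rw [hb, hi]; exact τ'.sp)
      (by rw [τ.cls2, τ'.cls2]) ?_
    intro c hc
    have a1 := h.cl c hc
    have a2 := h'.cl c (hF c hc)
    have a3 : |(τ.f.1 c : ℝ) - τ'.f.1 c| < 2 := by
      have e : (τ.f.1 c : ℝ) - τ'.f.1 c = (w c - τ'.f.1 c) - (w c - τ.f.1 c) := by ring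
      rw [e]
      refine lt_of_le_of_lt (abs_sub _ _) ?_
      linarith
    have a4 : |(τ.f.1 c : ℤ) - τ'.f.1 c| < 2 := by exact_mod_cast a3
    omega
  have hk : τ.k = τ'.k := by
    refine uniq_street g τ.sp τ.cls_ne0 τ.hk ?_ τ.dvd ?_
    · rw [hb, hi]; exact τ'.hk
    · rw [hf]; exact τ'.dvd
  have hs : τ.s = τ'.s := by
    have a1 := h.side
    have a2 := h'.side
    rw [← hk, ← hf] at a2
    unfold sg at a1 a2
    by_cases h1 : τ.s = true <;> by_cases h2 : τ'.s = true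
    · rw [h1, h2]
    · rw [if_pos h1] at a1
      rw [if_neg h2] at a2
      linarith
    · rw [if_neg h1] at a1
      rw [if_pos h2] at a2
      linarith
    · simp only [Bool.not_eq_true] at h1 h2
      rw [h1, h2]
  exact ext' hf hb hi hk hs

/-- the coordinate of the street is not an integer in the open half hexagon -/
theorem reg_not_int {τ : Tz K H L} {w : CV K → ℝ} (h : Reg τ w) (n : ℕ) : w τ.k ≠ n := by
  intro hn
  have a1 := h.cl τ.k τ.hk
  have a2 := h.side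
  rw [hn] at a1 a2
  have a3 : |(n : ℤ) - τ.f.1 τ.k| < 1 := by exact_mod_cast a1
  have a4 : (n : ℤ) = τ.f.1 τ.k := by
    have := Int.abs_lt_one_iff.1 a3
    omega
  have a5 : (n : ℝ) = τ.f.1 τ.k := by exact_mod_cast a4
  rw [a5, sub_self, mul_zero] at a2
  exact lt_irrefl _ a2

end

end Pool.Agent.H3.FF
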