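import Pool.Agent.H3.FF.Pull

/-!
# MP_4c8b8e_co: charts on two neighbouring coarse faces
-/

set_option autoImplicit false
set_option linter.unusedSectionVars false
set_option linter.unusedVariables false

open scoped BigOperators

namespace Pool.Agent.H3.FF

open CV TV Tz Pool.Agent.H58.FF Classical

section

variable {K : ℕ} [NeZero K]

/-- two coarse faces with the common edge `u v` -/
structure Rh (K : ℕ) [NeZero K] where
  b : Bool
  i : ZMod K
  b' : Bool
  i' : ZMod K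
  u : CV K
  v : CV K
  k : CV K
  k' : CV K
  hu : fc b i u
  hv : fc b i v
  hk : fc b i k
  hu' : fc b' i' u
  hv' : fc b' i' v
  hk' : fc b' i' k'
  uv : u ≠ v
  uk : u ≠ k
  vk : v ≠ k
  uk' : u ≠ k'
  vk' : v ≠ k'
  kk' : k ≠ k'
  comp : ∀ b'' i'', fc b'' i'' u → fc b'' i'' v → (b'' = b ∧ i'' = i) ∨ (b'' = b' ∧ i'' = i')
  kap1 : kap v = kap u + 1

theorem kap_third (g4 : 4 ≤ K) (he : 2 ∣ K) {b : Bool} {i : ZMod K} {u v k : CV K}
    (hu : fc b i u) (hv : fc b i v) (hk : fc b i k) (uv : u ≠ v) (uk : u ≠ k) (vk : v ≠ k)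
    (h : kap v = kap u + 1) : kap k = kap u - 1 := by
  have h1 := kap_ne g4 he hu hk uk
  have h2 := kap_ne g4 he hv hk vk
  have : ∀ a b c : ZMod 3, b = a + 1 → a ≠ c → b ≠ c → c = a - 1 := by decide
  exact this _ _ _ h h1 h2

/-- the opposite face -/
theorem rh_ex (g4 : 4 ≤ K) (he : 2 ∣ K) {b : Bool} {i : ZMod K} {k : CV K} (hk : fc b i k) :
    ∃ r : Rh K, r.b = b ∧ r.i = i ∧ r.k = k := by
  -- it is enough to give the rhombus without the order of `u` and `v`
  suffices h : ∃ (b' : Bool) (i' : ZMod K) (u v k' : CV K), fc b i u ∧ fc b i v ∧ fc b' i' u ∧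
      fc b' i' v ∧ fc b' i' k' ∧ u ≠ v ∧ u ≠ k ∧ v ≠ k ∧ u ≠ k' ∧ v ≠ k' ∧ k ≠ k' ∧
      ∀ b'' i'', fc b'' i'' u → fc b'' i'' v → (b'' = b ∧ i'' = i) ∨ (b'' = b' ∧ i'' = i') by
    obtain ⟨b', i', u, v, k', hu, hv, hu', hv', hk', uv, uk, vk, uk', vk', kk', comp⟩ := h
    have h1 := kap_ne g4 he hu hv uv
    have : ∀ a c : ZMod 3, a ≠ c → c = a + 1 ∨ a = c + 1 := by decide
    rcases this _ _ h1 with h2 | h2
    · exact ⟨⟨b, i, b', i', u, v, k, k', hu, hv, hk, hu', hv', hk', uv, uk, vk, uk', vk', kk',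
        comp, h2⟩, rfl, rfl, rfl⟩
    · exact ⟨⟨b, i, b', i', v, u, k, k', hv, hu, hk, hv', hu', hk', uv.symm, vk, uk, vk', uk',
        kk', fun b'' i'' a c => comp b'' i'' c a, h2⟩, rfl, rfl, rfl⟩
  have hPA : ∀ (b : Bool) (j : ZMod K), (P b : CV K) ≠ A j := by
    intro b j
    cases b <;> simp [P]
  have hPP : (P b : CV K) ≠ P (!b) := by
    cases b <;> simp [P]
  have hAA : ∀ j : ZMod K, (A j : CV K) ≠ A (j + 1) := fun j h => succ_ne g4 j (by injection h)
  have hAA2 : ∀ j : ZMod K, (A j : CV K) ≠ A (j + 1 + 1) := fun j h =>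
    succ_succ_ne g4 j (by injection h)
  rcases hk with rfl | rfl | rfl
  · refine ⟨!b, i, A i, A (i + 1), P (!b), fc_A _ _, fc_A' _ _, fc_A _ _, fc_A' _ _, fc_P _ _,
      hAA i, (hPA _ _).symm, (hPA _ _).symm, (hPA _ _).symm, (hPA _ _).symm, hPP, ?_⟩
    intro b'' i'' h1 h2
    have h1' := (fc_A_iff b'' i'' i).1 h1
    have h2' := (fc_A_iff b'' i'' (i + 1)).1 h2
    have h3 : i'' = i := by
      rcases h1' with h | h
      · exact h.symm
      · exfalso
        rcases h2' with h' | h'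
        · rw [h] at h'
          exact succ_succ_ne g4 i'' h'.symm
        · have := add_right_cancel h'
          rw [this] at h
          exact succ_ne g4 i'' h
    cases b <;> cases b'' <;> simp [h3]
  · refine ⟨b, i + 1, P b, A (i + 1), A (i + 1 + 1), fc_P _ _, fc_A' _ _, fc_P _ _, fc_A _ _,
      fc_A' _ _, hPA _ _, hPA _ _, (hAA i).symm, hPA _ _, hAA (i + 1), hAA2 i, ?_⟩
    intro b'' i'' h1 h2
    have h1' := (fc_apex_iff b'' b i'').1 h1
    rcases (fc_A_iff b'' i'' (i + 1)).1 h2 with h | h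
    · exact Or.inr ⟨h1'.symm, h.symm⟩
    · exact Or.inl ⟨h1'.symm, (add_right_cancel h).symm⟩
  · have e1 : i - 1 + 1 = i := by ring
    refine ⟨b, i - 1, P b, A i, A (i - 1), fc_P _ _, fc_A _ _, fc_P _ _, ?_,
      fc_A _ _, hPA _ _, hPA _ _, hAA i, hPA _ _, ?_, ?_, ?_⟩
    · have := fc_A' b (i - 1)
      rw [e1] at this
      exact this
    · have := hAA (i - 1)
      rw [e1] at this
      exact this.symm
    · have := hAA2 (i - 1)
      rw [e1] at this
      exact this.symm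
    intro b'' i'' h1 h2
    have h1' := (fc_apex_iff b'' b i'').1 h1
    rcases (fc_A_iff b'' i'' i).1 h2 with h | h
    · exact Or.inl ⟨h1'.symm, h.symm⟩
    · exact Or.inr ⟨h1'.symm, by rw [h]; ring⟩

namespace Rh

variable (r : Rh K) (H : ℕ)

/-- the coordinates of a point of the rhombus -/
def co (p : Pt) (e : CV K) : ℤ :=
  if e = r.u then H - p.1 - max p.2 0 else if e = r.v then p.1 + min p.2 0 else
    if e = r.k then max p.2 0 else if e = r.k' then max (-p.2) 0 else 0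

/-- the rhombus -/
def Reg (p : Pt) : Prop := 0 ≤ (H : ℤ) - p.1 - max p.2 0 ∧ 0 ≤ p.1 + min p.2 0

theorem co_u (p : Pt) : r.co H p r.u = H - p.1 - max p.2 0 := if_pos rfl

theorem co_v (p : Pt) : r.co H p r.v = p.1 + min p.2 0 := by
  unfold co
  rw [if_neg r.uv.symm, if_pos rfl]

theorem co_k (p : Pt) : r.co H p r.k = max p.2 0 := by
  unfold co
  rw [if_neg r.uk.symm, if_neg r.vk.symm, if_pos rfl]

theorem co_k' (p : Pt) : r.co H p r.k' = max (-p.2) 0 := by
  unfold co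
  rw [if_neg r.uk'.symm, if_neg r.vk'.symm, if_neg r.kk'.symm, if_pos rfl]

theorem co_e (p : Pt) {e : CV K} (h1 : e ≠ r.u) (h2 : e ≠ r.v) (h3 : e ≠ r.k)
    (h4 : e ≠ r.k') : r.co H p e = 0 := by
  unfold co
  rw [if_neg h1, if_neg h2, if_neg h3, if_neg h4]

theorem co_nonneg {p : Pt} (hp : Reg H p) (e : CV K) : 0 ≤ r.co H p e := by
  obtain ⟨h1, h2⟩ := hp
  unfold co
  split_ifs <;> first | exact h1 | exact h2 | exact le_max_right _ _ | exact le_rfl

theorem co_sum (p : Pt) {M : Type} [AddCommMonoid M] (F : CV K → M)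
    (hF : ∀ e, e ≠ r.u → e ≠ r.v → e ≠ r.k → e ≠ r.k' → F e = 0) :
    ∑ e, F e = F r.u + F r.v + F r.k + F r.k' := by
  rw [← Finset.sum_subset (Finset.subset_univ ({r.u, r.v, r.k, r.k'} : Finset (CV K)))]
  · rw [Finset.sum_insert (by simp [r.uv, r.uk, r.uk']), Finset.sum_insert (by simp [r.vk, r.vk']),
      Finset.sum_pair r.kk']
    simp only [add_assoc]
  · intro e _ he
    simp only [Finset.mem_insert, Finset.mem_singleton, not_or] at he
    exact hF e he.1 he.2.1 he.2.2.1 he.2.2.2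

theorem co_sp {p : Pt} (h : 0 ≤ p.2) (e : CV K) (he : ¬ fc r.b r.i e) : r.co H p e = 0 := by
  by_cases h4 : e = r.k'
  · rw [h4, co_k']
    exact max_eq_right (by omega)
  · exact r.co_e H p (fun h => he (h ▸ r.hu)) (fun h => he (h ▸ r.hv)) (fun h => he (h ▸ r.hk)) h4

theorem co_sp' {p : Pt} (h : p.2 ≤ 0) (e : CV K) (he : ¬ fc r.b' r.i' e) : r.co H p e = 0 := by
  by_cases h4 : e = r.k
  · rw [h4, co_k]
    exact max_eq_right h
  · exact r.co_e H p (fun h => he (h ▸ r.hu')) (fun h => he (h ▸ r.hv')) h4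
      (fun h => he (h ▸ r.hk'))

/-- the point of the lattice -/
def pnt (p : Pt) (hp : Reg H p) : TV K H :=
  ⟨fun e => (r.co H p e).toNat, by
    have h1 : ((∑ e, (r.co H p e).toNat : ℕ) : ℤ) = H := by
      push_cast
      rw [Finset.sum_congr rfl fun e _ => Int.toNat_of_nonneg (r.co_nonneg H hp e)]
      rw [r.co_sum p (r.co H p) (fun e a b c d => r.co_e H p a b c d), co_u, co_v, co_k, co_k']
      omega
    exact_mod_cast h1, by
    rcases le_total 0 p.2 with h | h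
    · exact ⟨r.b, r.i, fun e he => by
        show (r.co H p e).toNat = 0
        rw [r.co_sp H h e he]
        rfl⟩
    · exact ⟨r.b', r.i', fun e he => by
        show (r.co H p e).toNat = 0
        rw [r.co_sp' H h e he]
        rfl⟩⟩

theorem pnt_co {p : Pt} (hp : Reg H p) (e : CV K) : ((r.pnt H p hp).1 e : ℤ) = r.co H p e :=
  Int.toNat_of_nonneg (r.co_nonneg H hp e)

theorem pnt_sp {p : Pt} (hp : Reg H p) (h : 0 ≤ p.2) : Sp r.b r.i (r.pnt H p hp).1 := by
  intro e he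
  have := r.pnt_co H hp e
  rw [r.co_sp H h e he] at this
  exact_mod_cast this

theorem pnt_sp' {p : Pt} (hp : Reg H p) (h : p.2 ≤ 0) : Sp r.b' r.i' (r.pnt H p hp).1 := by
  intro e he
  have := r.pnt_co H hp e
  rw [r.co_sp' H h e he] at this
  exact_mod_cast this

theorem pnt_inj {p q : Pt} (hp : Reg H p) (hq : Reg H q) (h : r.pnt H p hp = r.pnt H q hq) :
    p = q := by
  have h1 : ∀ e, r.co H p e = r.co H q e := by
    intro e
    rw [← r.pnt_co H hp, ← r.pnt_co H hq, h]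
  have a1 := h1 r.v
  have a2 := h1 r.k
  have a3 := h1 r.k'
  rw [co_v, co_v] at a1
  rw [co_k, co_k] at a2
  rw [co_k', co_k'] at a3
  apply Prod.ext <;> omega

theorem pnt_cls {L : ℕ} (g : Par K H L) {p : Pt} (hp : Reg H p) :
    cls (r.pnt H p hp) = ((p.1 - p.2 : ℤ) : ZMod 3) := by
  rw [cls_eq]
  have h1 : ∀ e : CV K, kap e * (((r.pnt H p hp).1 e : ℕ) : ZMod 3) =
      kap e * ((r.co H p e : ℤ) : ZMod 3) := by
    intro e
    rw [← r.pnt_co H hp]
    push_cast
    rfl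
  rw [Finset.sum_congr rfl fun e _ => h1 e]
  rw [r.co_sum p (fun e => kap e * ((r.co H p e : ℤ) : ZMod 3))
    (fun e a b c d => by rw [r.co_e H p a b c d]; simp), co_u, co_v, co_k, co_k']
  have k2 := kap_third g.hK g.ev r.hu r.hv r.hk r.uv r.uk r.vk r.kap1
  have k3 := kap_third g.hK g.ev r.hu' r.hv' r.hk' r.uv r.uk' r.vk' r.kap1
  rw [r.kap1, k2, k3]
  have h5 : ((H : ℕ) : ZMod 3) = 0 := (ZMod.natCast_eq_zero_iff _ _).2 (g.l3.trans g.lh)
  have h3 : (3 : ZMod 3) = 0 := by decide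
  rcases le_total 0 p.2 with h | h
  · rw [max_eq_left h, min_eq_right h, max_eq_right (by omega : -p.2 ≤ 0)]
    push_cast
    rw [h5]
    ring
  · rw [max_eq_right h, min_eq_left h, max_eq_left (by omega : 0 ≤ -p.2)]
    push_cast
    rw [h5]
    linear_combination (p.2 : ZMod 3) * h3

/-- a step of the coordinates -/
theorem pnt_stp {p q : Pt} (hp : Reg H p) (hq : Reg H q) {c d : CV K} (hcd : c ≠ d)
    (h1 : r.co H p c = r.co H q c + 1) (h2 : r.co H q d = r.co H p d + 1)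
    (h3 : ∀ e, e ≠ c → e ≠ d → r.co H p e = r.co H q e) :
    Stp (r.pnt H p hp) (r.pnt H q hq) c d := by
  refine ⟨?_, ?_, fun e he1 he2 => ?_⟩
  · rw [← r.pnt_co H hp, ← r.pnt_co H hq] at h1
    exact_mod_cast h1
  · rw [← r.pnt_co H hp, ← r.pnt_co H hq] at h2
    exact_mod_cast h2
  · have := h3 e he1 he2
    rw [← r.pnt_co H hp, ← r.pnt_co H hq] at this
    exact_mod_cast this

/-- steps along the common edge -/
theorem step_uv {p : Pt} (hp : Reg H p) (hq : Reg H (p.1 + 1, p.2)) :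
    Stp (r.pnt H p hp) (r.pnt H (p.1 + 1, p.2) hq) r.u r.v := by
  refine r.pnt_stp H hp hq r.uv ?_ ?_ fun e h1 h2 => ?_
  · rw [co_u, co_u]
    dsimp only
    ring
  · rw [co_v, co_v]
    dsimp only
    ring
  · unfold co
    rw [if_neg h1, if_neg h2, if_neg h1, if_neg h2]

/-- steps towards `k` from `u` -/
theorem step_uk {p : Pt} (hp : Reg H p) (hq : Reg H (p.1, p.2 + 1)) (h : 0 ≤ p.2) :
    Stp (r.pnt H p hp) (r.pnt H (p.1, p.2 + 1) hq) r.u r.k := by
  refine r.pnt_stp H hp hq r.uk ?_ ?_ fun e h1 h2 => ?_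
  · rw [co_u, co_u]
    dsimp only
    omega
  · rw [co_k, co_k]
    dsimp only
    omega
  · unfold co
    rw [if_neg h1, if_neg h1, if_neg h2, if_neg h2]
    dsimp only
    split_ifs <;> omega

/-- steps towards `k` from `v` -/
theorem step_vk {p : Pt} (hp : Reg H p) (hq : Reg H (p.1 - 1, p.2 + 1)) (h : 0 ≤ p.2) :
    Stp (r.pnt H p hp) (r.pnt H (p.1 - 1, p.2 + 1) hq) r.v r.k := by
  refine r.pnt_stp H hp hq r.vk ?_ ?_ fun e h1 h2 => ?_
  · rw [co_v, co_v]
    dsimp only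
    omega
  · rw [co_k, co_k]
    dsimp only
    omega
  · unfold co
    rw [if_neg h1, if_neg h1, if_neg h2, if_neg h2]
    dsimp only
    split_ifs <;> omega

/-- steps from `k'` to `v` -/
theorem step_kv' {p : Pt} (hp : Reg H p) (hq : Reg H (p.1, p.2 + 1)) (h : p.2 + 1 ≤ 0) :
    Stp (r.pnt H p hp) (r.pnt H (p.1, p.2 + 1) hq) r.k' r.v := by
  refine r.pnt_stp H hp hq r.vk'.symm ?_ ?_ fun e h1 h2 => ?_
  · rw [co_k', co_k']
    dsimp only
    omega
  · rw [co_v, co_v]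
    dsimp only
    omega
  · unfold co
    rw [if_neg h2, if_neg h2, if_neg h1, if_neg h1]
    dsimp only
    split_ifs <;> omega

/-- steps from `k'` to `u` -/
theorem step_ku' {p : Pt} (hp : Reg H p) (hq : Reg H (p.1 - 1, p.2 + 1)) (h : p.2 + 1 ≤ 0) :
    Stp (r.pnt H p hp) (r.pnt H (p.1 - 1, p.2 + 1) hq) r.k' r.u := by
  refine r.pnt_stp H hp hq r.uk'.symm ?_ ?_ fun e h1 h2 => ?_
  · rw [co_k', co_k']
    dsimp only
    omega
  · rw [co_u, co_u]
    dsimp only
    omega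
  · unfold co
    rw [if_neg h2, if_neg h2, if_neg h1, if_neg h1]
    dsimp only
    split_ifs <;> omega

theorem adf1 {p q : Pt} (hp : Reg H p) (hq : Reg H q) (h : 0 ≤ p.2) (h' : 0 ≤ q.2)
    {c d k : CV K} (hc : fc r.b r.i c) (hd : fc r.b r.i d) (hk : fc r.b r.i k) (hck : c ≠ k)
    (hdk : d ≠ k) (hs : Stp (r.pnt H p hp) (r.pnt H q hq) c d) :
    Ad (r.pnt H p hp) (r.pnt H q hq) :=
  ⟨r.b, r.i, k, r.pnt_sp H hp h, r.pnt_sp H hq h', hk, c, d, hc, hd, hck, hdk, hs⟩

theorem adf2 {p q : Pt} (hp : Reg H p) (hq : Reg H q) (h : p.2 ≤ 0) (h' : q.2 ≤ 0)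
    {c d k : CV K} (hc : fc r.b' r.i' c) (hd : fc r.b' r.i' d) (hk : fc r.b' r.i' k)
    (hck : c ≠ k) (hdk : d ≠ k) (hs : Stp (r.pnt H p hp) (r.pnt H q hq) c d) :
    Ad (r.pnt H p hp) (r.pnt H q hq) :=
  ⟨r.b', r.i', k, r.pnt_sp' H hp h, r.pnt_sp' H hq h', hk, c, d, hc, hd, hck, hdk, hs⟩

/-- neighbours are adjacent, three directions -/
theorem adj3 {p q : Pt} (hp : Reg H p) (hq : Reg H q)
    (h : q = (p.1 + 1, p.2) ∨ q = (p.1, p.2 + 1) ∨ q = (p.1 - 1, p.2 + 1)) :
    Ad (r.pnt H p hp) (r.pnt H q hq) := by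
  rcases h with rfl | rfl | rfl
  · rcases le_total 0 p.2 with h | h
    · exact r.adf1 H hp hq h h r.hu r.hv r.hk r.uk r.vk (r.step_uv H hp hq)
    · exact r.adf2 H hp hq h h r.hu' r.hv' r.hk' r.uk' r.vk' (r.step_uv H hp hq)
  · by_cases h : 0 ≤ p.2
    · exact r.adf1 H hp hq h (by dsimp only; omega) r.hu r.hk r.hv r.uv r.vk.symm
        (r.step_uk H hp hq h)
    · exact r.adf2 H hp hq (by omega) (by dsimp only; omega) r.hk' r.hv' r.hu' r.uk'.symm
        r.uv.symm (r.step_kv' H hp hq (by omega))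
  · by_cases h : 0 ≤ p.2
    · exact r.adf1 H hp hq h (by dsimp only; omega) r.hv r.hk r.hu r.uv.symm r.uk.symm
        (r.step_vk H hp hq h)
    · exact r.adf2 H hp hq (by omega) (by dsimp only; omega) r.hk' r.hu' r.hv' r.vk'.symm
        r.uv (r.step_ku' H hp hq (by omega))

theorem adj6 {p q : Pt} (hp : Reg H p) (hq : Reg H q) (h : q ∈ nbs p) :
    Ad (r.pnt H p hp) (r.pnt H q hq) := by
  obtain ⟨p1, p2⟩ := p
  simp only [nbs, Finset.mem_insert, Finset.mem_singleton] at h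
  rcases h with rfl | rfl | rfl | rfl | rfl | rfl
  · exact r.adj3 H hp hq (Or.inl rfl)
  · exact r.adj3 H hp hq (Or.inr (Or.inl rfl))
  · exact r.adj3 H hp hq (Or.inr (Or.inr rfl))
  · exact (r.adj3 H hq hp (Or.inl (by simp))).symm
  · exact (r.adj3 H hq hp (Or.inr (Or.inl (by simp)))).symm
  · exact (r.adj3 H hq hp (Or.inr (Or.inr (by simp)))).symm

/-- steps from a point are unique -/
theorem stp_eq {f g g' : TV K H} {c d : CV K} (h1 : Stp f g c d) (h2 : Stp f g' c d) :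
    g = g' := by
  apply tv_ext
  intro e
  linarith [stp_fun h1 e, stp_fun h2 e]

/-- all neighbours of an interior point are in the rhombus -/
theorem lift {L : ℕ} (g : Par K H L) {p : Pt} (hp : Reg H p) (hn : ∀ q ∈ nbs p, Reg H q)
    {f : TV K H} (h : Ad (r.pnt H p hp) f) :
    ∃ (q : Pt) (hq : Reg H q), q ∈ nbs p ∧ r.pnt H q hq = f := by
  obtain ⟨p1, p2⟩ := p
  have n1 : ((p1 + 1, p2) : Pt) ∈ nbs (p1, p2) := by simp [nbs]
  have n2 : ((p1, p2 + 1) : Pt) ∈ nbs (p1, p2) := by simp [nbs]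
  have n3 : ((p1 - 1, p2 + 1) : Pt) ∈ nbs (p1, p2) := by simp [nbs]
  have n4 : ((p1 - 1, p2) : Pt) ∈ nbs (p1, p2) := by simp [nbs]
  have n5 : ((p1, p2 - 1) : Pt) ∈ nbs (p1, p2) := by simp [nbs]
  have n6 : ((p1 + 1, p2 - 1) : Pt) ∈ nbs (p1, p2) := by simp [nbs]
  obtain ⟨b'', i'', k'', s1, s2, -, c, d, hc, hd, -, -, s⟩ := h
  have hcd := TV.Stp.ne s
  have hfu : (r.pnt H (p1, p2) hp).1 r.u ≠ 0 := by
    have h1 := r.pnt_co H hp r.u
    rw [co_u] at h1
    have h2 := (hn _ n1).1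
    dsimp only at h1 h2
    omega
  have hfv : (r.pnt H (p1, p2) hp).1 r.v ≠ 0 := by
    have h1 := r.pnt_co H hp r.v
    rw [co_v] at h1
    have h2 := (hn _ n4).2
    dsimp only at h1 h2
    omega
  have hco := stp_fun s
  have hnn : ∀ e, (0 : ℤ) ≤ f.1 e := fun e => by positivity
  rcases r.comp b'' i'' (supp_fc s1 hfu) (supp_fc s1 hfv) with ⟨rfl, rfl⟩ | ⟨rfl, rfl⟩
  · have hp2 : 0 ≤ p2 := by
      have h1 := r.pnt_co H hp r.k'
      rw [co_k', s1 r.k' (fun h => by
        rcases fc_three r.hu r.hv r.hk r.uv r.uk r.vk h with h | h | h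
        · exact r.uk' h.symm
        · exact r.vk' h.symm
        · exact r.kk' h.symm)] at h1
      dsimp only at h1
      omega
    have hk0 : c = r.k → 0 < p2 := by
      rintro rfl
      have h1 := r.pnt_co H hp r.k
      rw [co_k] at h1
      have h2 := s.1
      dsimp only at h1
      omega
    rcases fc_three r.hu r.hv r.hk r.uv r.uk r.vk hc with rfl | rfl | rfl <;>
      rcases fc_three r.hu r.hv r.hk r.uv r.uk r.vk hd with rfl | rfl | rfl
    · exact absurd rfl hcd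
    · exact ⟨_, hn _ n1, n1, stp_eq H (r.step_uv H hp (hn _ n1)) s⟩
    · exact ⟨_, hn _ n2, n2, stp_eq H (r.step_uk H hp (hn _ n2) hp2) s⟩
    · refine ⟨_, hn _ n4, n4, stp_eq H ?_ s⟩
      have := (r.step_uv H (hn _ n4) (by simpa using hp)).symm
      simpa using this
    · exact absurd rfl hcd
    · exact ⟨_, hn _ n3, n3, stp_eq H (r.step_vk H hp (hn _ n3) hp2) s⟩
    · refine ⟨_, hn _ n5, n5, stp_eq H ?_ s⟩
      have := (r.step_uk H (hn _ n5) (by simpa using hp)
        (by have := hk0 rfl; dsimp only; omega)).symm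
      simpa using this
    · refine ⟨_, hn _ n6, n6, stp_eq H ?_ s⟩
      have := (r.step_vk H (hn _ n6) (by simpa using hp)
        (by have := hk0 rfl; dsimp only; omega)).symm
      simpa using this
    · exact absurd rfl hcd
  · have hp2 : p2 ≤ 0 := by
      have h1 := r.pnt_co H hp r.k
      rw [co_k, s1 r.k (fun h => by
        rcases fc_three r.hu' r.hv' r.hk' r.uv r.uk' r.vk' h with h | h | h
        · exact r.uk h.symm
        · exact r.vk h.symm
        · exact r.kk' h)] at h1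
      dsimp only at h1
      omega
    have hk0 : c = r.k' → p2 < 0 := by
      rintro rfl
      have h1 := r.pnt_co H hp r.k'
      rw [co_k'] at h1
      have h2 := s.1
      dsimp only at h1
      omega
    rcases fc_three r.hu' r.hv' r.hk' r.uv r.uk' r.vk' hc with rfl | rfl | rfl <;>
      rcases fc_three r.hu' r.hv' r.hk' r.uv r.uk' r.vk' hd with rfl | rfl | rfl
    · exact absurd rfl hcd
    · exact ⟨_, hn _ n1, n1, stp_eq H (r.step_uv H hp (hn _ n1)) s⟩
    · refine ⟨_, hn _ n6, n6, stp_eq H ?_ s⟩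
      have := (r.step_ku' H (hn _ n6) (by simpa using hp) (by dsimp only; omega)).symm
      simpa using this
    · refine ⟨_, hn _ n4, n4, stp_eq H ?_ s⟩
      have := (r.step_uv H (hn _ n4) (by simpa using hp)).symm
      simpa using this
    · exact absurd rfl hcd
    · refine ⟨_, hn _ n5, n5, stp_eq H ?_ s⟩
      have := (r.step_kv' H (hn _ n5) (by simpa using hp) (by dsimp only; omega)).symm
      simpa using this
    · exact ⟨_, hn _ n3, n3, stp_eq H (r.step_ku' H hp (hn _ n3)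
        (by have := hk0 rfl; dsimp only; omega)) s⟩
    · exact ⟨_, hn _ n2, n2, stp_eq H (r.step_kv' H hp (hn _ n2)
        (by have := hk0 rfl; dsimp only; omega)) s⟩
    · exact absurd rfl hcd

end Rh

/-- the chart of a rhombus -/
noncomputable def Rh.chart {H L : ℕ} (r : Rh K) (g : Par K H L) (p0 : Pt) (R : ℕ)
    (hR : ∀ p, dst p p0 ≤ R → Rh.Reg H p) (f : TV K H) : Chart K H p0 R where
  φ p := if hp : Rh.Reg H p then r.pnt H p hp else f
  inj p q hp hq h := by
    rw [dif_pos (hR p hp), dif_pos (hR q hq)] at h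
    exact r.pnt_inj H (hR p hp) (hR q hq) h
  adj p q hp hq h := by
    rw [dif_pos (hR p hp), dif_pos (hR q hq)]
    exact r.adj6 H (hR p hp) (hR q hq) h
  lift p hp f' h := by
    have hp' : Rh.Reg H p := hR p hp.le
    rw [dif_pos hp'] at h
    obtain ⟨q, hq, h1, h2⟩ := r.lift H g hp' (fun q hq => hR q (by
      have := ar_near p q p0 (R - 1) hq (by omega)
      omega)) h
    exact ⟨q, h1, by rw [dif_pos hq]; exact h2⟩
  cls p hp := by
    rw [dif_pos (hR p hp), r.pnt_cls H g]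
    unfold isC
    constructor
    · intro h
      have h1 : ((p.1 - p.2 - 2 : ℤ) : ZMod 3) = 0 := by
        push_cast at h ⊢
        rw [h]
        ring
      rw [ZMod.intCast_zmod_eq_zero_iff_dvd] at h1
      omega
    · intro h
      have h1 : ((p.1 - p.2 - 2 : ℤ) : ZMod 3) = 0 := by
        rw [ZMod.intCast_zmod_eq_zero_iff_dvd]
        push_cast
        omega
      push_cast at h1 ⊢
      linear_combination h1

/-- charts exist at a distance from the boundary of a rhombus -/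
theorem chart_ex' {H L : ℕ} (g : Par K H L) (f : TV K H) (R : ℕ) {b : Bool} {i : ZMod K}
    {k : CV K} (hs : Sp b i f.1) (hk : fc b i k) (hf : ∀ e, fc b i e → e ≠ k → R ≤ f.1 e) :
    ∃ (p0 : Pt) (C : Chart K H p0 R), C.φ p0 = f := by
  obtain ⟨r, rfl, rfl, rfl⟩ := rh_ex g.hK g.ev hk
  have hsum := sum_H g f hs r.hu r.hv r.hk r.uv r.uk r.vk
  have h1 := hf _ r.hu r.uk
  have h2 := hf _ r.hv r.vk
  have hR : ∀ p, dst p ((f.1 r.v : ℤ), (f.1 r.k : ℤ)) ≤ R → Rh.Reg H p := by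
    intro p hp
    rw [ar_dst] at hp
    dsimp only at hp
    unfold Rh.Reg
    omega
  refine ⟨((f.1 r.v : ℤ), (f.1 r.k : ℤ)), r.chart g _ R hR f, ?_⟩
  have hp0 : Rh.Reg H ((f.1 r.v : ℤ), (f.1 r.k : ℤ)) := by
    unfold Rh.Reg
    dsimp only
    omega
  show (if hp : Rh.Reg H ((f.1 r.v : ℤ), (f.1 r.k : ℤ)) then r.pnt H _ hp else f) = f
  rw [dif_pos hp0]
  apply tv_ext
  intro e
  rw [r.pnt_co]
  by_cases h5 : fc r.b r.i e
  · rcases fc_three r.hu r.hv r.hk r.uv r.uk r.vk h5 with rfl | rfl | rfl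
    · rw [Rh.co_u]
      dsimp only
      omega
    · rw [Rh.co_v]
      dsimp only
      omega
    · rw [Rh.co_k]
      dsimp only
      omega
  · rw [hs e h5, r.co_sp H (by dsimp only; omega) e h5]
    rfl

theorem fc_others (g4 : 4 ≤ K) {b : Bool} {i : ZMod K} {k : CV K} (hk : fc b i k) :
    ∃ c d : CV K, fc b i c ∧ fc b i d ∧ c ≠ d ∧ c ≠ k ∧ d ≠ k := by
  have hne : (P b : CV K) ≠ A i := by cases b <;> simp [P]
  obtain ⟨c, hc, hck⟩ : ∃ c : CV K, fc b i c ∧ c ≠ k := by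
    by_cases hk : k = P b
    · exact ⟨A i, fc_A _ _, by rw [hk]; exact hne.symm⟩
    · exact ⟨P b, fc_P _ _, fun h => hk h.symm⟩
  obtain ⟨d, hd, h4, h5⟩ := fc_third g4 hc hk hck
  exact ⟨c, d, hc, hd, h4, hck, Ne.symm h5⟩

/-- the minimal coordinate -/
theorem min_coord (f : CV K → ℕ) (b : Bool) (i : ZMod K) :
    ∃ k : CV K, fc b i k ∧ ∀ e, fc b i e → f k ≤ f e := by
  obtain ⟨k, hk, hmin⟩ := Finset.exists_min_image ({P b, A i, A (i + 1)} : Finset (CV K))
    (fun e => f e) ⟨P b, by simp⟩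
  exact ⟨k, by simpa [fc] using hk, fun e he => hmin e (by simpa [fc] using he)⟩

/-- charts exist away from the coarse vertices -/
theorem chart_ex {H L : ℕ} (g : Par K H L) (f : TV K H) (R : ℕ)
    (hf : ∀ u, f.1 u + 2 * R ≤ H) : ∃ (p0 : Pt) (C : Chart K H p0 R), C.φ p0 = f := by
  obtain ⟨b, i, hs⟩ := f.2.2
  obtain ⟨k, hk, hmin⟩ := min_coord f.1 b i
  refine chart_ex' g f R hs hk fun e he hek => ?_
  obtain ⟨d, hd, hed, hkd⟩ := fc_third g.hK he hk hek
  have h1 := sum_H g f hs he hk hd hek hed hkd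
  have h2 := hf d
  have h3 := hmin e he
  omega

end

end Pool.Agent.H3.FF
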