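import Pool.Agent.H3.FF.Inst

/-!
# MP_4c8b8e_co: every edge of the lattice lies in exactly two triangles
-/

set_option autoImplicit false
set_option linter.unusedSectionVars false
set_option linter.unusedVariables false

open scoped BigOperators

namespace Pool.Agent.H3.FF

open CV TV Tz Pool.Agent.FM Classical

open Pool.Agent.H58.FG (TL)

section

variable {K H L : ℕ} [NeZero K]

theorem stp_of_fun {f f' : TV K H} {c d : CV K} (hcd : c ≠ d)
    (h : ∀ e, (f.1 e : ℤ) = f'.1 e + dl c e - dl d e) : Stp f f' c d := by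
  refine ⟨?_, ?_, fun e h1 h2 => ?_⟩
  · have := h c
    rw [dl_self, dl_ne hcd] at this
    omega
  · have := h d
    rw [dl_self, dl_ne hcd.symm] at this
    omega
  · have := h e
    rw [dl_ne h1, dl_ne h2] at this
    omega

/-- moving a unit from `c` to `d` inside a face -/
theorem mv_ex {f : TV K H} {b : Bool} {i : ZMod K} (hs : Sp b i f.1) {c d : CV K}
    (hc : fc b i c) (hd : fc b i d) (hcd : c ≠ d) (h0 : f.1 c ≠ 0) :
    ∃ x : TV K H, Stp f x c d ∧ Sp b i x.1 := by
  have hsp : Sp b i (fun e => if e = c then f.1 c - 1 else if e = d then f.1 d + 1 else f.1 e) := by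
    intro e he
    have h1 : e ≠ c := fun h => he (h ▸ hc)
    have h2 : e ≠ d := fun h => he (h ▸ hd)
    show (if e = c then f.1 c - 1 else if e = d then f.1 d + 1 else f.1 e) = 0
    rw [if_neg h1, if_neg h2]
    exact hs e he
  have hz : ∀ e, (((if e = c then f.1 c - 1 else if e = d then f.1 d + 1 else f.1 e : ℕ)) : ℤ) =
      f.1 e - dl c e + dl d e := by
    intro e
    unfold dl
    split_ifs with h1 h2 h2
    · exact absurd (h1.symm.trans h2) hcd
    · subst h1
      push_cast [Nat.one_le_iff_ne_zero.2 h0]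
      ring
    · subst h2
      push_cast
      ring
    · ring
  have hsum : ∑ e, (if e = c then f.1 c - 1 else if e = d then f.1 d + 1 else f.1 e : ℕ) = H := by
    have h1 : ((∑ e, (if e = c then f.1 c - 1 else if e = d then f.1 d + 1 else f.1 e : ℕ) : ℕ) : ℤ)
        = H := by
      rw [Nat.cast_sum, Finset.sum_congr rfl fun e _ => hz e, Finset.sum_add_distrib,
        Finset.sum_sub_distrib]
      have h2 : ∑ e, ((f.1 e : ℕ) : ℤ) = H := by
        exact_mod_cast f.2.1
      have h3 : ∀ c : CV K, ∑ e, dl c e = 1 := by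
        intro c
        unfold dl
        simp
      rw [h2, h3, h3]
      ring
    exact_mod_cast h1
  refine ⟨⟨fun e => if e = c then f.1 c - 1 else if e = d then f.1 d + 1 else f.1 e, hsum,
    b, i, hsp⟩, ?_, hsp⟩
  apply stp_of_fun hcd
  intro e
  have := hz e
  show (f.1 e : ℤ) = ((if e = c then f.1 c - 1 else if e = d then f.1 d + 1 else f.1 e : ℕ) : ℤ)
    + dl c e - dl d e
  linarith

/-- the opposite face at the edge `c d` -/
theorem opp_ex (g : Par K H L) {b : Bool} {i : ZMod K} {c d k : CV K} (hc : fc b i c)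
    (hd : fc b i d) (hk : fc b i k) (hcd : c ≠ d) (hck : c ≠ k) (hdk : d ≠ k) :
    ∃ (b' : Bool) (i' : ZMod K) (k' : CV K), fc b' i' c ∧ fc b' i' d ∧ fc b' i' k' ∧ c ≠ k' ∧
      d ≠ k' ∧ k ≠ k' ∧ ¬ fc b i k' ∧
      ∀ b'' i'', fc b'' i'' c → fc b'' i'' d → (b'' = b ∧ i'' = i) ∨ (b'' = b' ∧ i'' = i') := by
  obtain ⟨r, rfl, rfl, rfl⟩ := rh_ex g.hK g.ev hk
  have hnk : ¬ fc r.b r.i r.k' := by
    intro h5
    rcases fc_three r.hu r.hv r.hk r.uv r.uk r.vk h5 with h | h | h
    · exact r.uk' h.symm
    · exact r.vk' h.symm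
    · exact r.kk' h.symm
  rcases fc_three r.hu r.hv r.hk r.uv r.uk r.vk hc with rfl | rfl | rfl
  · rcases fc_three r.hu r.hv r.hk r.uv r.uk r.vk hd with rfl | rfl | rfl
    · exact absurd rfl hcd
    · exact ⟨r.b', r.i', r.k', r.hu', r.hv', r.hk', r.uk', r.vk', r.kk', hnk, r.comp⟩
    · exact absurd rfl hdk
  · rcases fc_three r.hu r.hv r.hk r.uv r.uk r.vk hd with rfl | rfl | rfl
    · exact ⟨r.b', r.i', r.k', r.hv', r.hu', r.hk', r.vk', r.uk', r.kk', hnk,
        fun b'' i'' h1 h2 => r.comp b'' i'' h2 h1⟩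
    · exact absurd rfl hcd
    · exact absurd rfl hdk
  · exact absurd rfl hck

/-- the common neighbours of the end points of an edge, types -/
theorem common_type {a b z : TV K H} {c d p q r s : CV K} (h : Stp a b c d) (h1 : Stp a z p q)
    (h2 : Stp b z r s) : (p = c ∧ q = s ∧ r = d ∧ q ≠ c ∧ q ≠ d) ∨
      (s = c ∧ r = p ∧ q = d ∧ p ≠ c ∧ p ≠ d) := by
  have hcd := TV.Stp.ne h
  have hpq := TV.Stp.ne h1
  have hrs := TV.Stp.ne h2
  have e0 := stp_fun h
  have e1 := stp_fun h1
  have e2 := stp_fun h2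
  have key : ∀ e, dl c e + dl q e + dl r e = dl d e + dl p e + dl s e := by
    intro e
    linarith [e0 e, e1 e, e2 e]
  by_cases hpc : p = c
  · left
    subst hpc
    have hqs : q = s := by
      by_contra hcon
      have := key s
      rw [dl_self] at this
      rw [dl_ne (Ne.symm hcon), dl_ne (Ne.symm hrs)] at this
      linarith [dl_nonneg d s]
    subst hqs
    have hrd : r = d := by
      by_contra hcon
      have := key r
      rw [dl_self, dl_ne hcon] at this
      linarith
    subst hrd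
    exact ⟨rfl, rfl, rfl, hpq.symm, hrs.symm⟩
  · right
    have hsc : s = c := by
      by_contra hcon
      have := key c
      rw [dl_self, dl_ne hcd, dl_ne (Ne.symm hpc), dl_ne (Ne.symm hcon)] at this
      linarith [dl_nonneg q c, dl_nonneg r c]
    subst hsc
    have hrp : r = p := by
      by_contra hcon
      have := key p
      rw [dl_self, dl_ne hpq, dl_ne (Ne.symm hcon)] at this
      linarith [dl_nonneg d p]
    subst hrp
    have hqd : q = d := by
      by_contra hcon
      have := key q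
      rw [dl_self, dl_ne hcon] at this
      linarith
    subst hqd
    exact ⟨rfl, rfl, rfl, hpc, hpq⟩

/-- every edge of the lattice lies in exactly two triangles -/
theorem tri_TL (g : Par K H L) : Tri (TL K H) := by
  intro a b hab
  have hH : 2 ≤ H := by
    have h1 := Nat.le_of_dvd g.pos (g.l3.trans g.lh)
    omega
  obtain ⟨b0, i0, k, ha, hb, hk, c, d, hc, hd, hck, hdk, s⟩ := hab
  have hcd := TV.Stp.ne s
  have hsum := sum_H g a ha hc hd hk hcd hck hdk
  have hac : a.1 c ≠ 0 := by rw [s.1]; omega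
  have hbd : b.1 d ≠ 0 := by rw [s.2.1]; omega
  obtain ⟨z1, s1, hz1⟩ := mv_ex ha hc hk hck hac
  have s1' : Stp b z1 d k := by
    apply stp_of_fun hdk
    intro e
    linarith [stp_fun s e, stp_fun s1 e]
  have ad1 : Ad a z1 := ⟨b0, i0, d, ha, hz1, hd, c, k, hc, hk, hcd, hdk.symm, s1⟩
  have ad1' : Ad b z1 := ⟨b0, i0, c, hb, hz1, hc, d, k, hd, hk, hcd.symm, hck.symm, s1'⟩
  obtain ⟨b', i', k', hc', hd', hk', hck', hdk', hkk', hnk', comp⟩ :=
    opp_ex g hc hd hk hcd hck hdk
  -- the general form of a common neighbour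
  have gen : ∀ z, Ad a z → Ad b z → (Stp a z c k ∨ (a.1 k = 0 ∧ Stp a z c k')) ∨
      (a.1 k ≠ 0 ∧ Stp a z k d) := by
    rintro z ⟨b1, i1, k1, sa, sz, -, p, q, hp, hq, -, -, t1⟩
      ⟨b2, i2, k2, sb, sz', -, r, s', hr, hs', -, -, t2⟩
    rcases common_type s t1 t2 with ⟨e1, e2, e3, hqc, hqd⟩ | ⟨e1, e2, e3, hpc, hpd⟩
    · left
      rw [e1] at hp t1
      rw [← e2, e3] at t2
      rw [e3] at hr
      rw [← e2] at hs'
      have kqc := kap_ne g.hK g.ev hq hp hqc
      have kqd := kap_ne g.hK g.ev hs' hr hqd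
      have kcd := kap_ne g.hK g.ev hc hd hcd
      have kck := kap_ne g.hK g.ev hc hk hck
      have kdk := kap_ne g.hK g.ev hd hk hdk
      by_cases hk0 : a.1 k = 0
      · have hcd' : (fc b1 i1 c ∧ fc b1 i1 d) ∨ (fc b2 i2 c ∧ fc b2 i2 d) := by
          by_cases had : a.1 d = 0
          · right
            refine ⟨supp_fc sb ?_, hr⟩
            have := s.1
            omega
          · exact Or.inl ⟨hp, supp_fc sa had⟩
        have fin : ∀ b'' i'', fc b'' i'' c → fc b'' i'' d → fc b'' i'' q → q = k ∨ q = k' := by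
          intro b'' i'' h1 h2 h3
          rcases comp b'' i'' h1 h2 with ⟨rfl, rfl⟩ | ⟨rfl, rfl⟩
          · rcases fc_three hc hd hk hcd hck hdk h3 with h | h | h
            · exact absurd h hqc
            · exact absurd h hqd
            · exact Or.inl h
          · rcases fc_three hc' hd' hk' hcd hck' hdk' h3 with h | h | h
            · exact absurd h hqc
            · exact absurd h hqd
            · exact Or.inr h
        have hq' : q = k ∨ q = k' := by
          rcases hcd' with ⟨h1, h2⟩ | ⟨h1, h2⟩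
          · exact fin b1 i1 h1 h2 hq
          · exact fin b2 i2 h1 h2 hs'
        rcases hq' with rfl | rfl
        · exact Or.inl t1
        · exact Or.inr ⟨hk0, t1⟩
      · left
        have hk1 : fc b1 i1 k := supp_fc sa hk0
        have hqk : q = k := by
          by_contra hcon
          have kqk := kap_ne g.hK g.ev hq hk1 hcon
          have : ∀ x y z w : ZMod 3, x ≠ y → x ≠ z → y ≠ z → w ≠ x → w ≠ y → w ≠ z → False := by
            decide
          exact this _ _ _ _ kcd kck kdk kqc kqd kqk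
        rw [← hqk]
        exact t1
    · right
      rw [e3] at t1
      have hp0 : a.1 p ≠ 0 := by rw [t1.1]; omega
      have hpk : p = k := by
        rcases fc_three hc hd hk hcd hck hdk (supp_fc ha hp0) with h | h | h
        · exact absurd h hpc
        · exact absurd h hpd
        · exact h
      rw [hpk] at hp0 t1
      exact ⟨hp0, t1⟩
  by_cases hk0 : a.1 k = 0
  · have ha' : Sp b' i' a.1 := by
      intro e he
      by_contra h0
      rcases fc_three hc hd hk hcd hck hdk (supp_fc ha h0) with h | h | h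
      · exact he (h ▸ hc')
      · exact he (h ▸ hd')
      · exact h0 (h ▸ hk0)
    have hb' : Sp b' i' b.1 := by
      intro e he
      have h1 : e ≠ c := fun h => he (h ▸ hc')
      have h2 : e ≠ d := fun h => he (h ▸ hd')
      rw [← s.2.2 e h1 h2]
      exact ha' e he
    obtain ⟨z2, s2, hz2⟩ := mv_ex ha' hc' hk' hck' hac
    have s2' : Stp b z2 d k' := by
      apply stp_of_fun hdk'
      intro e
      linarith [stp_fun s e, stp_fun s2 e]
    refine ⟨z1, z2, ?_, fun z => ⟨?_, ?_⟩⟩
    · rintro rfl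
      have h1 := stp_fun s1 k
      have h2 := stp_fun s2 k
      rw [dl_self, dl_ne hck.symm] at h1
      rw [dl_ne hck.symm, dl_ne hkk'] at h2
      linarith
    · rintro ⟨h1, h2⟩
      rcases gen z h1 h2 with (h | h) | h
      · exact Or.inl (Rh.stp_eq H h s1)
      · exact Or.inr (Rh.stp_eq H h.2 s2)
      · exact absurd hk0 h.1
    · rintro (rfl | rfl)
      · exact ⟨ad1, ad1'⟩
      · exact ⟨⟨b', i', d, ha', hz2, hd', c, k', hc', hk', hcd, hdk'.symm, s2⟩,
          ⟨b', i', c, hb', hz2, hc', d, k', hd', hk', hcd.symm, hck'.symm, s2'⟩⟩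
  · obtain ⟨z2, s2, hz2⟩ := mv_ex ha hk hd hdk.symm hk0
    have s2' : Stp b z2 k c := by
      apply stp_of_fun hck.symm
      intro e
      linarith [stp_fun s e, stp_fun s2 e]
    refine ⟨z1, z2, ?_, fun z => ⟨?_, ?_⟩⟩
    · rintro rfl
      have h1 := stp_fun s1 k
      have h2 := stp_fun s2 k
      rw [dl_self, dl_ne hck.symm] at h1
      rw [dl_self, dl_ne hdk.symm] at h2
      linarith
    · rintro ⟨h1, h2⟩
      rcases gen z h1 h2 with (h | h) | h
      · exact Or.inl (Rh.stp_eq H h s1)
      · exact absurd h.1 hk0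
      · exact Or.inr (Rh.stp_eq H h.2 s2)
    · rintro (rfl | rfl)
      · exact ⟨ad1, ad1'⟩
      · exact ⟨⟨b0, i0, c, ha, hz2, hc, k, d, hk, hd, hck.symm, hcd.symm, s2⟩,
          ⟨b0, i0, d, hb, hz2, hd, k, c, hk, hc, hdk.symm, hcd, s2'⟩⟩

end

end Pool.Agent.H3.FF
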